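import Pool.Agent.H40.SP.Lp

/-!
# The sharp lower bound for the sparsification lemma: definitions

The `k = K + 1` groups of variables of a block are indexed by `Ix s r = F_2^s × F_2^r`, with the inner
product `ip`. The clauses of a block are the `z = (x, y_1, ..., y_K)` with `ip x y_q = 1` for all `q` (`Adm z`).

A frame `M = (ρ, A, c)` of a block: `ρ` an invertible `s × s` matrix, `A` an `s × r` matrix, `c t q ∈ F_2^r`. Its edges are
`edge M t = (x^t, y_1^t, ..., y_K^t)`, `x^t = (ρ_t, A_t)` (rows), `y_q^t = (ρ⁻¹ (e_t - A c_(t,q)), c_(t,q))`, and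
`ip x^t' y_q^t = [t' = t]`: an induced matching of `s` clauses.
-/

set_option autoImplicit false

namespace H4.SL

open H40.SP

/-- vectors over the field with two elements -/
abbrev Vc (r : ℕ) : Type := Fin r → ZMod 2

/-- square matrices over the field with two elements -/
abbrev Mt (s : ℕ) : Type := Matrix (Fin s) (Fin s) (ZMod 2)

/-- the index set of the variables of one group of a block -/
abbrev Ix (s r : ℕ) : Type := Vc s × Vc r

variable {K s r B : ℕ}

/-- the inner product -/
def ip (x y : Ix s r) : ZMod 2 := x.1 ⬝ᵥ y.1 + x.2 ⬝ᵥ y.2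

/-- `z` is (the index of) a clause of a block -/
def Adm (z : Fin (K + 1) → Ix s r) : Prop := ∀ q : Fin K, ip (z 0) (z q.succ) = 1

/-- frames -/
abbrev Fr (K s r : ℕ) : Type := (Mt s)ˣ × (Fin s → Vc r) × (Fin s → Fin K → Vc r)

/-- the product of the matrix with rows `A t` and the vector `c` -/
def mv (A : Fin s → Vc r) (c : Vc r) : Vc s := fun t => A t ⬝ᵥ c

/-- the edge with the data `ρ, A, c` in the position `t` -/
def ed (ρ : (Mt s)ˣ) (A : Fin s → Vc r) (c : Fin K → Vc r) (t : Fin s) : Fin (K + 1) → Ix s r :=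
  Fin.cons (ρ.val t, A t) (fun q => (Matrix.mulVec (ρ⁻¹).val (Pi.single t 1 - mv A (c q)), c q))

/-- the edges of a frame -/
def edge (M : Fr K s r) (t : Fin s) : Fin (K + 1) → Ix s r := ed M.1 M.2.1 (M.2.2 t) t

variable {V : Type}

/-- the variables are different -/
def InjV (v : Fin B → Fin (K + 1) → Ix s r → V) : Prop :=
  ∀ β q i β' q' i', v β q i = v β' q' i' → β = β' ∧ q = q' ∧ i = i'

/-- the clause `z` of the block `β` -/
def cl [DecidableEq V] (v : Fin B → Fin (K + 1) → Ix s r → V) (β : Fin B) (z : Fin (K + 1) → Ix s r) :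
    Finset (V × Bool) :=
  Finset.univ.image (fun q => (v β q (z q), false))

open Classical in
/-- the hard formula -/
noncomputable def hf (v : Fin B → Fin (K + 1) → Ix s r → V) : Fml V :=
  (Finset.univ.filter (fun p : Fin B × (Fin (K + 1) → Ix s r) => Adm p.2)).image (fun p => cl v p.1 p.2)

/-- the block of the coordinate `τ` -/
def bk (τ : Fin (B * s)) : Fin B := (finProdFinEquiv.symm τ).1

/-- the position of the coordinate `τ` inside its block -/
def ps (τ : Fin (B * s)) : Fin s := (finProdFinEquiv.symm τ).2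

/-- the variables of the edges of a family of frames, as variables of the formula `hard` with `B s`
blocks and one variable in each part -/
def xs (v : Fin B → Fin (K + 1) → Ix s r → V) (M : Fin B → Fr K s r) :
    Fin (B * s) → Fin (K + 1) → Fin 1 → V :=
  fun τ q _ => v (bk τ) q (edge (M (bk τ)) (ps τ) q)

/-- the clause `C` serves `(β, z)`: it contains the negated variables of `(β, z)`, and of no other clause of `hf` -/
def Sv (v : Fin B → Fin (K + 1) → Ix s r → V) (C : Finset (V × Bool)) (β : Fin B)
    (z : Fin (K + 1) → Ix s r) : Prop :=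
  (∀ q, (v β q (z q), false) ∈ C) ∧
    ∀ β' z', Adm z' → (∀ q, (v β' q (z' q), false) ∈ C) → β' = β ∧ z' = z

open Classical in
/-- the served clauses of the hard formula -/
noncomputable def sv (v : Fin B → Fin (K + 1) → Ix s r → V) (G : Fml V) :
    Finset (Fin B × (Fin (K + 1) → Ix s r)) :=
  Finset.univ.filter (fun p => Adm p.2 ∧ ∃ C ∈ G, Sv v C p.1 p.2)

/-- the part of `P` in the block `β` -/
def pt (P : Finset (Fin B × (Fin (K + 1) → Ix s r))) (β : Fin B) : Finset (Fin (K + 1) → Ix s r) :=
  (P.filter (fun p => p.1 = β)).image Prod.snd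

/-- the number of edges of the frame in `P` -/
def hit (P : Finset (Fin (K + 1) → Ix s r)) (M : Fr K s r) : ℕ :=
  (Finset.univ.filter (fun t : Fin s => edge M t ∈ P)).card

open Classical in
/-- the number of coordinates whose edge is in `P` -/
noncomputable def hits (P : Finset (Fin B × (Fin (K + 1) → Ix s r))) (M : Fin B → Fr K s r) : ℕ :=
  (Finset.univ.filter (fun τ : Fin (B * s) => (bk τ, edge (M (bk τ)) (ps τ)) ∈ P)).card

/-- the proportion of the `c` such that the edge is in `P` -/
noncomputable def pr (P : Finset (Fin (K + 1) → Ix s r)) (ρ : (Mt s)ˣ) (A : Fin s → Vc r) (t : Fin s) : ℝ :=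
  ((Finset.univ.filter (fun c : Fin K → Vc r => ed ρ A c t ∈ P)).card : ℝ) / 2 ^ (r * K)

/-- the density of `P` over `x` -/
noncomputable def lam (P : Finset (Fin (K + 1) → Ix s r)) (x : Ix s r) : ℝ :=
  ((P.filter (fun z => z 0 = x)).card : ℝ) / 2 ^ ((s + r - 1) * K)

/-- the number of `b` with `(x, (b, c)) ∈ P` -/
def nn (P : Finset (Fin (K + 1) → Ix s r)) (x : Ix s r) (c : Fin K → Vc r) : ℕ :=
  (Finset.univ.filter (fun b : Fin K → Vc s =>
    (Fin.cons x (fun q => (b q, c q)) : Fin (K + 1) → Ix s r) ∈ P)).card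

/-- the number of clauses of a block, up to the factor `2^(s+r) / (2^(s+r) - 1)` -/
noncomputable def tot (K s r : ℕ) : ℝ := 2 ^ (s + r) * 2 ^ ((s + r - 1) * K)

end H4.SL
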