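import Pool.Agent.H4.SL.Defs

/-!
# Row Ea: the edges of a frame

PROOF. `ed_zero`, `ed_succ`: `Fin.cons_zero`, `Fin.cons_succ` (unfold `ed`).
`mulVec_inv`: `Matrix.mulVec_mulVec`, `ρ.val * ρ⁻¹.val = 1` (`Units.mul_inv`), `Matrix.one_mulVec`.
`ip_ed`: the value is `ρ_t' ⬝ᵥ (ρ⁻¹ w) + A t' ⬝ᵥ c q` with `w = Pi.single t 1 - mv A (c q)`. `ρ_t' ⬝ᵥ (ρ⁻¹ w) = (ρ (ρ⁻¹ w)) t'`
(`Matrix.mulVec` is rowwise `dotProduct`, definitional) `= w t'` by `mulVec_inv`, `= [t' = t] - A t' ⬝ᵥ c q`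
(`Pi.single_apply`; `mv` is definitional). Add.
`adm_ed`: `ip_ed` with `t' = t`. `ip_edge`, `adm_edge`: unfold `edge`; `edge M t' 0 = (ρ_t', A t')` by `ed_zero`.
`edge_inj`: if `q = 0` (`Fin.cases`): `edge M t 0 = edge M t' 0`; take `q0 : Fin K` (`⟨0, _⟩`); `ip_edge M t t q0` is `1`, and replacing
`edge M t 0` by `edge M t' 0` gives `ip_edge M t' t q0 = [t' = t]`, so `t' = t` (`1 ≠ 0` in `ZMod 2`: `one_ne_zero`). If `q = q0.succ`:
`1 = ip (edge M t 0) (edge M t q) = ip (edge M t 0) (edge M t' q) = [t = t']`.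
`edge_trans`: for `q = q0.succ`: `1 = ip (z 0) (z q) = ip (edge M (τ 0) 0) (edge M (τ q) q) = [τ 0 = τ q]`. For `q = 0` trivial.
-/

set_option autoImplicit false

namespace H4.SL

variable {K s r : ℕ}

theorem ed_zero (ρ : (Mt s)ˣ) (A : Fin s → Vc r) (c : Fin K → Vc r) (t : Fin s) :
    ed ρ A c t 0 = (ρ.val t, A t) := by
  rfl

theorem ed_succ (ρ : (Mt s)ˣ) (A : Fin s → Vc r) (c : Fin K → Vc r) (t : Fin s) (q : Fin K) :
    ed ρ A c t q.succ = (Matrix.mulVec (ρ⁻¹).val (Pi.single t 1 - mv A (c q)), c q) := by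
  rfl

theorem mulVec_inv (ρ : (Mt s)ˣ) (u : Vc s) :
    Matrix.mulVec ρ.val (Matrix.mulVec (ρ⁻¹).val u) = u := by
  have h : ρ.val * (ρ⁻¹).val = 1 := ρ.mul_inv
  rw [Matrix.mulVec_mulVec, h, Matrix.one_mulVec]

theorem ip_ed (ρ : (Mt s)ˣ) (A : Fin s → Vc r) (c : Fin K → Vc r) (t' t : Fin s) (q : Fin K) :
    ip (ρ.val t', A t') (ed ρ A c t q.succ) = if t' = t then 1 else 0 := by
  rw [ed_succ]
  show ρ.val t' ⬝ᵥ Matrix.mulVec (ρ⁻¹).val (Pi.single t 1 - mv A (c q)) + A t' ⬝ᵥ c q = _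
  have h1 : ρ.val t' ⬝ᵥ Matrix.mulVec (ρ⁻¹).val (Pi.single t 1 - mv A (c q)) =
      (Pi.single t 1 - mv A (c q) : Vc s) t' := congrFun (mulVec_inv ρ (Pi.single t 1 - mv A (c q))) t'
  have h2 : (Pi.single t 1 - mv A (c q) : Vc s) t' = (if t' = t then 1 else 0) - A t' ⬝ᵥ c q := by
    rw [Pi.sub_apply, Pi.single_apply]
    rfl
  rw [h1, h2, sub_add_cancel]

theorem adm_ed (ρ : (Mt s)ˣ) (A : Fin s → Vc r) (c : Fin K → Vc r) (t : Fin s) :
    Adm (ed ρ A c t) := by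
  intro q
  rw [ed_zero, ip_ed, if_pos rfl]

theorem ip_edge (M : Fr K s r) (t' t : Fin s) (q : Fin K) :
    ip (edge M t' 0) (edge M t q.succ) = if t' = t then 1 else 0 := by
  show ip (ed M.1 M.2.1 (M.2.2 t') t' 0) (ed M.1 M.2.1 (M.2.2 t) t q.succ) = _
  rw [ed_zero, ip_ed]

theorem adm_edge (M : Fr K s r) (t : Fin s) : Adm (edge M t) := by
  exact adm_ed _ _ _ t

theorem edge_inj (hK : 1 ≤ K) (M : Fr K s r) {t t' : Fin s} {q : Fin (K + 1)}
    (h : edge M t q = edge M t' q) : t = t' := by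
  by_contra hne
  induction q using Fin.cases with
  | zero =>
    have h1 := ip_edge M t t (⟨0, hK⟩ : Fin K)
    rw [h, ip_edge, if_pos rfl, if_neg (Ne.symm hne)] at h1
    exact zero_ne_one h1
  | succ q0 =>
    have h1 := ip_edge M t t q0
    rw [h, ip_edge, if_pos rfl, if_neg hne] at h1
    exact zero_ne_one h1

theorem edge_trans (M : Fr K s r) {z : Fin (K + 1) → Ix s r} (hz : Adm z) (τ : Fin (K + 1) → Fin s)
    (h : ∀ q, z q = edge M (τ q) q) : ∀ q, τ q = τ 0 := by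
  intro q
  induction q using Fin.cases with
  | zero => rfl
  | succ q0 =>
    have h1 := hz q0
    rw [h 0, h q0.succ, ip_edge] at h1
    by_contra hne
    rw [if_neg (Ne.symm hne)] at h1
    exact zero_ne_one h1

end H4.SL
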