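import Pool.Agent.H4.SL.Ea

/-!
# Row Eb: the hard formula contains the small hard formulas of all families of frames

PROOF. `width_hf`: a clause of `hf v` is an image of `univ : Finset (Fin (K + 1))` (`Finset.card_image_le`).
`inj_xs`: `xs v M τ q i = xs v M τ' q' i'` means `v (bk τ) q (edge ..) = v (bk τ') q' (edge ..)`; `hv` gives `bk τ = bk τ'`,
`q = q'` and equality of the edges at `q`; after substituting, `edge_inj` gives `ps τ = ps τ'`. So
`finProdFinEquiv.symm τ = finProdFinEquiv.symm τ'` (`Prod.ext`), `τ = τ'`; `i = i'` by `Subsingleton.elim`.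
`sat_hard_of_hf`: a clause of `hard (xs v M)` is `hcl (xs v M) τ u = univ.image (fun q => (xs v M τ q (u q), false))`, which is
`cl v (bk τ) (edge (M (bk τ)) (ps τ))` (definitionally, `xs` ignores its last argument), and this is in `hf v` by `adm_edge`.
`sat_hf`: let `(β, z)` be admissible and suppose no literal of `cl v β z` is satisfied: then `asg (xs v M) σ (v β q (z q)) = true` for all `q`.
By definition of `asg` (`decide_eq_true_iff`) there are `T q : Fin (B * s)`, `q'`, with `q' ≠ (σ (T q)).1` and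
`v β q (z q) = v (bk (T q)) q' (edge (M (bk (T q))) (ps (T q)) q')`; `hv`: `bk (T q) = β`, `q' = q`, `z q = edge (M β) (ps (T q)) q`. With
`edge_trans` (`τ q = ps (T q)`): `ps (T q) = ps (T 0)`, so `T q = T 0` for all `q` (same block, same position). But `q ≠ (σ (T q)).1 = (σ (T 0)).1`
for all `q`, a contradiction for `q = (σ (T 0)).1`.
-/

set_option autoImplicit false

namespace H4.SL

open H40.SP

theorem mem_hf {V : Type} [inst : DecidableEq V] {K s r B : ℕ}
    (v : Fin B → Fin (K + 1) → Ix s r → V) (C : Finset (V × Bool)) :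
    C ∈ hf v ↔ ∃ (β : Fin B) (z : Fin (K + 1) → Ix s r), Adm z ∧ C = cl v β z := by
  obtain rfl : inst = fun a b => Classical.propDecidable (a = b) := Subsingleton.elim _ _
  classical
  unfold hf
  rw [Finset.mem_image]
  constructor
  · rintro ⟨⟨β, z⟩, hp, rfl⟩
    rw [Finset.mem_filter] at hp
    exact ⟨β, z, hp.2, rfl⟩
  · rintro ⟨β, z, hz, rfl⟩
    refine ⟨(β, z), ?_, rfl⟩
    rw [Finset.mem_filter]
    exact ⟨Finset.mem_univ _, hz⟩

variable {V : Type} [DecidableEq V] {K s r B : ℕ} {v : Fin B → Fin (K + 1) → Ix s r → V}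

theorem width_hf (v : Fin B → Fin (K + 1) → Ix s r → V) : Width (K + 1) (hf v) := by
  intro C hC
  rw [mem_hf] at hC
  obtain ⟨β, z, _, rfl⟩ := hC
  unfold cl
  refine Finset.card_image_le.trans ?_
  rw [Finset.card_univ, Fintype.card_fin]

theorem inj_xs (hK : 1 ≤ K) (hv : InjV v) (M : Fin B → Fr K s r) : Inj (xs v M) := by
  intro τ q i τ' q' i' h
  unfold xs at h
  obtain ⟨h1, h2, h3⟩ := hv _ _ _ _ _ _ h
  subst h2
  refine ⟨?_, rfl, Subsingleton.elim _ _⟩
  rw [h1] at h3
  have h4 := edge_inj hK (M (bk τ')) h3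
  apply finProdFinEquiv.symm.injective
  exact Prod.ext h1 h4

theorem sat_hard_of_hf (M : Fin B → Fr K s r) {a : V → Bool} (h : Sat (hf v) a) :
    Sat (hard (xs v M)) a := by
  intro C hC
  unfold hard at hC
  rw [Finset.mem_image] at hC
  obtain ⟨p, _, rfl⟩ := hC
  apply h
  rw [mem_hf]
  exact ⟨bk p.1, edge (M (bk p.1)) (ps p.1), adm_edge _ _, rfl⟩

theorem sat_hf (hv : InjV v) (M : Fin B → Fr K s r) (σ : St (B * s) (K + 1) 1) :
    Sat (hf v) (asg (xs v M) σ) := by
  intro C hC
  rw [mem_hf] at hC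
  obtain ⟨β, z, hz, rfl⟩ := hC
  by_contra hcon
  push Not at hcon
  have h1 : ∀ q : Fin (K + 1), asg (xs v M) σ (v β q (z q)) = true := by
    intro q
    have h2 := hcon (v β q (z q), false) (by
      unfold cl
      rw [Finset.mem_image]
      exact ⟨q, Finset.mem_univ _, rfl⟩)
    simpa using h2
  have h2 : ∀ q : Fin (K + 1), ∃ T : Fin (B * s), q ≠ (σ T).1 ∧ bk T = β ∧
      z q = edge (M β) (ps T) q := by
    intro q
    have h3 := h1 q
    unfold asg at h3
    obtain ⟨T, q', hq', hT⟩ := @of_decide_eq_true _ (_) h3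
    unfold xs at hT
    obtain ⟨e1, e2, e3⟩ := hv _ _ _ _ _ _ hT
    subst e2
    refine ⟨T, hq', e1.symm, ?_⟩
    rw [e3, ← e1]
  choose T hT1 hT2 hT3 using h2
  have h4 := edge_trans (M β) hz (fun q => ps (T q)) hT3
  have h5 : ∀ q, T q = T 0 := by
    intro q
    apply finProdFinEquiv.symm.injective
    refine Prod.ext ?_ (h4 q)
    change bk (T q) = bk (T 0)
    rw [hT2, hT2]
  have h6 := hT1 (σ (T 0)).1
  rw [h5 (σ (T 0)).1] at h6
  exact h6 rfl

end H4.SL
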