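import Pool.Agent.H4.SL.Eb

/-!
# Row Ec: honest coordinates are served

PROOF. `card_sv_le`: `Finset.card_le_card_of_forall_subsingleton (fun p C => Sv v C p.1 p.2)` as in `Pool/Agent/H40/SP/Lm.lean`
(`card_srv_le`): if `C` serves `(β, z)` and `(β', z')`, both admissible, then the last clause of `Sv` for `(β, z)`, applied to
`(β', z')` (with the first part of `Sv` for `(β', z')`) gives `β' = β`, `z' = z`.
`sv_of_honest`: `Honest` gives `C ∈ G` with `Viol C (flip (xs v M) σ τ)` and all `(xs v M τ q _, false) ∈ C`, i.e.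
`(v (bk τ) q (edge (M (bk τ)) (ps τ) q), false) ∈ C`: the first part of `Sv`. Admissibility: `adm_edge`. Second part: let `z'` be admissible
and all `(v β' q (z' q), false) ∈ C`. By `Viol`, `flip (xs v M) σ τ (v β' q (z' q)) ≠ false`, so it is `true`. `flip` is `Function.update
(asg ..) (mis ..) true`. So for every `q` either `v β' q (z' q) = mis (xs v M) σ τ = xs v M τ (σ τ).1 _` (then `bk τ = β'`, `q = (σ τ).1`,
`z' q = edge (M β') (ps τ) q`; put `T q = τ`) or `asg .. = true` (then, as in `sat_hf`, there is `T q` with `bk (T q) = β'`,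
`z' q = edge (M β') (ps (T q)) q`, `q ≠ (σ (T q)).1`). In both cases: `bk (T q) = β'`, `z' q = edge (M β') (ps (T q)) q` and
(`T q = τ` or `q ≠ (σ (T q)).1`). `edge_trans`: `ps (T q) = ps (T 0)`, so `T q = T 0` for all `q`. For `q = (σ (T 0)).1` the second alternative
is impossible, so `T 0 = τ`, `β' = bk τ`, and `z' q = edge (M (bk τ)) (ps τ) q` for all `q`.
-/

set_option autoImplicit false

namespace H4.SL

open H40.SP

variable {V : Type} [DecidableEq V] {K s r B : ℕ} {v : Fin B → Fin (K + 1) → Ix s r → V} {G : Fml V}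

omit [DecidableEq V] in
theorem Ec_flip {B' k b : ℕ} {x : Fin B' → Fin k → Fin b → V} {σ : St B' k b} {t : Fin B'} {w : V}
    (h : H40.SP.flip x σ t w = true) : w = mis x σ t ∨ asg x σ w = true := by
  classical
  unfold H40.SP.flip at h
  rw [Function.update_apply] at h
  split_ifs at h with h2
  · exact Or.inl h2
  · exact Or.inr h

omit [DecidableEq V] in
theorem Ec_asg {B' k b : ℕ} {x : Fin B' → Fin k → Fin b → V} {σ : St B' k b} {w : V}
    (h : asg x σ w = true) : ∃ t q, q ≠ (σ t).1 ∧ w = x t q ((σ t).2 q) := by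
  classical
  unfold asg at h
  exact of_decide_eq_true h

theorem card_sv_le (v : Fin B → Fin (K + 1) → Ix s r → V) (G : Fml V) : (sv v G).card ≤ G.card := by
  classical
  apply Finset.card_le_card_of_forall_subsingleton (fun p C => Sv v C p.1 p.2)
  · intro p hp
    exact (Finset.mem_filter.1 hp).2.2
  · intro C _ p hp p' hp'
    obtain ⟨β, z⟩ := p
    obtain ⟨β', z'⟩ := p'
    have h1 : Sv v C β z := hp.2
    have h2 : Sv v C β' z' := hp'.2
    have h3 : Adm z' := (Finset.mem_filter.1 hp'.1).2.1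
    obtain ⟨h4, h5⟩ := h1.2 β' z' h3 h2.1
    rw [h4, h5]

theorem sv_of_honest (hv : InjV v) (M : Fin B → Fr K s r) {σ : St (B * s) (K + 1) 1}
    {τ : Fin (B * s)} (h : Honest (xs v M) G σ τ) :
    (bk τ, edge (M (bk τ)) (ps τ)) ∈ sv v G := by
  classical
  obtain ⟨C, hC, hvi, hq⟩ := h
  refine Finset.mem_filter.2 ⟨Finset.mem_univ _, adm_edge _ _, C, hC, hq, ?_⟩
  intro β' z' hz' hm
  have hflip : ∀ q, flip (xs v M) σ τ (v β' q (z' q)) = true := by
    intro q
    have h1 := hvi _ (hm q)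
    simpa using h1
  have hT : ∀ q, ∃ t : Fin (B * s), bk t = β' ∧ z' q = edge (M β') (ps t) q ∧
      (t = τ ∨ q ≠ (σ t).1) := by
    intro q
    have h1 := hflip q
    rcases Ec_flip h1 with h2 | h1
    · have h3 : v β' q (z' q) = v (bk τ) (σ τ).1 (edge (M (bk τ)) (ps τ) (σ τ).1) := h2
      obtain ⟨h4, h5, h6⟩ := hv _ _ _ _ _ _ h3
      refine ⟨τ, h4.symm, ?_, Or.inl rfl⟩
      rw [h6, ← h5, h4]
    · obtain ⟨t, q', h3, h4⟩ := Ec_asg h1
      have h5 : v β' q (z' q) = v (bk t) q' (edge (M (bk t)) (ps t) q') := h4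
      obtain ⟨h6, h7, h8⟩ := hv _ _ _ _ _ _ h5
      subst h7
      refine ⟨t, h6.symm, ?_, Or.inr h3⟩
      rw [h8, h6]
  choose T h1 h2 h3 using hT
  have h4 := edge_trans (M β') hz' (fun q => ps (T q)) h2
  have h5 : ∀ q, T q = T 0 := by
    intro q
    apply finProdFinEquiv.symm.injective
    apply Prod.ext
    · exact (h1 q).trans (h1 0).symm
    · exact h4 q
  have h6 : T 0 = τ := by
    rcases h3 (σ (T 0)).1 with h7 | h7
    · exact (h5 _).symm.trans h7
    · rw [h5 (σ (T 0)).1] at h7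
      exact absurd rfl h7
  have h7 : β' = bk τ := by rw [← h1 0, h6]
  refine ⟨h7, ?_⟩
  funext q
  rw [h2 q, h5 q, h6, h7]

end H4.SL
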