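import Pool.Agent.H4.SL.Eb

/-!
# Row Ed: the non-honest coordinates, summed over all families of frames

`g_M = card (good (xs v M) G)`, `NS = card (St (B s) (K+1) 1)`, `NF = card (Fin B → Fr K s r)`.
PROOF. For a fixed `M` with `g_M > 0` apply `H40.SP.sum_nonhonest_le` (file `Pool/Agent/H40/SP/Lk.lean`) to `x = xs v M` (`B := B * s`, `k := K + 1`,
`b := 1`; `inj_xs`; `hG' a h := sat_hard_of_hf M (hG a h)`): the inner sum is `≤ 3 w (((K+1 : ℕ) : ℝ) - 1) (g_M log (NS / g_M))`, and
`((K+1 : ℕ) : ℝ) - 1 = K`. If `g_M = 0` both the inner sum and `g_M log (NS / g_M)` are `0`. It remains to show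
`∑_M g_M log (NS / g_M) ≤ a log (NF NS / a)` (then multiply by `3 w K ≥ 0`). Use `H40.SP.sum_log_le` (`Pool/Agent/H40/SP/Lh.lean`) with
`α = Σ M, St ..` (or `(Fin B → Fr K s r) × St ..`), `A = Finset.univ.sigma (fun M => good (xs v M) G)`, `W ⟨M, σ⟩ = NS / g_M` (positive on `A`; `NS > 0`
because `St` is nonempty: `Fintype.card_pos`), `X = NF * NS`: `∑_A W = ∑_M g_M * (NS / g_M) ≤ ∑_M NS = NF NS`, `card A = a`, and
`∑_A log W = ∑_M g_M log (NS / g_M)`.
-/

set_option autoImplicit false

namespace H4.SL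

open H40.SP

variable {V : Type} [DecidableEq V] {K s r B : ℕ} {v : Fin B → Fin (K + 1) → Ix s r → V} {G : Fml V}

open Classical in
theorem sum_nonhonest_fr (hK : 1 ≤ K) (hv : InjV v) {w : ℕ} (hkw : K + 1 ≤ w) (hw : Width w G)
    (hG : ∀ a, Sat G a → Sat (hf v) a) {a : ℕ}
    (ha : a = ∑ M : Fin B → Fr K s r, (good (xs v M) G).card) (ha0 : 0 < a) :
    ∑ M : Fin B → Fr K s r, ∑ σ ∈ good (xs v M) G,
        ((Finset.univ.filter (fun τ => ¬ Honest (xs v M) G σ τ)).card : ℝ) * Real.log 2 ≤
      3 * w * (K * (a * Real.log ((Fintype.card (Fin B → Fr K s r) : ℝ) *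
        Fintype.card (St (B * s) (K + 1) 1) / a))) := by
  set NS : ℝ := (Fintype.card (St (B * s) (K + 1) 1) : ℝ) with hNS
  have hNS0 : 0 < NS := by
    have : 0 < Fintype.card (St (B * s) (K + 1) 1) := Fintype.card_pos
    rw [hNS]
    exact_mod_cast this
  -- one family of frames
  have h1 : ∀ M : Fin B → Fr K s r, ∑ σ ∈ good (xs v M) G,
      ((Finset.univ.filter (fun τ => ¬ Honest (xs v M) G σ τ)).card : ℝ) * Real.log 2 ≤
        3 * w * (K * ((good (xs v M) G).card * Real.log (NS / (good (xs v M) G).card))) := by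
    intro M
    rcases (good (xs v M) G).eq_empty_or_nonempty with h0 | h0
    · rw [h0]
      simp
    · have h2 := H40.SP.sum_nonhonest_le (G := G) (inj_xs hK hv M) (by omega) hkw hw
        (fun a h => sat_hard_of_hf M (hG a h)) h0
      have e : (((K + 1 : ℕ) : ℝ) - 1) = K := by push_cast; ring
      rw [e] at h2
      exact h2
  -- all families
  have h3 : ∑ M : Fin B → Fr K s r, ((good (xs v M) G).card : ℝ) *
      Real.log (NS / (good (xs v M) G).card) ≤
        a * Real.log ((Fintype.card (Fin B → Fr K s r) : ℝ) * NS / a) := by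
    let A : Finset (Σ _M : Fin B → Fr K s r, St (B * s) (K + 1) 1) :=
      Finset.univ.sigma (fun M => good (xs v M) G)
    have hAc : A.card = a := by
      rw [ha]
      exact Finset.card_sigma _ _
    have hA : A.Nonempty := by
      rw [← Finset.card_pos, hAc]
      exact ha0
    have hWpos : ∀ x ∈ A, 0 < NS / ((good (xs v x.1) G).card : ℝ) := by
      intro x hx
      have hx2 : x.2 ∈ good (xs v x.1) G := (Finset.mem_sigma.1 hx).2
      have : 0 < (good (xs v x.1) G).card := Finset.card_pos.2 ⟨_, hx2⟩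
      exact div_pos hNS0 (by exact_mod_cast this)
    have hX : ∑ x ∈ A, NS / ((good (xs v x.1) G).card : ℝ) ≤
        (Fintype.card (Fin B → Fr K s r) : ℝ) * NS := by
      rw [Finset.sum_sigma]
      have h4 : ∀ M ∈ (Finset.univ : Finset (Fin B → Fr K s r)),
          ∑ _σ ∈ good (xs v M) G, NS / ((good (xs v M) G).card : ℝ) ≤ NS := by
        intro M _
        rw [Finset.sum_const, nsmul_eq_mul]
        rcases Nat.eq_zero_or_pos (good (xs v M) G).card with h0 | h0
        · rw [h0]
          simp [hNS0.le]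
        · have : ((good (xs v M) G).card : ℝ) ≠ 0 := by exact_mod_cast h0.ne'
          rw [mul_div_cancel₀ _ this]
      refine (Finset.sum_le_sum h4).trans ?_
      rw [Finset.sum_const, nsmul_eq_mul, Finset.card_univ]
    have h5 := H40.SP.sum_log_le A hA (fun x => NS / ((good (xs v x.1) G).card : ℝ)) hWpos hX
    rw [hAc, Finset.sum_sigma] at h5
    simp only [Finset.sum_const, nsmul_eq_mul] at h5
    exact h5
  refine (Finset.sum_le_sum fun M _ => h1 M).trans ?_
  rw [← Finset.mul_sum, ← Finset.mul_sum]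
  refine mul_le_mul_of_nonneg_left ?_ (by positivity)
  exact mul_le_mul_of_nonneg_left h3 (Nat.cast_nonneg K)

end H4.SL
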