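import Pool.Agent.H4.SL.Defs

/-!
# Row Ee: the served coordinates, summed over all families of frames

`NS = card (St (B s) (K+1) 1)`, `NF = card (Fin B → Fr K s r) = (card Fr)^B`.
PROOF. For `M : Fin B → Fr K s r` the number `hits P M` of the `τ` with `(bk τ, edge (M (bk τ)) (ps τ)) ∈ P` is `∑ β, hit (pt P β) (M β)`: transport along
`finProdFinEquiv : Fin B × Fin s ≃ Fin (B * s)` (`bk`, `ps` are the components of its inverse), and `(β, z) ∈ P ↔ z ∈ pt P β` (`hit_sum`).
Put `W(M, σ) = ∏ β, 2^(hit (pt P β) (M β)) = 2^(∑ β, hit ..)`, which does not depend on `σ`; `log W = (∑ β, hit ..) log 2`.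
`∑_M ∑_(σ ∈ S M) W ≤ NS ∑_M ∏ β, 2^(hit (pt P β) (M β)) = NS ∏ β, ∑_(M : Fr) 2^(hit (pt P β) M)` (`Finset.prod_univ_sum` /
`Fintype.piFinset_univ`, i.e. `∏ β, ∑ m, f β m = ∑ M, ∏ β, f β (M β)`) `≤ NS ∏ β, (card Fr * exp (E β)) = NS NF exp (∑ β, E β) =: X`
(`Fintype.card_fun`/`Finset.prod_const`, `Real.exp_sum`). `H40.SP.sum_log_le` (`Pool/Agent/H40/SP/Lh.lean`) on the sigma type as in row Ed gives
`∑ log W ≤ a log (X / a) = a (log (NF NS / a) + ∑ β, E β)` (`Real.log_mul`, `Real.log_exp`; `NF, NS, a > 0`: if `a > 0` then the types are nonempty).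
-/

set_option autoImplicit false

namespace H4.SL

open H40.SP

variable {K s r B : ℕ}

theorem mem_pt (P : Finset (Fin B × (Fin (K + 1) → Ix s r))) (β : Fin B) (z : Fin (K + 1) → Ix s r) :
    z ∈ pt P β ↔ (β, z) ∈ P := by
  unfold pt
  rw [Finset.mem_image]
  constructor
  · rintro ⟨⟨β', z'⟩, h1, h2⟩
    rw [Finset.mem_filter] at h1
    have h3 : β' = β := h1.2
    have h4 : z' = z := h2
    rw [← h3, ← h4]
    exact h1.1
  · intro h
    exact ⟨(β, z), Finset.mem_filter.2 ⟨h, rfl⟩, rfl⟩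

theorem hit_sum (P : Finset (Fin B × (Fin (K + 1) → Ix s r))) (M : Fin B → Fr K s r) :
    hits P M = ∑ β, hit (pt P β) (M β) := by
  classical
  have h1 : hits P M = ∑ p : Fin B × Fin s, (if (p.1, edge (M p.1) p.2) ∈ P then 1 else 0) := by
    unfold hits
    rw [Finset.card_filter]
    refine Fintype.sum_equiv finProdFinEquiv.symm _ _ (fun τ => ?_)
    by_cases h : (bk τ, edge (M (bk τ)) (ps τ)) ∈ P
    · rw [if_pos h, if_pos]
      exact h
    · rw [if_neg h, if_neg]
      exact h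
  rw [h1, Fintype.sum_prod_type]
  refine Finset.sum_congr rfl (fun β _ => ?_)
  unfold hit
  rw [Finset.card_filter]
  refine Finset.sum_congr rfl (fun t _ => ?_)
  by_cases h : (β, edge (M β) t) ∈ P
  · rw [if_pos h, if_pos ((mem_pt P β _).2 h)]
  · rw [if_neg h, if_neg (fun h' => h ((mem_pt P β _).1 h'))]

theorem sum_pt (P : Finset (Fin B × (Fin (K + 1) → Ix s r))) : ∑ β, (pt P β).card = P.card := by
  classical
  rw [Finset.card_eq_sum_card_fiberwise (f := Prod.fst) (t := Finset.univ)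
    (fun x _ => Finset.mem_coe.2 (Finset.mem_univ _))]
  refine Finset.sum_congr rfl (fun β _ => ?_)
  unfold pt
  rw [Finset.card_image_of_injOn]
  rintro ⟨b, z⟩ h1 ⟨b', z'⟩ h2 h3
  have e1 : b = β := (Finset.mem_filter.1 (Finset.mem_coe.1 h1)).2
  have e2 : b' = β := (Finset.mem_filter.1 (Finset.mem_coe.1 h2)).2
  have e3 : z = z' := h3
  rw [e1, e2, e3]

theorem sum_hit_fr (P : Finset (Fin B × (Fin (K + 1) → Ix s r)))
    (S : (Fin B → Fr K s r) → Finset (St (B * s) (K + 1) 1)) {a : ℕ} (ha : a = ∑ M, (S M).card)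
    (ha0 : 0 < a) (E : Fin B → ℝ)
    (hE : ∀ β, ∑ M : Fr K s r, (2 : ℝ) ^ hit (pt P β) M ≤ Fintype.card (Fr K s r) * Real.exp (E β)) :
    ∑ M, ∑ _σ ∈ S M, (hits P M : ℝ) * Real.log 2 ≤
      a * (Real.log ((Fintype.card (Fin B → Fr K s r) : ℝ) * Fintype.card (St (B * s) (K + 1) 1) / a)
        + ∑ β, E β) := by
  classical
  obtain ⟨A, hA⟩ : ∃ A : Finset (Σ _ : (Fin B → Fr K s r), St (B * s) (K + 1) 1),
    A = Finset.univ.sigma S := ⟨_, rfl⟩
  have hcard : A.card = a := by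
    rw [hA, Finset.card_sigma, ha]
  have hne : A.Nonempty := Finset.card_pos.1 (by omega)
  obtain ⟨⟨M0, σ0⟩, h0⟩ := hne
  have hNF : (0 : ℝ) < Fintype.card (Fin B → Fr K s r) := by
    have : 0 < Fintype.card (Fin B → Fr K s r) := Fintype.card_pos_iff.2 ⟨M0⟩
    exact_mod_cast this
  have hNS : (0 : ℝ) < Fintype.card (St (B * s) (K + 1) 1) := by
    have : 0 < Fintype.card (St (B * s) (K + 1) 1) := Fintype.card_pos_iff.2 ⟨σ0⟩
    exact_mod_cast this
  have haR : (0 : ℝ) < a := by exact_mod_cast ha0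
  have hNFc : (Fintype.card (Fin B → Fr K s r) : ℝ) = (Fintype.card (Fr K s r) : ℝ) ^ B := by
    rw [Fintype.card_fun, Fintype.card_fin, Nat.cast_pow]
  have hW : ∑ x ∈ A, (2 : ℝ) ^ hits P x.1 ≤
      (Fintype.card (Fin B → Fr K s r) : ℝ) * Fintype.card (St (B * s) (K + 1) 1) *
        Real.exp (∑ β, E β) := by
    rw [hA, Finset.sum_sigma]
    calc ∑ M, ∑ _σ ∈ S M, (2 : ℝ) ^ hits P M
        ≤ ∑ M, (Fintype.card (St (B * s) (K + 1) 1) : ℝ) * (2 : ℝ) ^ hits P M := by
          refine Finset.sum_le_sum (fun M _ => ?_)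
          rw [Finset.sum_const, nsmul_eq_mul]
          refine mul_le_mul_of_nonneg_right ?_ (by positivity)
          exact_mod_cast Finset.card_le_univ (S M)
      _ = (Fintype.card (St (B * s) (K + 1) 1) : ℝ) *
            ∏ β, ∑ M : Fr K s r, (2 : ℝ) ^ hit (pt P β) M := by
          rw [← Finset.mul_sum, Finset.prod_univ_sum, Fintype.piFinset_univ]
          congr 1
          refine Finset.sum_congr rfl (fun M _ => ?_)
          rw [hit_sum, Finset.prod_pow_eq_pow_sum]
      _ ≤ (Fintype.card (St (B * s) (K + 1) 1) : ℝ) *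
            ∏ β, ((Fintype.card (Fr K s r) : ℝ) * Real.exp (E β)) := by
          refine mul_le_mul_of_nonneg_left ?_ hNS.le
          refine Finset.prod_le_prod (fun β _ => ?_) (fun β _ => hE β)
          exact Finset.sum_nonneg (fun M _ => by positivity)
      _ = _ := by
          rw [Finset.prod_mul_distrib, Finset.prod_const, Finset.card_univ, Fintype.card_fin,
            ← Real.exp_sum, hNFc]
          ring
  have hmain := sum_log_le A ⟨⟨M0, σ0⟩, h0⟩ (fun x => (2 : ℝ) ^ hits P x.1)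
    (fun x _ => by positivity) hW
  rw [hcard] at hmain
  have e1 : ∑ x ∈ A, Real.log ((2 : ℝ) ^ hits P x.1) =
      ∑ M, ∑ _σ ∈ S M, (hits P M : ℝ) * Real.log 2 := by
    rw [hA, Finset.sum_sigma]
    refine Finset.sum_congr rfl (fun M _ => Finset.sum_congr rfl (fun σ _ => ?_))
    rw [Real.log_pow]
  have e2 : Real.log ((Fintype.card (Fin B → Fr K s r) : ℝ) *
      Fintype.card (St (B * s) (K + 1) 1) * Real.exp (∑ β, E β) / a) =
      Real.log ((Fintype.card (Fin B → Fr K s r) : ℝ) * Fintype.card (St (B * s) (K + 1) 1) / a)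
        + ∑ β, E β := by
    rw [mul_div_right_comm, Real.log_mul (by positivity) (Real.exp_pos _).ne', Real.log_exp]
  rw [← e1, ← e2]
  exact hmain

end H4.SL
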