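import Mathlib

/-!
# Row Fa: inner products with linearly independent vectors are uniformly distributed (Mathlib only)

PROOF. `dot_surj`: the matrix `Matrix.of C` (`J × r`) has linearly independent rows, so its rank is `J` (`LinearIndependent.rank_matrix` or
`Matrix.rank`...), hence `Matrix.mulVec (Matrix.of C)` is surjective onto `Fin J → ZMod 2`. (Alternative: if the range of the linear map
`φ : a ↦ (fun i => a ⬝ᵥ C i)` were a proper subspace, there would be a nonzero functional `g` on `Fin J → ZMod 2` vanishing on it, i.e. `g ≠ 0`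
with `∑ i, g i * (a ⬝ᵥ C i) = 0` for all `a`, so `a ⬝ᵥ (∑ i, g i • C i) = 0` for all `a`, `∑ i, g i • C i = 0`, contradiction.)
`fiber_card`: `φ` is an additive surjective homomorphism; all fibres have the same cardinality as the fibre over `0`: if `φ a0 = u` then
`a ↦ a + a0` is a bijection from the fibre over `0` to the fibre over `u`. The fibres partition the `2^r` vectors and there are `2^J` of them
(`Finset.card_eq_sum_card_fiberwise`; `Fintype.card (Fin r → ZMod 2) = 2^r`, `ZMod.card`).
-/

set_option autoImplicit false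

namespace H4.SL

theorem dot_surj {r J : ℕ} {C : Fin J → Fin r → ZMod 2} (hC : LinearIndependent (ZMod 2) C)
    (u : Fin J → ZMod 2) : ∃ a : Fin r → ZMod 2, ∀ i, a ⬝ᵥ C i = u i := by
  have h1 : (Matrix.of C).rank = Fintype.card (Fin J) := by
    apply LinearIndependent.rank_matrix
    exact hC
  have h2 : LinearMap.range (Matrix.of C).mulVecLin = ⊤ := by
    apply Submodule.eq_top_of_finrank_eq
    rw [Module.finrank_fintype_fun_eq_card]
    exact h1
  have h3 : u ∈ LinearMap.range (Matrix.of C).mulVecLin := by rw [h2]; trivial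
  obtain ⟨a, ha⟩ := h3
  refine ⟨a, fun i => ?_⟩
  rw [← ha, Matrix.mulVecLin_apply, dotProduct_comm]
  rfl

theorem fiber_card {r J : ℕ} {C : Fin J → Fin r → ZMod 2} (hC : LinearIndependent (ZMod 2) C)
    (u : Fin J → ZMod 2) :
    (Finset.univ.filter (fun a : Fin r → ZMod 2 => ∀ i, a ⬝ᵥ C i = u i)).card * 2 ^ J = 2 ^ r := by
  classical
  have hsame : ∀ v : Fin J → ZMod 2,
      (Finset.univ.filter (fun a : Fin r → ZMod 2 => ∀ i, a ⬝ᵥ C i = v i)).card =
        (Finset.univ.filter (fun a : Fin r → ZMod 2 => ∀ i, a ⬝ᵥ C i = u i)).card := by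
    intro v
    obtain ⟨a0, ha0⟩ := dot_surj hC (fun i => u i - v i)
    refine Finset.card_bij' (fun a _ => a + a0) (fun a _ => a - a0) ?_ ?_ ?_ ?_
    · intro a ha
      rw [Finset.mem_filter] at ha ⊢
      refine ⟨Finset.mem_univ _, fun i => ?_⟩
      rw [add_dotProduct, ha.2 i, ha0 i]
      ring
    · intro a ha
      rw [Finset.mem_filter] at ha ⊢
      refine ⟨Finset.mem_univ _, fun i => ?_⟩
      rw [sub_dotProduct, ha.2 i, ha0 i]
      ring
    · intro a _
      simp
    · intro a _
      simp
  have h1 := Finset.card_eq_sum_card_fiberwise (s := (Finset.univ : Finset (Fin r → ZMod 2)))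
    (t := (Finset.univ : Finset (Fin J → ZMod 2))) (f := fun a => (fun i => a ⬝ᵥ C i))
    (fun _ _ => Finset.mem_coe.2 (Finset.mem_univ _))
  have h2 : ∀ v ∈ (Finset.univ : Finset (Fin J → ZMod 2)),
      (Finset.univ.filter (fun a : Fin r → ZMod 2 => (fun i => a ⬝ᵥ C i) = v)).card =
        (Finset.univ.filter (fun a : Fin r → ZMod 2 => ∀ i, a ⬝ᵥ C i = u i)).card := by
    intro v _
    rw [← hsame v]
    congr 1
    ext a
    simp only [Finset.mem_filter, Finset.mem_univ, true_and, funext_iff]
  rw [Finset.sum_congr rfl h2, Finset.sum_const, Finset.card_univ, Finset.card_univ, smul_eq_mul] at h1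
  simp only [Fintype.card_pi, ZMod.card, Finset.prod_const, Finset.card_univ, Fintype.card_fin] at h1
  rw [h1, mul_comm]

end H4.SL
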