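import Pool.Agent.H4.SL.Defs
import Pool.Agent.H4.SL.Fa

/-!
# Row Fb: the same for matrices with one prescribed row

PROOF. The set of the `A` is `Fintype.piFinset D` with `D t' = if t' = t then {a} else univ.filter (fun a' => ∀ i, a' ⬝ᵥ C i = u i t')`:
`mv A (C i) = u i` means `A t' ⬝ᵥ C i = u i t'` for all `t'` (`funext_iff`, `mv` unfolds), and for `t' = t` this follows from `A t = a` and `hu`.
`Fintype.card_piFinset`: the cardinality is `∏ t', card (D t')`. Split off the factor `t' = t` (`Finset.mul_prod_erase` or `Fintype.prod_eq_mul_prod_compl`...):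
it is `1`; the other `s - 1` factors `n` satisfy `n * 2^J = 2^r` (`fiber_card`). So `card * (2^J)^(s-1) = (2^r)^(s-1)`
(`Finset.prod_mul_distrib`/`Finset.prod_const` over `univ.erase t`, whose card is `s - 1`); `pow_mul`.
-/

set_option autoImplicit false

namespace H4.SL

theorem fiber_rows {s r J : ℕ} {C : Fin J → Vc r} (hC : LinearIndependent (ZMod 2) C) (t : Fin s)
    (a : Vc r) (u : Fin J → Vc s) (hu : ∀ i, u i t = a ⬝ᵥ C i) :
    (Finset.univ.filter (fun A : Fin s → Vc r => A t = a ∧ ∀ i, mv A (C i) = u i)).card *
      2 ^ (J * (s - 1)) = 2 ^ (r * (s - 1)) := by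
  classical
  let D : Fin s → Finset (Vc r) := fun t' =>
    if t' = t then {a} else Finset.univ.filter (fun a' => ∀ i, a' ⬝ᵥ C i = u i t')
  have hset : Finset.univ.filter (fun A : Fin s → Vc r => A t = a ∧ ∀ i, mv A (C i) = u i) =
      Fintype.piFinset D := by
    ext A
    simp only [Finset.mem_filter, Finset.mem_univ, true_and, Fintype.mem_piFinset]
    constructor
    · rintro ⟨h1, h2⟩ t'
      by_cases h : t' = t
      · subst h
        simp [D, h1]
      · simp only [D, if_neg h, Finset.mem_filter, Finset.mem_univ, true_and]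
        intro i
        exact congrFun (h2 i) t'
    · intro h
      have ht : A t = a := by simpa [D] using h t
      refine ⟨ht, fun i => ?_⟩
      funext t'
      by_cases h' : t' = t
      · subst h'
        show A t' ⬝ᵥ C i = u i t'
        rw [ht, hu i]
      · have h3 := h t'
        simp only [D, if_neg h', Finset.mem_filter, Finset.mem_univ, true_and] at h3
        exact h3 i
  rw [hset, Fintype.card_piFinset, ← Finset.mul_prod_erase _ _ (Finset.mem_univ t)]
  have h1 : (D t).card = 1 := by simp [D]
  have hc : (Finset.univ.erase t).card = s - 1 := by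
    rw [Finset.card_erase_of_mem (Finset.mem_univ _), Finset.card_univ, Fintype.card_fin]
  have h2 : (2 : ℕ) ^ (J * (s - 1)) = ∏ _t' ∈ Finset.univ.erase t, 2 ^ J := by
    rw [Finset.prod_const, hc, ← pow_mul]
  rw [h1, one_mul, h2, ← Finset.prod_mul_distrib]
  rw [Finset.prod_congr rfl (g := fun _ => 2 ^ r) (fun t' ht' => ?_)]
  · rw [Finset.prod_const, hc, ← pow_mul]
  · have hne : t' ≠ t := (Finset.mem_erase.1 ht').1
    simp only [D, if_neg hne]
    exact fiber_card hC (fun i => u i t')

end H4.SL
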