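import Mathlib

/-!
# Row Fc: few tuples are linearly dependent (Mathlib only)

PROOF. If `C : Fin J → (Fin r → ZMod 2)` is linearly dependent there is `g : Fin J → ZMod 2`, `g ≠ 0`, with `∑ i, g i • C i = 0`
(`Fintype.linearIndependent_iff`). So the set is contained in the union over `g ≠ 0` of `D g = {C : ∑ i, g i • C i = 0}`; there are at most `2^J` such `g`.
`card (D g) * 2^r = 2^(r J)`: choose `i0` with `g i0 ≠ 0`, so `g i0 = 1`. All translates are disjoint: the map
`D g × (Fin r → ZMod 2) → (Fin J → (Fin r → ZMod 2))`, `(C, a) ↦ Function.update C i0 (C i0 + a)` is injective: the sum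
`∑ i, g i • C' i` of the image `C'` is `a`, which recovers `a` and then `C`. So `card (D g) * 2^r ≤ 2^(r J)` (this inequality is all we need;
`Finset.card_le_card_of_injOn`, `Fintype.card_fun`, `ZMod.card`). Then `card (union) * 2^r ≤ ∑_g card (D g) * 2^r ≤ 2^J * 2^(r J)`
(`Finset.card_biUnion_le`, `Finset.sum_mul`).
-/

set_option autoImplicit false

namespace H4.SL

open Classical in
theorem dep_card {r J : ℕ} :
    (Finset.univ.filter (fun C : Fin J → Fin r → ZMod 2 => ¬ LinearIndependent (ZMod 2) C)).card * 2 ^ r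
      ≤ 2 ^ J * 2 ^ (r * J) := by
  let D : (Fin J → ZMod 2) → Finset (Fin J → Fin r → ZMod 2) := fun g =>
    Finset.univ.filter (fun C => ∑ i, g i • C i = 0)
  have hD : ∀ g : Fin J → ZMod 2, g ≠ 0 → (D g).card * 2 ^ r ≤ 2 ^ (r * J) := by
    intro g hg
    obtain ⟨i0, hi0⟩ := Function.ne_iff.1 hg
    have hi1 : g i0 = 1 := by
      have h01 : ∀ a : ZMod 2, a ≠ 0 → a = 1 := by decide
      exact h01 _ hi0
    have key : ∀ (C : Fin J → Fin r → ZMod 2), C ∈ D g → ∀ a : Fin r → ZMod 2,
        ∑ i, g i • (Function.update C i0 (C i0 + a)) i = a := by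
      intro C hC a
      have hC0 : ∑ i, g i • C i = 0 := (Finset.mem_filter.1 hC).2
      have e : ∀ i, g i • (Function.update C i0 (C i0 + a)) i =
          g i • C i + (if i = i0 then a else 0) := by
        intro i
        by_cases h : i = i0
        · subst h
          simp [hi1]
        · simp [Function.update_of_ne h, h]
      rw [Finset.sum_congr rfl (fun i _ => e i), Finset.sum_add_distrib, hC0]
      simp
    have hinj : Set.InjOn (fun p : (Fin J → Fin r → ZMod 2) × (Fin r → ZMod 2) =>
        Function.update p.1 i0 (p.1 i0 + p.2)) ((D g ×ˢ (Finset.univ : Finset (Fin r → ZMod 2)) :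
          Finset _) : Set _) := by
      rintro ⟨C, a⟩ h1 ⟨C', a'⟩ h2 h
      simp only [Finset.coe_product, Set.mem_prod, Finset.mem_coe] at h1 h2
      simp only at h
      have ha : a = a' := by
        rw [← key C h1.1 a, ← key C' h2.1 a', h]
      subst ha
      have hC : C = C' := by
        funext i
        by_cases hi : i = i0
        · subst hi
          have := congrFun h i
          simpa using this
        · have := congrFun h i
          simpa [Function.update_of_ne hi] using this
      rw [hC]
    have h3 := Finset.card_le_card_of_injOn (t := (Finset.univ : Finset (Fin J → Fin r → ZMod 2)))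
      _ (fun _ _ => Finset.mem_coe.2 (Finset.mem_univ _)) hinj
    rw [Finset.card_product, Finset.card_univ, Finset.card_univ] at h3
    simpa [Fintype.card_fun, ZMod.card, pow_mul] using h3
  have hsub : Finset.univ.filter (fun C : Fin J → Fin r → ZMod 2 => ¬ LinearIndependent (ZMod 2) C) ⊆
      (Finset.univ.filter (fun g : Fin J → ZMod 2 => g ≠ 0)).biUnion D := by
    intro C hC
    have hC := (Finset.mem_filter.1 hC).2
    rw [Fintype.linearIndependent_iff] at hC
    push Not at hC
    obtain ⟨g, hg, i, hi⟩ := hC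
    refine Finset.mem_biUnion.2 ⟨g, Finset.mem_filter.2 ⟨Finset.mem_univ _, ?_⟩,
      Finset.mem_filter.2 ⟨Finset.mem_univ _, hg⟩⟩
    intro h0
    exact hi (by rw [h0]; rfl)
  calc (Finset.univ.filter (fun C : Fin J → Fin r → ZMod 2 => ¬ LinearIndependent (ZMod 2) C)).card * 2 ^ r
      ≤ ((Finset.univ.filter (fun g : Fin J → ZMod 2 => g ≠ 0)).biUnion D).card * 2 ^ r :=
        Nat.mul_le_mul_right _ (Finset.card_le_card hsub)
    _ ≤ (∑ g ∈ Finset.univ.filter (fun g : Fin J → ZMod 2 => g ≠ 0), (D g).card) * 2 ^ r :=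
        Nat.mul_le_mul_right _ Finset.card_biUnion_le
    _ = ∑ g ∈ Finset.univ.filter (fun g : Fin J → ZMod 2 => g ≠ 0), (D g).card * 2 ^ r := by
        rw [Finset.sum_mul]
    _ ≤ ∑ g ∈ Finset.univ.filter (fun g : Fin J → ZMod 2 => g ≠ 0), 2 ^ (r * J) :=
        Finset.sum_le_sum fun g hg => hD g (Finset.mem_filter.1 hg).2
    _ = (Finset.univ.filter (fun g : Fin J → ZMod 2 => g ≠ 0)).card * 2 ^ (r * J) := by
        rw [Finset.sum_const, smul_eq_mul]
    _ ≤ 2 ^ J * 2 ^ (r * J) := by
        refine Nat.mul_le_mul_right _ ?_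
        refine (Finset.card_filter_le _ _).trans ?_
        rw [Finset.card_univ]
        simp [Fintype.card_fun, ZMod.card]

end H4.SL
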