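import Pool.Agent.H4.SL.Defs
import Pool.Agent.H4.SL.Fa

/-!
# Row Fd: the numbers `nn P x c`

PROOF. `sum_nn`: the map `(c, b) ↦ Fin.cons x (fun q => (b q, c q))` is a bijection from the pairs counted on the left to the `z ∈ P` with
`z 0 = x`; inverse `z ↦ (fun q => (z q.succ).2, fun q => (z q.succ).1)`. (`Finset.card_sigma`/`Finset.card_bij'` or
`Finset.card_nbij'`; `Fin.cons_self_tail` or `funext` with `Fin.cases`.)
`nn_le`: if `(x, (b, c)) ∈ P` then for every `q`: `ip x (b q, c q) = 1`, i.e. `b q ⬝ᵥ x.1 = 1 - x.2 ⬝ᵥ c q` (`dotProduct_comm`). So the set of the `b` is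
contained in `Fintype.piFinset (fun q => univ.filter (fun b' => ∀ _ : Fin 1, b' ⬝ᵥ x.1 = 1 - x.2 ⬝ᵥ c q))`, whose factors have cardinality `n` with
`n * 2^1 = 2^s` by `fiber_card` with `J = 1`, `C = fun _ => x.1` (linearly independent since `x.1 ≠ 0`:
`linearIndependent_unique_iff` / `LinearIndependent.of_subsingleton`), so `n = 2^(s-1)` (`s ≥ 1` because `x.1 ≠ 0`). Card: `(2^(s-1))^K`.
-/

set_option autoImplicit false

namespace H4.SL

variable {K s r : ℕ}

theorem sum_nn (P : Finset (Fin (K + 1) → Ix s r)) (x : Ix s r) :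
    ∑ c : Fin K → Vc r, nn P x c = (P.filter (fun z => z 0 = x)).card := by
  have h1 := Finset.card_eq_sum_card_fiberwise (s := P.filter (fun z => z 0 = x))
    (t := (Finset.univ : Finset (Fin K → Vc r))) (f := fun z => (fun q => (z q.succ).2))
    (fun _ _ => Finset.mem_coe.2 (Finset.mem_univ _))
  rw [h1]
  refine Finset.sum_congr rfl (fun c _ => ?_)
  unfold nn
  refine Finset.card_bij' (fun b _ => (Fin.cons x (fun q => (b q, c q)) : Fin (K + 1) → Ix s r))
    (fun z _ => fun q => (z q.succ).1) ?_ ?_ ?_ ?_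
  · intro b hb
    rw [Finset.mem_filter] at hb
    rw [Finset.mem_filter, Finset.mem_filter]
    refine ⟨⟨hb.2, ?_⟩, ?_⟩
    · rw [Fin.cons_zero]
    · funext q
      rw [Fin.cons_succ]
  · intro z hz
    rw [Finset.mem_filter, Finset.mem_filter] at hz
    rw [Finset.mem_filter]
    refine ⟨Finset.mem_univ _, ?_⟩
    have h2 : (Fin.cons x (fun q => ((z q.succ).1, c q)) : Fin (K + 1) → Ix s r) = z := by
      funext q
      refine Fin.cases ?_ (fun q => ?_) q
      · rw [Fin.cons_zero, hz.1.2]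
      · rw [Fin.cons_succ, ← congrFun hz.2 q]
    rw [h2]
    exact hz.1.1
  · intro b _
    funext q
    simp only [Fin.cons_succ]
  · intro z hz
    rw [Finset.mem_filter, Finset.mem_filter] at hz
    funext q
    refine Fin.cases ?_ (fun q => ?_) q
    · rw [Fin.cons_zero, hz.1.2]
    · rw [Fin.cons_succ, ← congrFun hz.2 q]

theorem nn_le {P : Finset (Fin (K + 1) → Ix s r)} (hP : ∀ z ∈ P, Adm z) {x : Ix s r} (hx : x.1 ≠ 0)
    (c : Fin K → Vc r) : nn P x c ≤ 2 ^ ((s - 1) * K) := by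
  classical
  have hli : LinearIndependent (ZMod 2) (fun _ : Fin 1 => x.1) := by
    rw [linearIndependent_unique_iff]
    exact hx
  have hs : 1 ≤ s := by
    rcases Nat.eq_zero_or_pos s with h0 | h0
    · subst h0
      exact absurd (Subsingleton.elim _ _) hx
    · exact h0
  have hcard : ∀ q : Fin K, (Finset.univ.filter (fun b' : Vc s =>
      ∀ _ : Fin 1, b' ⬝ᵥ x.1 = 1 - x.2 ⬝ᵥ c q)).card = 2 ^ (s - 1) := by
    intro q
    have h1 := fiber_card hli (fun _ => 1 - x.2 ⬝ᵥ c q)
    have h2 : (2 : ℕ) ^ s = 2 ^ (s - 1) * 2 ^ 1 := by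
      rw [← pow_add]
      congr 1
      omega
    rw [h2] at h1
    exact Nat.eq_of_mul_eq_mul_right (by norm_num) h1
  have hsub : (Finset.univ.filter (fun b : Fin K → Vc s =>
      (Fin.cons x (fun q => (b q, c q)) : Fin (K + 1) → Ix s r) ∈ P)) ⊆
      Fintype.piFinset (fun q : Fin K => Finset.univ.filter (fun b' : Vc s =>
        ∀ _ : Fin 1, b' ⬝ᵥ x.1 = 1 - x.2 ⬝ᵥ c q)) := by
    intro b hb
    rw [Finset.mem_filter] at hb
    rw [Fintype.mem_piFinset]
    intro q
    rw [Finset.mem_filter]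
    refine ⟨Finset.mem_univ _, fun _ => ?_⟩
    have h3 := hP _ hb.2 q
    rw [Fin.cons_zero, Fin.cons_succ] at h3
    unfold ip at h3
    rw [dotProduct_comm (b q) x.1, eq_sub_iff_add_eq]
    exact h3
  unfold nn
  refine (Finset.card_le_card hsub).trans ?_
  rw [Fintype.card_piFinset, Finset.prod_congr rfl (fun q _ => hcard q), Finset.prod_const,
    Finset.card_univ, Fintype.card_fin, ← pow_mul]

end H4.SL
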