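import Pool.Agent.H4.SL.Ea
import Pool.Agent.H4.SL.Fb

/-!
# Row Fe: counting the matrices for one and for two edges

Fix `ρ, t, a`, `x = (ρ_t, a)`.
PROOF. `count1`. Map `A ↦ b`, `b q = ρ⁻¹ (e_t - A c_q)`; if `A t = a` then `ed ρ A c t = Fin.cons x (fun q => (b q, c q))` (`ed` unfolds). So the set
`{A : A t = a ∧ ed ρ A c t ∈ P}` is the disjoint union over the `b` counted by `nn P x c` of `{A : A t = a ∧ ∀ q, ρ⁻¹ (e_t - mv A (c q)) = b q}`
(`Finset.card_eq_sum_card_fiberwise` with `f A = fun q => ..`). For such `b` the condition is `mv A (c q) = u q := e_t - ρ (b q)`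
(apply `ρ`, resp. `ρ⁻¹`; `mulVec_inv` and its mirror `ρ⁻¹ (ρ b) = b`), and `u q t = 1 - ρ_t ⬝ᵥ b q = a ⬝ᵥ c q` because the clause `(x, (b, c)) ∈ P` is
admissible: `ρ_t ⬝ᵥ b q + a ⬝ᵥ c q = 1` (`Matrix.mulVec` at `t` is `ρ_t ⬝ᵥ b q`). So `fiber_rows` (with `J = K`, `C = c`) gives
`card * 2^(K (s-1)) = 2^(r (s-1))` for each of the `nn P x c` fibres.
`count2`: the same with the pairs `(b, b')`; the conditions are `mv A (c q) = e_t - ρ (b q)` and `mv A (c' q) = e_t - ρ (b' q)`, i.e.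
`mv A (Fin.append c c' i) = Fin.append u u' i` for `i : Fin (K + K)` (`Fin.addCases`, `Fin.append_left`, `Fin.append_right`), so `fiber_rows` with
`J = K + K`. (The two proofs can be unified: first prove a lemma for a single fibre with an arbitrary index.)
-/

set_option autoImplicit false

namespace H4.SL

variable {K s r : ℕ}

/-- the mirror of `mulVec_inv` -/
private lemma Fe_inv_mulVec (ρ : (Mt s)ˣ) (u : Vc s) :
    Matrix.mulVec (ρ⁻¹).val (Matrix.mulVec ρ.val u) = u := by
  have h := mulVec_inv (ρ⁻¹) u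
  rw [inv_inv] at h
  exact h

/-- the matrices with one prescribed row and with the vectors `b` in a set -/
private lemma Fe_count {J : ℕ} (ρ : (Mt s)ˣ) (t : Fin s) (a : Vc r) {C : Fin J → Vc r}
    (hC : LinearIndependent (ZMod 2) C) (S : Finset (Fin J → Vc s))
    (hS : ∀ b ∈ S, ∀ i, ρ.val t ⬝ᵥ b i + a ⬝ᵥ C i = 1)
    (T : Finset (Fin s → Vc r))
    (hT : ∀ A, A ∈ T ↔ A t = a ∧
      (fun i => Matrix.mulVec (ρ⁻¹).val (Pi.single t 1 - mv A (C i))) ∈ S) :
    T.card * 2 ^ (J * (s - 1)) = 2 ^ (r * (s - 1)) * S.card := by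
  classical
  have h1 : T.card = ∑ b ∈ S, (T.filter (fun A =>
      (fun i => Matrix.mulVec (ρ⁻¹).val (Pi.single t 1 - mv A (C i))) = b)).card := by
    apply Finset.card_eq_sum_card_fiberwise
    intro A hA
    exact ((hT A).1 hA).2
  rw [h1, Finset.sum_mul]
  have h2 : ∀ b ∈ S, (T.filter (fun A =>
      (fun i => Matrix.mulVec (ρ⁻¹).val (Pi.single t 1 - mv A (C i))) = b)).card *
        2 ^ (J * (s - 1)) = 2 ^ (r * (s - 1)) := by
    intro b hb
    rw [← fiber_rows hC t a (fun i => Pi.single t 1 - Matrix.mulVec ρ.val (b i)) (by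
      intro i
      have h3 := hS b hb i
      have h4 : (Matrix.mulVec ρ.val (b i)) t = ρ.val t ⬝ᵥ b i := rfl
      rw [Pi.sub_apply, Pi.single_eq_same, h4, ← h3]
      ring)]
    congr 2
    ext A
    rw [Finset.mem_filter, Finset.mem_filter, hT]
    constructor
    · rintro ⟨⟨hA, -⟩, hAb⟩
      refine ⟨Finset.mem_univ _, hA, fun i => ?_⟩
      have h5 := congrFun hAb i
      beta_reduce at h5
      rw [← h5, mulVec_inv]
      exact (sub_sub_cancel _ _).symm
    · rintro ⟨-, hA, hAi⟩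
      have h6 : (fun i => Matrix.mulVec (ρ⁻¹).val (Pi.single t 1 - mv A (C i))) = b := by
        funext i
        rw [hAi i, sub_sub_cancel, Fe_inv_mulVec]
      refine ⟨⟨hA, ?_⟩, h6⟩
      rw [h6]
      exact hb
  rw [Finset.sum_congr rfl h2, Finset.sum_const, smul_eq_mul, mul_comm]

/-- an edge whose matrix has the row `a` -/
private lemma Fe_ed (ρ : (Mt s)ˣ) (A : Fin s → Vc r) (c : Fin K → Vc r) (t : Fin s) (a : Vc r)
    (h : A t = a) : ed ρ A c t = Fin.cons (ρ.val t, a) (fun q =>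
      (Matrix.mulVec (ρ⁻¹).val (Pi.single t 1 - mv A (c q)), c q)) := by
  unfold ed
  rw [h]

private lemma Fe_adm {P : Finset (Fin (K + 1) → Ix s r)} (hP : ∀ z ∈ P, Adm z) (ρ : (Mt s)ˣ)
    (t : Fin s) (a : Vc r) (c : Fin K → Vc r) (b : Fin K → Vc s)
    (hb : (Fin.cons (ρ.val t, a) (fun q => (b q, c q)) : Fin (K + 1) → Ix s r) ∈ P) (i : Fin K) :
    ρ.val t ⬝ᵥ b i + a ⬝ᵥ c i = 1 := by
  have h := hP _ hb i
  unfold ip at h
  rw [Fin.cons_zero, Fin.cons_succ] at h
  exact h

theorem count1 {P : Finset (Fin (K + 1) → Ix s r)} (hP : ∀ z ∈ P, Adm z) (ρ : (Mt s)ˣ) (t : Fin s)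
    (a : Vc r) {c : Fin K → Vc r} (hc : LinearIndependent (ZMod 2) c) :
    (Finset.univ.filter (fun A : Fin s → Vc r => A t = a ∧ ed ρ A c t ∈ P)).card * 2 ^ (K * (s - 1)) =
      2 ^ (r * (s - 1)) * nn P (ρ.val t, a) c := by
  unfold nn
  apply Fe_count ρ t a hc
  · intro b hb i
    exact Fe_adm hP ρ t a c b (Finset.mem_filter.1 hb).2 i
  · intro A
    rw [Finset.mem_filter, Finset.mem_filter]
    constructor
    · rintro ⟨-, hA, hAP⟩
      rw [Fe_ed ρ A c t a hA] at hAP
      exact ⟨hA, Finset.mem_univ _, hAP⟩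
    · rintro ⟨hA, -, hAP⟩
      refine ⟨Finset.mem_univ _, hA, ?_⟩
      rw [Fe_ed ρ A c t a hA]
      exact hAP

theorem count2 {P : Finset (Fin (K + 1) → Ix s r)} (hP : ∀ z ∈ P, Adm z) (ρ : (Mt s)ˣ) (t : Fin s)
    (a : Vc r) {c c' : Fin K → Vc r} (hc : LinearIndependent (ZMod 2) (Fin.append c c')) :
    (Finset.univ.filter (fun A : Fin s → Vc r => A t = a ∧ ed ρ A c t ∈ P ∧ ed ρ A c' t ∈ P)).card *
        2 ^ ((K + K) * (s - 1)) =
      2 ^ (r * (s - 1)) * (nn P (ρ.val t, a) c * nn P (ρ.val t, a) c') := by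
  obtain ⟨S, hS⟩ : ∃ S : Finset (Fin (K + K) → Vc s), ∀ b, b ∈ S ↔
      (Fin.cons (ρ.val t, a) (fun q => (b (Fin.castAdd K q), c q)) : Fin (K + 1) → Ix s r) ∈ P ∧
      (Fin.cons (ρ.val t, a) (fun q => (b (Fin.natAdd K q), c' q)) : Fin (K + 1) → Ix s r) ∈ P :=
    ⟨Finset.univ.filter (fun b =>
      (Fin.cons (ρ.val t, a) (fun q => (b (Fin.castAdd K q), c q)) : Fin (K + 1) → Ix s r) ∈ P ∧
      (Fin.cons (ρ.val t, a) (fun q => (b (Fin.natAdd K q), c' q)) : Fin (K + 1) → Ix s r) ∈ P),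
      fun b => by
        rw [Finset.mem_filter]
        exact ⟨fun h => h.2, fun h => ⟨Finset.mem_univ _, h⟩⟩⟩
  have hcard : nn P (ρ.val t, a) c * nn P (ρ.val t, a) c' = S.card := by
    unfold nn
    rw [← Finset.card_product]
    refine Finset.card_nbij' (fun p => Fin.append p.1 p.2)
      (fun b => ((fun q => b (Fin.castAdd K q)), (fun q => b (Fin.natAdd K q)))) ?_ ?_ ?_ ?_
    · intro p hp
      rw [Finset.mem_coe, Finset.mem_product, Finset.mem_filter, Finset.mem_filter] at hp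
      rw [Finset.mem_coe, hS]
      constructor
      · have h : (fun q => ((Fin.append p.1 p.2) (Fin.castAdd K q), c q)) =
            (fun q => (p.1 q, c q)) := by
          funext q
          rw [Fin.append_left]
        rw [h]
        exact hp.1.2
      · have h : (fun q => ((Fin.append p.1 p.2) (Fin.natAdd K q), c' q)) =
            (fun q => (p.2 q, c' q)) := by
          funext q
          rw [Fin.append_right]
        rw [h]
        exact hp.2.2
    · intro b hb
      rw [Finset.mem_coe, hS] at hb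
      rw [Finset.mem_coe, Finset.mem_product, Finset.mem_filter, Finset.mem_filter]
      exact ⟨⟨Finset.mem_univ _, hb.1⟩, ⟨Finset.mem_univ _, hb.2⟩⟩
    · intro p _
      refine Prod.ext ?_ ?_
      · funext q
        exact Fin.append_left _ _ _
      · funext q
        exact Fin.append_right _ _ _
    · intro b _
      exact Fin.append_castAdd_natAdd
  rw [hcard]
  apply Fe_count ρ t a hc
  · intro b hb
    rw [hS] at hb
    refine Fin.addCases (fun i => ?_) (fun i => ?_)
    · rw [Fin.append_left]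
      exact Fe_adm hP ρ t a c _ hb.1 i
    · rw [Fin.append_right]
      exact Fe_adm hP ρ t a c' _ hb.2 i
  · intro A
    rw [Finset.mem_filter, hS]
    have e1 : (fun q => (Matrix.mulVec (ρ⁻¹).val
        (Pi.single t 1 - mv A ((Fin.append c c') (Fin.castAdd K q))), c q)) =
        (fun q => (Matrix.mulVec (ρ⁻¹).val (Pi.single t 1 - mv A (c q)), c q)) := by
      funext q
      rw [Fin.append_left]
    have e2 : (fun q => (Matrix.mulVec (ρ⁻¹).val
        (Pi.single t 1 - mv A ((Fin.append c c') (Fin.natAdd K q))), c' q)) =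
        (fun q => (Matrix.mulVec (ρ⁻¹).val (Pi.single t 1 - mv A (c' q)), c' q)) := by
      funext q
      rw [Fin.append_right]
    constructor
    · rintro ⟨-, hA, hAP, hAP'⟩
      rw [Fe_ed ρ A c t a hA] at hAP
      rw [Fe_ed ρ A c' t a hA] at hAP'
      refine ⟨hA, ?_, ?_⟩
      · rw [e1]
        exact hAP
      · rw [e2]
        exact hAP'
    · rintro ⟨hA, hAP, hAP'⟩
      refine ⟨Finset.mem_univ _, hA, ?_, ?_⟩
      · rw [Fe_ed ρ A c t a hA]
        rw [e1] at hAP
        exact hAP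
      · rw [Fe_ed ρ A c' t a hA]
        rw [e2] at hAP'
        exact hAP'

end H4.SL
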