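import Pool.Agent.H4.SL.Fc
import Pool.Agent.H4.SL.Fd
import Pool.Agent.H4.SL.Fe

/-!
# Row Ff: first and second moment of `pr` for a fixed row `A t = a`

Put `x = (ρ_t, a)`, `U = univ.filter (A t = a)`, `N1 = 2^(r (s-1))`, `h = 2^((s-1) K)`, `R = 2^(r K)`; `lam P x = n / (h R)` with
`n = card (P.filter (z 0 = x)) = ∑ c, nn P x c` (`(s + r - 1) K = (s - 1) K + r K` because `s ≥ 1`).
PROOF. `mom1`: `∑_(A ∈ U) pr = (1/R) ∑_c card {A ∈ U : ed ρ A c t ∈ P}` (exchange the sums: `Finset.card_filter`, `Finset.sum_comm`)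
`≥ (1/R) ∑_(c indep) N1 nn P x c / h` (`count1`) `= (N1/(R h)) (n - ∑_(c dep) nn P x c) ≥ (N1/(R h)) (n - h card{c dep})` (`nn_le`; the row `ρ_t` is nonzero:
`ρ` is invertible, if `ρ.val t = 0` then `1 = (ρ (ρ⁻¹ e_t)) t = ρ_t ⬝ᵥ (..) = 0`) `≥ N1 (lam - 2^K / 2^r)` by `dep_card` with `J = K`
(`card{c dep} 2^r ≤ 2^K 2^(r K)`).
`mom2`: `∑_(A ∈ U) pr^2 = (1/R^2) ∑_(c, c') card {A ∈ U : ed ρ A c t ∈ P ∧ ed ρ A c' t ∈ P}`. For `Fin.append c c'` independent the cardinality is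
`N1 nn(c) nn(c') / h^2` (`count2`; `2^((K+K)(s-1)) = h^2`), for the others it is `≤ card U = N1` (`U` is the set of the `A` with prescribed row `t`; e.g.
`fiber_rows` with `J = 0`, or `≤`: `Fintype.card_piFinset`). The number of the other pairs times `2^r` is `≤ 2^(2K) 2^(2 r K)` (`dep_card` with `J = K + K`;
`(c, c') ↦ Fin.append c c'` is injective). So the sum is `≤ N1 ((1/(R h))^2 (∑_c nn)(∑_c' nn) + 2^(2K)/2^r)`.
-/

set_option autoImplicit false

namespace H4.SL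

variable {K s r : ℕ}

theorem row_ne_zero (ρ : (Mt s)ˣ) (t : Fin s) : ρ.val t ≠ 0 := by
  intro h
  have h1 := congrFun (mulVec_inv ρ (Pi.single t 1)) t
  have h2 : Matrix.mulVec ρ.val (Matrix.mulVec (ρ⁻¹).val (Pi.single t 1)) t =
      ρ.val t ⬝ᵥ (Matrix.mulVec (ρ⁻¹).val (Pi.single t 1)) := rfl
  rw [h2, h, zero_dotProduct, Pi.single_eq_same] at h1
  exact zero_ne_one h1

open Classical in
private lemma Ff_pr (P : Finset (Fin (K + 1) → Ix s r)) (ρ : (Mt s)ˣ) (A : Fin s → Vc r) (t : Fin s) :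
    pr P ρ A t = (∑ c : Fin K → Vc r, if ed ρ A c t ∈ P then (1 : ℝ) else 0) / 2 ^ (r * K) := by
  unfold pr
  rw [Finset.sum_boole]

private lemma Ff_pow (hs : 1 ≤ s) :
    (2 : ℝ) ^ ((s + r - 1) * K) = 2 ^ ((s - 1) * K) * 2 ^ (r * K) := by
  rw [← pow_add]
  congr 1
  rw [← Nat.add_mul]
  congr 1
  omega

private lemma Ff_lam (hs : 1 ≤ s) (P : Finset (Fin (K + 1) → Ix s r)) (x : Ix s r) :
    lam P x = (∑ c : Fin K → Vc r, (nn P x c : ℝ)) / (2 ^ ((s - 1) * K) * 2 ^ (r * K)) := by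
  unfold lam
  rw [← Ff_pow hs, ← sum_nn, Nat.cast_sum]

private lemma Ff_cardU (t : Fin s) (a : Vc r) :
    (Finset.univ.filter (fun A : Fin s → Vc r => A t = a)).card = 2 ^ (r * (s - 1)) := by
  have h := fiber_rows (s := s) (r := r) (J := 0) (C := fun i => i.elim0)
    (linearIndependent_empty_type) t a (fun i => i.elim0) (fun i => i.elim0)
  rw [Nat.zero_mul, pow_zero, mul_one] at h
  rw [← h]
  congr 1
  ext A
  simp only [Finset.mem_filter, Finset.mem_univ, true_and]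
  exact ⟨fun h1 => ⟨h1, fun i => i.elim0⟩, fun h1 => h1.1⟩

theorem mom1 (hs : 1 ≤ s) {P : Finset (Fin (K + 1) → Ix s r)} (hP : ∀ z ∈ P, Adm z) (ρ : (Mt s)ˣ)
    (t : Fin s) (a : Vc r) :
    (2 : ℝ) ^ (r * (s - 1)) * (lam P (ρ.val t, a) - 2 ^ K / 2 ^ r) ≤
      ∑ A ∈ Finset.univ.filter (fun A : Fin s → Vc r => A t = a), pr P ρ A t := by
  classical
  obtain ⟨N1, hN1⟩ : ∃ N1 : ℝ, N1 = (2 : ℝ) ^ (r * (s - 1)) := ⟨_, rfl⟩
  obtain ⟨h, hh⟩ : ∃ h : ℝ, h = (2 : ℝ) ^ ((s - 1) * K) := ⟨_, rfl⟩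
  obtain ⟨R, hR⟩ : ∃ R : ℝ, R = (2 : ℝ) ^ (r * K) := ⟨_, rfl⟩
  have hN1p : 0 < N1 := by rw [hN1]; positivity
  have hhp : 0 < h := by rw [hh]; positivity
  have hRp : 0 < R := by rw [hR]; positivity
  have hsum : ∑ A ∈ Finset.univ.filter (fun A : Fin s → Vc r => A t = a), pr P ρ A t =
      (∑ c : Fin K → Vc r, ((Finset.univ.filter (fun A : Fin s → Vc r =>
        A t = a ∧ ed ρ A c t ∈ P)).card : ℝ)) / R := by
    rw [Finset.sum_congr rfl (fun A _ => Ff_pr P ρ A t), ← Finset.sum_div, Finset.sum_comm, hR]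
    congr 1
    refine Finset.sum_congr rfl fun c _ => ?_
    rw [Finset.sum_boole, Finset.filter_filter]
  have hc : ∀ c : Fin K → Vc r, N1 * ((nn P (ρ.val t, a) c : ℝ) / h -
      (if ¬ LinearIndependent (ZMod 2) c then 1 else 0)) ≤
        ((Finset.univ.filter (fun A : Fin s → Vc r => A t = a ∧ ed ρ A c t ∈ P)).card : ℝ) := by
    intro c
    by_cases hi : LinearIndependent (ZMod 2) c
    · rw [if_neg (not_not.2 hi), sub_zero]
      have h1 := count1 hP ρ t a hi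
      have h2 : ((Finset.univ.filter (fun A : Fin s → Vc r =>
          A t = a ∧ ed ρ A c t ∈ P)).card : ℝ) * h = N1 * (nn P (ρ.val t, a) c : ℝ) := by
        rw [hh, hN1, mul_comm (s - 1) K]
        exact_mod_cast h1
      rw [← mul_div_assoc, div_le_iff₀ hhp, h2]
    · rw [if_pos hi]
      have h1 : (nn P (ρ.val t, a) c : ℝ) ≤ h := by
        have h3 := nn_le hP (x := (ρ.val t, a)) (row_ne_zero ρ t) c
        rw [hh]
        exact_mod_cast h3
      have h2 : (nn P (ρ.val t, a) c : ℝ) / h ≤ 1 := by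
        rw [div_le_one hhp]
        exact h1
      have h3 : N1 * ((nn P (ρ.val t, a) c : ℝ) / h - 1) ≤ 0 :=
        mul_nonpos_of_nonneg_of_nonpos hN1p.le (by linarith)
      exact h3.trans (Nat.cast_nonneg _)
  have hdep : (((Finset.univ.filter (fun C : Fin K → Vc r =>
      ¬ LinearIndependent (ZMod 2) C)).card : ℕ) : ℝ) / R ≤ 2 ^ K / 2 ^ r := by
    rw [div_le_div_iff₀ hRp (by positivity), hR]
    exact_mod_cast dep_card (r := r) (J := K)
  rw [hsum, Ff_lam hs, ← hN1, ← hh, ← hR]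
  have hS := Finset.sum_le_sum (fun c (_ : c ∈ (Finset.univ : Finset (Fin K → Vc r))) => hc c)
  rw [← Finset.mul_sum, Finset.sum_sub_distrib, ← Finset.sum_div, Finset.sum_boole] at hS
  rw [le_div_iff₀ hRp]
  refine le_trans ?_ hS
  rw [mul_assoc]
  refine mul_le_mul_of_nonneg_left ?_ hN1p.le
  rw [sub_mul]
  have e1 : (∑ c : Fin K → Vc r, (nn P (ρ.val t, a) c : ℝ)) / (h * R) * R =
      (∑ c : Fin K → Vc r, (nn P (ρ.val t, a) c : ℝ)) / h := by
    field_simp
  rw [e1]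
  rw [div_le_iff₀ hRp] at hdep
  linarith

theorem mom2 (hs : 1 ≤ s) {P : Finset (Fin (K + 1) → Ix s r)} (hP : ∀ z ∈ P, Adm z) (ρ : (Mt s)ˣ)
    (t : Fin s) (a : Vc r) :
    ∑ A ∈ Finset.univ.filter (fun A : Fin s → Vc r => A t = a), pr P ρ A t ^ 2 ≤
      (2 : ℝ) ^ (r * (s - 1)) * (lam P (ρ.val t, a) ^ 2 + 2 ^ (2 * K) / 2 ^ r) := by
  classical
  obtain ⟨N1, hN1⟩ : ∃ N1 : ℝ, N1 = (2 : ℝ) ^ (r * (s - 1)) := ⟨_, rfl⟩
  obtain ⟨h, hh⟩ : ∃ h : ℝ, h = (2 : ℝ) ^ ((s - 1) * K) := ⟨_, rfl⟩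
  obtain ⟨R, hR⟩ : ∃ R : ℝ, R = (2 : ℝ) ^ (r * K) := ⟨_, rfl⟩
  have hN1p : 0 < N1 := by rw [hN1]; positivity
  have hhp : 0 < h := by rw [hh]; positivity
  have hRp : 0 < R := by rw [hR]; positivity
  have hsum : ∑ A ∈ Finset.univ.filter (fun A : Fin s → Vc r => A t = a), pr P ρ A t ^ 2 =
      (∑ c : Fin K → Vc r, ∑ c' : Fin K → Vc r, ((Finset.univ.filter (fun A : Fin s → Vc r =>
        A t = a ∧ ed ρ A c t ∈ P ∧ ed ρ A c' t ∈ P)).card : ℝ)) / R ^ 2 := by
    have e0 : ∀ A : Fin s → Vc r, pr P ρ A t ^ 2 = (∑ c : Fin K → Vc r, ∑ c' : Fin K → Vc r,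
        if ed ρ A c t ∈ P ∧ ed ρ A c' t ∈ P then (1 : ℝ) else 0) / R ^ 2 := by
      intro A
      rw [Ff_pr, div_pow, ← hR, sq (∑ c : Fin K → Vc r, _), Finset.sum_mul_sum]
      congr 1
      refine Finset.sum_congr rfl fun c _ => Finset.sum_congr rfl fun c' _ => ?_
      by_cases h1 : ed ρ A c t ∈ P <;> by_cases h2 : ed ρ A c' t ∈ P <;> simp [h1, h2]
    rw [Finset.sum_congr rfl (fun A _ => e0 A), ← Finset.sum_div, Finset.sum_comm]
    congr 1
    refine Finset.sum_congr rfl fun c _ => ?_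
    rw [Finset.sum_comm]
    refine Finset.sum_congr rfl fun c' _ => ?_
    rw [Finset.sum_boole, Finset.filter_filter]
  have hc : ∀ c c' : Fin K → Vc r,
      ((Finset.univ.filter (fun A : Fin s → Vc r =>
        A t = a ∧ ed ρ A c t ∈ P ∧ ed ρ A c' t ∈ P)).card : ℝ) ≤
      N1 * ((nn P (ρ.val t, a) c : ℝ) / h * ((nn P (ρ.val t, a) c' : ℝ) / h) +
      (if ¬ LinearIndependent (ZMod 2) (Fin.append c c') then 1 else 0)) := by
    intro c c'
    by_cases hi : LinearIndependent (ZMod 2) (Fin.append c c')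
    · rw [if_neg (not_not.2 hi), add_zero]
      have h1 := count2 hP ρ t a hi
      have h2 : ((Finset.univ.filter (fun A : Fin s → Vc r =>
          A t = a ∧ ed ρ A c t ∈ P ∧ ed ρ A c' t ∈ P)).card : ℝ) * (h * h) =
            N1 * ((nn P (ρ.val t, a) c : ℝ) * (nn P (ρ.val t, a) c' : ℝ)) := by
        rw [hh, hN1, ← pow_add, ← Nat.mul_add, mul_comm (s - 1) (K + K)]
        exact_mod_cast h1
      have h3 : N1 * ((nn P (ρ.val t, a) c : ℝ) / h * ((nn P (ρ.val t, a) c' : ℝ) / h)) =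
          N1 * ((nn P (ρ.val t, a) c : ℝ) * (nn P (ρ.val t, a) c' : ℝ)) / (h * h) := by
        field_simp
      rw [h3, le_div_iff₀ (by positivity), h2]
    · rw [if_pos hi]
      have h1 : ((Finset.univ.filter (fun A : Fin s → Vc r =>
          A t = a ∧ ed ρ A c t ∈ P ∧ ed ρ A c' t ∈ P)).card : ℝ) ≤ N1 := by
        have h3 : (Finset.univ.filter (fun A : Fin s → Vc r =>
          A t = a ∧ ed ρ A c t ∈ P ∧ ed ρ A c' t ∈ P)).card ≤ 2 ^ (r * (s - 1)) := by
          rw [← Ff_cardU t a]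
          refine Finset.card_le_card fun A hA => ?_
          rw [Finset.mem_filter] at hA ⊢
          exact ⟨hA.1, hA.2.1⟩
        rw [hN1]
        exact_mod_cast h3
      have h2 : (0 : ℝ) ≤ (nn P (ρ.val t, a) c : ℝ) / h * ((nn P (ρ.val t, a) c' : ℝ) / h) := by
        positivity
      calc _ ≤ N1 := h1
        _ = N1 * 1 := (mul_one _).symm
        _ ≤ _ := mul_le_mul_of_nonneg_left (by linarith) hN1p.le
  have hdep : (∑ c : Fin K → Vc r, ∑ c' : Fin K → Vc r,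
      (if ¬ LinearIndependent (ZMod 2) (Fin.append c c') then (1 : ℝ) else 0)) / R ^ 2 ≤
        2 ^ (2 * K) / 2 ^ r := by
    have e1 : (∑ c : Fin K → Vc r, ∑ c' : Fin K → Vc r,
        (if ¬ LinearIndependent (ZMod 2) (Fin.append c c') then (1 : ℝ) else 0)) =
        (((Finset.univ.filter (fun p : (Fin K → Vc r) × (Fin K → Vc r) =>
          ¬ LinearIndependent (ZMod 2) (Fin.append p.1 p.2))).card : ℕ) : ℝ) := by
      rw [← Finset.sum_boole, ← Finset.univ_product_univ, Finset.sum_product]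
    have e2 : (Finset.univ.filter (fun p : (Fin K → Vc r) × (Fin K → Vc r) =>
          ¬ LinearIndependent (ZMod 2) (Fin.append p.1 p.2))).card ≤
        (Finset.univ.filter (fun C : Fin (K + K) → Vc r => ¬ LinearIndependent (ZMod 2) C)).card := by
      refine Finset.card_le_card_of_injOn (fun p => Fin.append p.1 p.2) ?_ ?_
      · intro p hp
        rw [Finset.mem_coe, Finset.mem_filter] at hp ⊢
        exact ⟨Finset.mem_univ _, hp.2⟩
      · intro p _ q _ hpq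
        have hpq' : Fin.append p.1 p.2 = Fin.append q.1 q.2 := hpq
        refine Prod.ext ?_ ?_
        · funext i
          have := congrFun hpq' (Fin.castAdd K i)
          rwa [Fin.append_left, Fin.append_left] at this
        · funext i
          have := congrFun hpq' (Fin.natAdd K i)
          rwa [Fin.append_right, Fin.append_right] at this
    have e3 := dep_card (r := r) (J := K + K)
    have e4 : (Finset.univ.filter (fun p : (Fin K → Vc r) × (Fin K → Vc r) =>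
          ¬ LinearIndependent (ZMod 2) (Fin.append p.1 p.2))).card * 2 ^ r ≤
        2 ^ (2 * K) * (2 ^ (r * K)) ^ 2 := by
      refine (Nat.mul_le_mul_right _ e2).trans (e3.trans (le_of_eq ?_))
      rw [← pow_mul, ← two_mul]
      congr 2
      ring
    rw [e1, div_le_div_iff₀ (by positivity) (by positivity), hR]
    exact_mod_cast e4
  rw [hsum, Ff_lam hs, ← hN1, ← hh, ← hR]
  have hS := Finset.sum_le_sum (fun c (_ : c ∈ (Finset.univ : Finset (Fin K → Vc r))) =>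
    Finset.sum_le_sum (fun c' (_ : c' ∈ (Finset.univ : Finset (Fin K → Vc r))) => hc c c'))
  have e5 : ∑ c : Fin K → Vc r, ∑ c' : Fin K → Vc r,
      N1 * ((nn P (ρ.val t, a) c : ℝ) / h * ((nn P (ρ.val t, a) c' : ℝ) / h) +
      (if ¬ LinearIndependent (ZMod 2) (Fin.append c c') then (1 : ℝ) else 0)) =
      N1 * (((∑ c : Fin K → Vc r, (nn P (ρ.val t, a) c : ℝ)) / h) ^ 2 +
        ∑ c : Fin K → Vc r, ∑ c' : Fin K → Vc r,
      (if ¬ LinearIndependent (ZMod 2) (Fin.append c c') then (1 : ℝ) else 0)) := by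
    simp only [← Finset.mul_sum, Finset.sum_add_distrib]
    congr 2
    rw [sq, Finset.sum_div, Finset.sum_mul_sum]
    refine Finset.sum_congr rfl fun c _ => ?_
    rw [Finset.mul_sum]
  rw [e5] at hS
  rw [div_le_iff₀ (by positivity)]
  refine hS.trans ?_
  rw [mul_assoc]
  refine mul_le_mul_of_nonneg_left ?_ hN1p.le
  rw [add_mul]
  rw [div_le_iff₀ (by positivity)] at hdep
  refine add_le_add (le_of_eq ?_) hdep
  field_simp

end H4.SL
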