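import Pool.Agent.H4.SL.Ff

/-!
# Row Fg: Chebyshev

PROOF. `lam_nonneg` clear. `lam_le_one`: `lam P x = (∑ c, nn P x c) / 2^((s+r-1) K) ≤ 2^(r K) 2^((s-1) K) / 2^((s+r-1) K) = 1` (`sum_nn`, `nn_le` with `row_ne_zero`,
`Fintype.card (Fin K → Vc r) = 2^(r K)`, `s ≥ 1`).
`var_le`: `∑_A = ∑_a ∑_(A : A t = a)` (`Finset.sum_fiberwise`). For fixed `a`, with `l = lam P (ρ_t, a) ∈ [0, 1]`, `N1 = 2^(r (s-1))`, the number of
`A` with `A t = a` is `N1` (`card_row`: `Fintype.card_piFinset`, or `fiber_rows` with `J = 0`, `C = Fin.elim0`):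
`∑ (pr - l)^2 = ∑ pr^2 - 2 l ∑ pr + N1 l^2 ≤ N1 (l^2 + 2^(2K)/2^r - 2 l (l - 2^K/2^r) + l^2) = N1 (2^(2K)/2^r + 2 l 2^K/2^r) ≤ N1 2^(2K+1)/2^r`
(`2 * 2^K ≤ 2^(2K)` since `K ≥ 1`). Sum over the `2^r` values of `a`: `2^r N1 = 2^(r s)`.
`bad_le`: Markov/Chebyshev: `η^2 * card ≤ ∑ (pr - lam)^2`.
-/

set_option autoImplicit false

namespace H4.SL

variable {K s r : ℕ}

theorem lam_nonneg (P : Finset (Fin (K + 1) → Ix s r)) (x : Ix s r) : 0 ≤ lam P x := by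
  unfold lam
  positivity

theorem Fg_card_c : Fintype.card (Fin K → Vc r) = 2 ^ (r * K) := by
  rw [Fintype.card_fun, Fintype.card_fun, ZMod.card, Fintype.card_fin, Fintype.card_fin, ← pow_mul]

theorem lam_le_one (hs : 1 ≤ s) {P : Finset (Fin (K + 1) → Ix s r)} (hP : ∀ z ∈ P, Adm z)
    (ρ : (Mt s)ˣ) (t : Fin s) (a : Vc r) : lam P (ρ.val t, a) ≤ 1 := by
  unfold lam
  rw [div_le_one (by positivity)]
  have h1 : (P.filter (fun z => z 0 = (ρ.val t, a))).card ≤ 2 ^ ((s + r - 1) * K) := by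
    rw [← sum_nn]
    have h2 : ∑ c : Fin K → Vc r, nn P (ρ.val t, a) c ≤
        (Finset.univ : Finset (Fin K → Vc r)).card • 2 ^ ((s - 1) * K) :=
      Finset.sum_le_card_nsmul _ _ _ (fun c _ => nn_le hP (x := (ρ.val t, a)) (row_ne_zero ρ t) c)
    rw [Finset.card_univ, Fg_card_c, smul_eq_mul, ← pow_add] at h2
    have h3 : r * K + (s - 1) * K = (s + r - 1) * K := by
      rw [← add_mul]
      congr 1
      omega
    rwa [h3] at h2
  exact_mod_cast h1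

theorem card_row (t : Fin s) (a : Vc r) :
    (Finset.univ.filter (fun A : Fin s → Vc r => A t = a)).card = 2 ^ (r * (s - 1)) := by
  have h1 := fiber_rows (s := s) (r := r) (J := 0) (C := fun i => i.elim0) (linearIndependent_empty_type)
    t a (fun i => i.elim0) (fun i => i.elim0)
  rw [Nat.zero_mul, pow_zero, mul_one] at h1
  rw [← h1]
  congr 1
  ext A
  simp only [Finset.mem_filter, Finset.mem_univ, true_and]
  exact ⟨fun h => ⟨h, fun i => i.elim0⟩, fun h => h.1⟩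

theorem var_le (hK : 1 ≤ K) (hs : 1 ≤ s) {P : Finset (Fin (K + 1) → Ix s r)} (hP : ∀ z ∈ P, Adm z)
    (ρ : (Mt s)ˣ) (t : Fin s) :
    ∑ A : Fin s → Vc r, (pr P ρ A t - lam P (ρ.val t, A t)) ^ 2 ≤
      (2 : ℝ) ^ (r * s) * (2 ^ (2 * K + 1) / 2 ^ r) := by
  have hfib : ∀ a : Vc r, ∑ A ∈ Finset.univ.filter (fun A : Fin s → Vc r => A t = a),
      (pr P ρ A t - lam P (ρ.val t, A t)) ^ 2 ≤ (2 : ℝ) ^ (r * (s - 1)) * (2 ^ (2 * K + 1) / 2 ^ r) := by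
    intro a
    have h1 := mom1 hs hP ρ t a
    have h2 := mom2 hs hP ρ t a
    have hl0 := lam_nonneg P (ρ.val t, a)
    have hl1 := lam_le_one hs hP ρ t a
    set l := lam P (ρ.val t, a) with hl
    have e1 : ∑ A ∈ Finset.univ.filter (fun A : Fin s → Vc r => A t = a),
        (pr P ρ A t - lam P (ρ.val t, A t)) ^ 2 =
        ∑ A ∈ Finset.univ.filter (fun A : Fin s → Vc r => A t = a), pr P ρ A t ^ 2
          - 2 * l * ∑ A ∈ Finset.univ.filter (fun A : Fin s → Vc r => A t = a), pr P ρ A t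
          + (2 : ℝ) ^ (r * (s - 1)) * l ^ 2 := by
      have e2 : ∑ A ∈ Finset.univ.filter (fun A : Fin s → Vc r => A t = a), l ^ 2 =
          (2 : ℝ) ^ (r * (s - 1)) * l ^ 2 := by
        rw [Finset.sum_const, card_row, nsmul_eq_mul]
        push_cast
        ring
      rw [← e2, Finset.mul_sum, ← Finset.sum_sub_distrib, ← Finset.sum_add_distrib]
      refine Finset.sum_congr rfl fun A hA => ?_
      rw [(Finset.mem_filter.1 hA).2, ← hl]
      ring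
    rw [e1]
    have hN : (0 : ℝ) < (2 : ℝ) ^ (r * (s - 1)) := by positivity
    have hr : (0 : ℝ) < (2 : ℝ) ^ r := by positivity
    have hK2 : 2 * (2 : ℝ) ^ K ≤ 2 ^ (2 * K) := by
      have h3 : (2 : ℝ) ≤ 2 ^ K := by
        calc (2 : ℝ) = 2 ^ 1 := (pow_one 2).symm
          _ ≤ 2 ^ K := pow_le_pow_right₀ (by norm_num) hK
      have h4 : (2 : ℝ) ^ (2 * K) = 2 ^ K * 2 ^ K := by rw [two_mul, pow_add]
      rw [h4]
      nlinarith [pow_pos (two_pos : (0 : ℝ) < 2) K]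
    have h5 : 2 * l * ((2 : ℝ) ^ (r * (s - 1)) * (l - 2 ^ K / 2 ^ r)) ≤
        2 * l * ∑ A ∈ Finset.univ.filter (fun A : Fin s → Vc r => A t = a), pr P ρ A t :=
      mul_le_mul_of_nonneg_left h1 (by positivity)
    have h6 : l * (2 * 2 ^ K / 2 ^ r) ≤ 2 ^ (2 * K) / 2 ^ r := by
      have h7 : 2 * (2 : ℝ) ^ K / 2 ^ r ≤ 2 ^ (2 * K) / 2 ^ r := div_le_div_of_nonneg_right hK2 hr.le
      have h8 : (0 : ℝ) ≤ 2 * 2 ^ K / 2 ^ r := by positivity
      nlinarith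
    have h9 : (2 : ℝ) ^ (2 * K + 1) / 2 ^ r = 2 ^ (2 * K) / 2 ^ r + 2 ^ (2 * K) / 2 ^ r := by
      rw [pow_succ]
      ring
    rw [h9]
    have h10 : (2 : ℝ) ^ (r * (s - 1)) * (l * (2 * 2 ^ K / 2 ^ r)) ≤
        (2 : ℝ) ^ (r * (s - 1)) * (2 ^ (2 * K) / 2 ^ r) := mul_le_mul_of_nonneg_left h6 hN.le
    have h11 : 2 * l * ((2 : ℝ) ^ (r * (s - 1)) * (l - 2 ^ K / 2 ^ r)) =
        2 * ((2 : ℝ) ^ (r * (s - 1)) * l ^ 2) - (2 : ℝ) ^ (r * (s - 1)) * (l * (2 * 2 ^ K / 2 ^ r)) := by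
      ring
    nlinarith
  have hsum : ∑ A : Fin s → Vc r, (pr P ρ A t - lam P (ρ.val t, A t)) ^ 2 =
      ∑ a : Vc r, ∑ A ∈ Finset.univ.filter (fun A : Fin s → Vc r => A t = a),
        (pr P ρ A t - lam P (ρ.val t, A t)) ^ 2 :=
    (Finset.sum_fiberwise _ _ _).symm
  rw [hsum]
  refine (Finset.sum_le_card_nsmul _ _ _ fun a _ => hfib a).trans (le_of_eq ?_)
  have hcard : (Finset.univ : Finset (Vc r)).card = 2 ^ r := by
    rw [Finset.card_univ, Fintype.card_fun, ZMod.card, Fintype.card_fin]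
  rw [hcard, nsmul_eq_mul, ← mul_assoc]
  congr 1
  push_cast
  rw [← pow_add]
  congr 1
  obtain ⟨s', rfl⟩ : ∃ s', s = s' + 1 := ⟨s - 1, by omega⟩
  rw [Nat.add_sub_cancel]
  ring

open Classical in
theorem bad_le (hK : 1 ≤ K) (hs : 1 ≤ s) {P : Finset (Fin (K + 1) → Ix s r)} (hP : ∀ z ∈ P, Adm z)
    (ρ : (Mt s)ˣ) (t : Fin s) {η : ℝ} (hη : 0 < η) :
    ((Finset.univ.filter (fun A : Fin s → Vc r =>
        η < |pr P ρ A t - lam P (ρ.val t, A t)|)).card : ℝ) * η ^ 2 ≤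
      (2 : ℝ) ^ (r * s) * (2 ^ (2 * K + 1) / 2 ^ r) := by
  refine le_trans ?_ (var_le hK hs hP ρ t)
  refine le_trans ?_ (Finset.sum_le_sum_of_subset_of_nonneg (Finset.filter_subset (fun A : Fin s → Vc r =>
        η < |pr P ρ A t - lam P (ρ.val t, A t)|) Finset.univ) (fun A _ _ => sq_nonneg _))
  rw [← nsmul_eq_mul]
  refine Finset.card_nsmul_le_sum _ _ _ fun A hA => ?_
  rw [← sq_abs (pr P ρ A t - lam P (ρ.val t, A t))]
  exact pow_le_pow_left₀ hη.le (Finset.mem_filter.1 hA).2.le 2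

end H4.SL
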