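import Pool.Agent.H4.SL.Defs

/-!
# Row Ga: many matrices are invertible

PROOF. `prod_ge`: `∏_(i < s) (1 - 1/2^(i+1)) ≥ 1/4 + 1/2^(s+1)` for `s ≥ 1` by induction on `s` (`s = 1`: `1/2`; step: with `u = 1/2^(s+1) ≤ 1/4`,
`(1/4 + u)(1 - u) ≥ 1/4 + u/2` iff `u/4 ≥ u^2`), and `≥ 1/4` for all `s`.
`gl_ge`: `Matrix.card_GL_field` (Mathlib, `LinearAlgebra/Matrix/GeneralLinearGroup/Card`): `Nat.card (GL (Fin n) 𝔽) = ∏ i : Fin n, (q^n - q^i)`, `q = Fintype.card 𝔽 = 2`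
(`ZMod.card`; `GL (Fin s) (ZMod 2)` is `(Mt s)ˣ`, `Nat.card_eq_fintype_card`). In the reals the product is `∏_(i<s) 2^s (1 - 2^i/2^s) = 2^(s s) ∏_(j<s) (1 - 1/2^(j+1))`
(reflect `j = s - 1 - i`: `Finset.prod_range_reflect`). Use `prod_ge`.
`sum_prod_le`: all terms are nonnegative, so the sum over the units is `≤` the sum over all matrices (`Units.val` is injective:
`Finset.sum_image`/`Finset.sum_le_sum_of_subset_of_nonneg` or `Fintype.sum_le_sum_of_injective`..). `∑_(ρ : Mt s) ∑_(A : Fin s → Vc r) ∏ t, f (ρ t, A t) = ∏ t, ∑_x f x = (∑ x, f x)^s`: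
pairs `(ρ, A)` correspond to functions `Fin s → Ix s r` (`Mt s = Fin s → Fin s → ZMod 2`; `Equiv.arrowProdEquivProdArrow`), then `Finset.prod_univ_sum`,
`Finset.prod_const`.
-/

set_option autoImplicit false

namespace H4.SL

variable {K s r : ℕ}

theorem SlGa_aux (s : ℕ) :
    (1 / 4 : ℝ) + 1 / 2 ^ (s + 2) ≤ ∏ i ∈ Finset.range (s + 1), (1 - 1 / (2 : ℝ) ^ (i + 1)) := by
  induction s with
  | zero => norm_num
  | succ s ih =>
    rw [Finset.prod_range_succ]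
    obtain ⟨u, hu⟩ : ∃ u : ℝ, u = 1 / 2 ^ (s + 2) := ⟨_, rfl⟩
    have hu0 : 0 < u := by rw [hu]; positivity
    have hu1 : u ≤ 1 / 4 := by
      rw [hu]
      apply one_div_le_one_div_of_le (by norm_num)
      calc (4 : ℝ) = 2 ^ 2 := by norm_num
        _ ≤ 2 ^ (s + 2) := pow_le_pow_right₀ (by norm_num) (by omega)
    have e1 : 1 / (2 : ℝ) ^ (s + 1 + 1) = u := hu.symm
    have e2 : 1 / (2 : ℝ) ^ (s + 1 + 2) = u / 2 := by
      rw [hu, show s + 1 + 2 = (s + 2) + 1 by omega, pow_succ]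
      field_simp
    rw [e1, e2]
    rw [← hu] at ih
    have h1 : 0 ≤ u * (1 / 4 - u) := mul_nonneg hu0.le (by linarith)
    calc 1 / 4 + u / 2 ≤ (1 / 4 + u) * (1 - u) := by
          have : (1 / 4 + u) * (1 - u) = 1 / 4 + u / 2 + u * (1 / 4 - u) := by ring
          rw [this]
          linarith
      _ ≤ _ := mul_le_mul_of_nonneg_right ih (by linarith)

theorem prod_ge (s : ℕ) : (1 / 4 : ℝ) ≤ ∏ i ∈ Finset.range s, (1 - 1 / (2 : ℝ) ^ (i + 1)) := by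
  rcases s with _ | s
  · rw [Finset.prod_range_zero]
    norm_num
  · have h1 := SlGa_aux s
    have h2 : (0 : ℝ) < 1 / 2 ^ (s + 2) := by positivity
    linarith

theorem gl_ge (s : ℕ) : (2 : ℝ) ^ (s * s) ≤ 4 * Fintype.card (Mt s)ˣ := by
  have h1 : Fintype.card (Mt s)ˣ = ∏ i : Fin s, (2 ^ s - 2 ^ (i : ℕ)) := by
    have h2 := Matrix.card_GL_field (𝔽 := ZMod 2) s
    rw [ZMod.card] at h2
    rw [← h2, ← Nat.card_eq_fintype_card]
  have h2 : ((Fintype.card (Mt s)ˣ : ℕ) : ℝ) = ∏ i ∈ Finset.range s, ((2 : ℝ) ^ s - 2 ^ i) := by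
    rw [h1, Nat.cast_prod, ← Fin.prod_univ_eq_prod_range (fun i => (2 : ℝ) ^ s - 2 ^ i) s]
    refine Finset.prod_congr rfl fun i _ => ?_
    rw [Nat.cast_sub (Nat.pow_le_pow_right (by norm_num) i.2.le)]
    simp
  have h3 : ∏ i ∈ Finset.range s, ((2 : ℝ) ^ s - 2 ^ i) = 2 ^ (s * s) * ∏ i ∈ Finset.range s, (1 - 1 / (2 : ℝ) ^ (i + 1)) := by
    rw [← Finset.prod_range_reflect, pow_mul]
    have e0 : ((2 : ℝ) ^ s) ^ s = ∏ _i ∈ Finset.range s, (2 : ℝ) ^ s := by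
      rw [Finset.prod_const, Finset.card_range]
    rw [e0, ← Finset.prod_mul_distrib]
    refine Finset.prod_congr rfl fun i hi => ?_
    have hi' := Finset.mem_range.1 hi
    have h4 : (2 : ℝ) ^ s = 2 ^ (s - 1 - i) * 2 ^ (i + 1) := by
      rw [← pow_add]
      congr 1
      omega
    rw [h4]
    have h5 : (2 : ℝ) ^ (i + 1) ≠ 0 := by positivity
    field_simp
  rw [h2, h3]
  have h4 := prod_ge s
  have h5 : (0 : ℝ) < 2 ^ (s * s) := by positivity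
  calc (2 : ℝ) ^ (s * s) = 4 * (2 ^ (s * s) * (1 / 4)) := by ring
    _ ≤ _ := mul_le_mul_of_nonneg_left (mul_le_mul_of_nonneg_left h4 h5.le) (by norm_num)

theorem sum_prod_le (f : Ix s r → ℝ) (hf : ∀ x, 0 ≤ f x) :
    ∑ ρ : (Mt s)ˣ, ∑ A : Fin s → Vc r, ∏ t, f (ρ.val t, A t) ≤ (∑ x, f x) ^ s := by
  have h1 : ∑ ρ : (Mt s)ˣ, ∑ A : Fin s → Vc r, ∏ t, f (ρ.val t, A t)
      ≤ ∑ ρ : Mt s, ∑ A : Fin s → Vc r, ∏ t, f (ρ t, A t) := by
    have hinj : Function.Injective (fun ρ : (Mt s)ˣ => ρ.val) := fun a b h => Units.ext h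
    have e1 : ∑ ρ : (Mt s)ˣ, ∑ A : Fin s → Vc r, ∏ t, f (ρ.val t, A t)
        = ∑ ρ ∈ Finset.univ.map ⟨fun ρ : (Mt s)ˣ => ρ.val, hinj⟩, ∑ A : Fin s → Vc r, ∏ t, f (ρ t, A t) := by
      rw [Finset.sum_map]
      rfl
    rw [e1]
    refine Finset.sum_le_sum_of_subset_of_nonneg (Finset.subset_univ _) fun ρ _ _ => ?_
    exact Finset.sum_nonneg fun A _ => Finset.prod_nonneg fun t _ => hf _
  refine h1.trans (le_of_eq ?_)
  rw [Fintype.sum_pow, ← Fintype.sum_prod_type' (f := fun (ρ : Mt s) (A : Fin s → Vc r) => ∏ t, f (ρ t, A t))]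
  exact Fintype.sum_equiv (Equiv.arrowProdEquivProdArrow (Fin s) (fun _ => Vc s) (fun _ => Vc r)).symm _ _ (fun _ => rfl)

end H4.SL
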