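import Pool.Agent.H4.SL.Defs

/-!
# Row Gc: the sum over the frames of a block

PROOF. `2^(hit P M) = ∏ t, (if edge M t ∈ P then 2 else 1)` (`Finset.prod_ite`, `Finset.prod_const`, or `Finset.prod_pow_boole`). The sum over
`Fr K s r = (Mt s)ˣ × (Fin s → Vc r) × (Fin s → Fin K → Vc r)` is the iterated sum (`Fintype.sum_prod_type`). For fixed `ρ, A`:
`∑_c ∏ t, (if ed ρ A (c t) t ∈ P then 2 else 1) = ∏ t, ∑_(c' : Fin K → Vc r) (if ed ρ A c' t ∈ P then 2 else 1)` (`Finset.prod_univ_sum`,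
`Fintype.piFinset_univ`), and the inner sum is `card (Fin K → Vc r) + card {c' : ed ρ A c' t ∈ P} = 2^(r K) (1 + pr P ρ A t)`
(`Fintype.card_fun`, `ZMod.card`: `card (Fin K → Vc r) = (2^r)^K = 2^(r K)`). Pull out `(2^(r K))^s` (`Finset.prod_mul_distrib`, `Finset.prod_const`,
`Finset.mul_sum`).
`card_fr`: cardinality of a product; `card (Fin s → Vc r) = 2^(r s)`, `card (Fin s → Fin K → Vc r) = (2^(r K))^s`.
`sum_lam`: `∑_x card (P.filter (z 0 = x)) = card P` (`Finset.card_eq_sum_card_fiberwise`), `tot = 2^(s+r) 2^((s+r-1) K)`.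
`pr_le_one`: the numerator is at most `card (Fin K → Vc r) = 2^(r K)`.
-/

set_option autoImplicit false

namespace H4.SL

variable {K s r : ℕ}

theorem pr_nonneg (P : Finset (Fin (K + 1) → Ix s r)) (ρ : (Mt s)ˣ) (A : Fin s → Vc r) (t : Fin s) :
    0 ≤ pr P ρ A t := by
  unfold pr
  positivity

theorem card_cc : Fintype.card (Fin K → Vc r) = 2 ^ (r * K) := by
  simp [Vc, ZMod.card, pow_mul]

theorem pr_le_one (P : Finset (Fin (K + 1) → Ix s r)) (ρ : (Mt s)ˣ) (A : Fin s → Vc r) (t : Fin s) :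
    pr P ρ A t ≤ 1 := by
  unfold pr
  rw [div_le_one (by positivity)]
  have h := Finset.card_filter_le (Finset.univ : Finset (Fin K → Vc r)) (fun c => ed ρ A c t ∈ P)
  rw [Finset.card_univ, card_cc] at h
  exact_mod_cast h

theorem card_fr : (Fintype.card (Fr K s r) : ℝ) =
    Fintype.card (Mt s)ˣ * 2 ^ (r * s) * ((2 : ℝ) ^ (r * K)) ^ s := by
  have h1 : Fintype.card (Fin s → Vc r) = 2 ^ (r * s) := by
    simp [Vc, ZMod.card, pow_mul]
  have h2 : Fintype.card (Fin s → Fin K → Vc r) = (2 ^ (r * K)) ^ s := by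
    rw [Fintype.card_fun, card_cc, Fintype.card_fin]
  have h3 : Fintype.card (Fr K s r) = Fintype.card (Mt s)ˣ * (2 ^ (r * s) * (2 ^ (r * K)) ^ s) := by
    show Fintype.card ((Mt s)ˣ × (Fin s → Vc r) × (Fin s → Fin K → Vc r)) = _
    rw [Fintype.card_prod, Fintype.card_prod, h1, h2]
  rw [h3]
  push_cast
  ring

theorem sum_lam (P : Finset (Fin (K + 1) → Ix s r)) :
    ∑ x : Ix s r, lam P x = 2 ^ (s + r) * ((P.card : ℝ) / tot K s r) := by
  have h1 : P.card = ∑ x : Ix s r, (P.filter (fun z => z 0 = x)).card :=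
    Finset.card_eq_sum_card_fiberwise (fun _ _ => Finset.mem_coe.2 (Finset.mem_univ _))
  unfold lam tot
  rw [← Finset.sum_div, ← Nat.cast_sum, ← h1]
  field_simp

theorem sum_hit_eq (P : Finset (Fin (K + 1) → Ix s r)) :
    ∑ M : Fr K s r, (2 : ℝ) ^ hit P M =
      ((2 : ℝ) ^ (r * K)) ^ s * ∑ ρ : (Mt s)ˣ, ∑ A : Fin s → Vc r, ∏ t, (1 + pr P ρ A t) := by
  classical
  have h1 : ∀ M : Fr K s r, (2 : ℝ) ^ hit P M = ∏ t, (if edge M t ∈ P then (2 : ℝ) else 1) := by
    intro M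
    unfold hit
    rw [Finset.prod_ite]
    simp
  have h2 : ∑ M : Fr K s r, (2 : ℝ) ^ hit P M =
      ∑ ρ : (Mt s)ˣ, ∑ A : Fin s → Vc r, ∑ c : Fin s → Fin K → Vc r,
        ∏ t, (if ed ρ A (c t) t ∈ P then (2 : ℝ) else 1) := by
    rw [Finset.sum_congr rfl (fun M _ => h1 M)]
    rw [Fintype.sum_prod_type]
    refine Finset.sum_congr rfl fun ρ _ => ?_
    rw [Fintype.sum_prod_type]
    rfl
  have h3 : ∀ (ρ : (Mt s)ˣ) (A : Fin s → Vc r), ∑ c : Fin s → Fin K → Vc r,
      ∏ t, (if ed ρ A (c t) t ∈ P then (2 : ℝ) else 1) =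
        ((2 : ℝ) ^ (r * K)) ^ s * ∏ t, (1 + pr P ρ A t) := by
    intro ρ A
    have h4 := Finset.prod_univ_sum (fun _ : Fin s => (Finset.univ : Finset (Fin K → Vc r)))
      (fun (t : Fin s) (c' : Fin K → Vc r) => (if ed ρ A c' t ∈ P then (2 : ℝ) else 1))
    rw [Fintype.piFinset_univ] at h4
    rw [← h4]
    have h5 : ∀ t : Fin s, ∑ c' : Fin K → Vc r, (if ed ρ A c' t ∈ P then (2 : ℝ) else 1) =
        (2 : ℝ) ^ (r * K) * (1 + pr P ρ A t) := by
      intro t
      have h6 : ∀ c' : Fin K → Vc r, (if ed ρ A c' t ∈ P then (2 : ℝ) else 1) =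
          1 + (if ed ρ A c' t ∈ P then (1 : ℝ) else 0) := by
        intro c'
        split_ifs <;> norm_num
      rw [Finset.sum_congr rfl (fun c' _ => h6 c'), Finset.sum_add_distrib, Finset.sum_const,
        Finset.card_univ, card_cc, Finset.sum_boole]
      unfold pr
      push_cast
      simp only [nsmul_eq_mul, mul_one]
      push_cast
      field_simp
    rw [Finset.prod_congr rfl (fun t _ => h5 t), Finset.prod_mul_distrib, Finset.prod_const,
      Finset.card_univ, Fintype.card_fin]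
  rw [h2, Finset.mul_sum]
  refine Finset.sum_congr rfl fun ρ _ => ?_
  rw [Finset.mul_sum]
  exact Finset.sum_congr rfl fun A _ => h3 ρ A

end H4.SL
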