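import Pool.Agent.H4.SL.Fg
import Pool.Agent.H4.SL.Ga
import Pool.Agent.H4.SL.Gc

/-! # Row Gd: the spread lemma -/

set_option autoImplicit false

namespace H4.SL

variable {K s r : ℕ}

theorem Gd_pt (P : Finset (Fin (K + 1) → Ix s r)) (ρ : (Mt s)ˣ) (A : Fin s → Vc r) :
    ∏ t, (1 + pr P ρ A t) ≤ ∏ t, (1 + lam P (ρ.val t, A t) + 1 / 20) +
      2 ^ s * ∑ t, (if 1 / 20 < |pr P ρ A t - lam P (ρ.val t, A t)| then (1 : ℝ) else 0) := by
  have h0 : ∀ t, 0 ≤ pr P ρ A t := pr_nonneg P ρ A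
  have h1 : ∀ t, pr P ρ A t ≤ 1 := pr_le_one P ρ A
  have hl : ∀ t, 0 ≤ lam P (ρ.val t, A t) := fun t => lam_nonneg P _
  have hf : 0 ≤ ∏ t, (1 + lam P (ρ.val t, A t) + 1 / 20) :=
    Finset.prod_nonneg (fun t _ => by linarith [hl t])
  have h2 : (0 : ℝ) < 2 ^ s := by positivity
  have hi : ∀ t, (0 : ℝ) ≤
      (if 1 / 20 < |pr P ρ A t - lam P (ρ.val t, A t)| then (1 : ℝ) else 0) := by
    intro t
    split_ifs <;> norm_num
  by_cases hb : ∃ t, 1 / 20 < |pr P ρ A t - lam P (ρ.val t, A t)|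
  · obtain ⟨t, ht⟩ := hb
    have hs1 : (1 : ℝ) ≤
        ∑ t, (if 1 / 20 < |pr P ρ A t - lam P (ρ.val t, A t)| then (1 : ℝ) else 0) := by
      refine le_trans (le_of_eq ?_) (Finset.single_le_sum (fun i _ => hi i) (Finset.mem_univ t))
      rw [if_pos ht]
    have hp : ∏ t, (1 + pr P ρ A t) ≤ 2 ^ s := by
      calc ∏ t, (1 + pr P ρ A t) ≤ ∏ t : Fin s, (2 : ℝ) :=
            Finset.prod_le_prod (fun t _ => by linarith [h0 t]) (fun t _ => by linarith [h1 t])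
        _ = 2 ^ s := by simp
    have h3 := mul_le_mul_of_nonneg_left hs1 h2.le
    rw [mul_one] at h3
    linarith
  · have hb' : ∀ t, |pr P ρ A t - lam P (ρ.val t, A t)| ≤ 1 / 20 := fun t => by
      by_contra h
      exact hb ⟨t, not_le.1 h⟩
    have hp : ∏ t, (1 + pr P ρ A t) ≤ ∏ t, (1 + lam P (ρ.val t, A t) + 1 / 20) :=
      Finset.prod_le_prod (fun t _ => by linarith [h0 t])
        (fun t _ => by linarith [(abs_le.1 (hb' t)).2])
    have h3 := mul_nonneg h2.le (Finset.sum_nonneg (fun t (_ : t ∈ Finset.univ) => hi t))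
    linarith

theorem Gd_card : (Fintype.card (Ix s r) : ℝ) = 2 ^ (s + r) := by
  rw [Fintype.card_prod, Fintype.card_fun, Fintype.card_fun, ZMod.card, Fintype.card_fin,
    Fintype.card_fin]
  push_cast
  rw [pow_add]

theorem Gd_sumf (P : Finset (Fin (K + 1) → Ix s r)) :
    ∑ x : Ix s r, (1 + lam P x + 1 / 20) =
      2 ^ (s + r) * (1 + ((P.card : ℝ) / tot K s r + 1 / 20)) := by
  rw [Finset.sum_add_distrib, Finset.sum_add_distrib, sum_lam, Finset.sum_const, Finset.sum_const,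
    Finset.card_univ, nsmul_eq_mul, nsmul_eq_mul, Gd_card]
  ring

theorem Gd_first (P : Finset (Fin (K + 1) → Ix s r)) :
    ∑ ρ : (Mt s)ˣ, ∑ A : Fin s → Vc r, ∏ t, (1 + lam P (ρ.val t, A t) + 1 / 20) ≤
      4 * (Fintype.card (Mt s)ˣ * 2 ^ (r * s) *
        Real.exp (s * ((P.card : ℝ) / tot K s r + 1 / 20))) := by
  have hL : (0 : ℝ) ≤ (P.card : ℝ) / tot K s r := by
    have : 0 ≤ tot K s r := by unfold tot; positivity
    positivity
  have h := sum_prod_le (s := s) (r := r) (fun x => 1 + lam P x + 1 / 20)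
    (fun x => by linarith [lam_nonneg P x])
  refine le_trans h ?_
  rw [Gd_sumf, mul_pow]
  have h1 : (1 + ((P.card : ℝ) / tot K s r + 1 / 20)) ^ s ≤
      Real.exp (s * ((P.card : ℝ) / tot K s r + 1 / 20)) := by
    rw [Real.exp_nat_mul]
    refine pow_le_pow_left₀ (by linarith) ?_ s
    rw [add_comm]
    exact Real.add_one_le_exp _
  have h2 : ((2 : ℝ) ^ (s + r)) ^ s ≤ 4 * (Fintype.card (Mt s)ˣ * 2 ^ (r * s)) := by
    have h3 := mul_le_mul_of_nonneg_right (gl_ge s) (show (0 : ℝ) ≤ 2 ^ (r * s) by positivity)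
    calc ((2 : ℝ) ^ (s + r)) ^ s = 2 ^ (s * s) * 2 ^ (r * s) := by
          rw [← pow_mul, ← pow_add, add_mul]
      _ ≤ 4 * Fintype.card (Mt s)ˣ * 2 ^ (r * s) := h3
      _ = 4 * (Fintype.card (Mt s)ˣ * 2 ^ (r * s)) := by ring
  calc ((2 : ℝ) ^ (s + r)) ^ s * (1 + ((P.card : ℝ) / tot K s r + 1 / 20)) ^ s
      ≤ (4 * (Fintype.card (Mt s)ˣ * 2 ^ (r * s))) *
        Real.exp (s * ((P.card : ℝ) / tot K s r + 1 / 20)) :=
        mul_le_mul h2 h1 (pow_nonneg (by linarith) s) (by positivity)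
    _ = _ := by ring

theorem Gd_second (hK : 1 ≤ K) (hs : 1 ≤ s) (hr : 400 * s * 2 ^ s * 2 ^ (2 * K + 1) ≤ 2 ^ r)
    {P : Finset (Fin (K + 1) → Ix s r)} (hP : ∀ z ∈ P, Adm z) :
    ∑ ρ : (Mt s)ˣ, ∑ A : Fin s → Vc r, (2 : ℝ) ^ s *
      ∑ t, (if 1 / 20 < |pr P ρ A t - lam P (ρ.val t, A t)| then (1 : ℝ) else 0) ≤
      Fintype.card (Mt s)ˣ * 2 ^ (r * s) := by
  classical
  have hr' : (400 : ℝ) * s * 2 ^ s * 2 ^ (2 * K + 1) ≤ 2 ^ r := by exact_mod_cast hr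
  have h2r : (0 : ℝ) < 2 ^ r := by positivity
  have key : ∀ ρ : (Mt s)ˣ, ∑ A : Fin s → Vc r, (2 : ℝ) ^ s *
      ∑ t, (if 1 / 20 < |pr P ρ A t - lam P (ρ.val t, A t)| then (1 : ℝ) else 0) ≤
      2 ^ (r * s) := by
    intro ρ
    rw [← Finset.mul_sum, Finset.sum_comm]
    have h1 : ∀ t : Fin s, ∑ A : Fin s → Vc r,
        (if 1 / 20 < |pr P ρ A t - lam P (ρ.val t, A t)| then (1 : ℝ) else 0) ≤
        400 * ((2 : ℝ) ^ (r * s) * (2 ^ (2 * K + 1) / 2 ^ r)) := by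
      intro t
      have h3 := bad_le hK hs hP ρ t (η := 1 / 20) (by norm_num)
      have h4 : ∑ A : Fin s → Vc r,
          (if 1 / 20 < |pr P ρ A t - lam P (ρ.val t, A t)| then (1 : ℝ) else 0) =
          ((Finset.univ.filter (fun A : Fin s → Vc r =>
            1 / 20 < |pr P ρ A t - lam P (ρ.val t, A t)|)).card : ℝ) := by
        rw [Finset.sum_boole]
      rw [h4]
      have h5 : ((1 : ℝ) / 20) ^ 2 = 1 / 400 := by norm_num
      rw [h5] at h3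
      linarith
    calc (2 : ℝ) ^ s * ∑ t : Fin s, ∑ A : Fin s → Vc r,
          (if 1 / 20 < |pr P ρ A t - lam P (ρ.val t, A t)| then (1 : ℝ) else 0)
        ≤ 2 ^ s * ∑ t : Fin s, 400 * ((2 : ℝ) ^ (r * s) * (2 ^ (2 * K + 1) / 2 ^ r)) :=
          mul_le_mul_of_nonneg_left (Finset.sum_le_sum (fun t _ => h1 t)) (by positivity)
      _ = 2 ^ (r * s) * ((400 * s * 2 ^ s * 2 ^ (2 * K + 1)) / 2 ^ r) := by
          rw [Finset.sum_const, Finset.card_univ, Fintype.card_fin, nsmul_eq_mul]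
          ring
      _ ≤ 2 ^ (r * s) * 1 := by
          refine mul_le_mul_of_nonneg_left ?_ (by positivity)
          exact (div_le_one h2r).2 hr'
      _ = 2 ^ (r * s) := mul_one _
  calc _ ≤ ∑ ρ : (Mt s)ˣ, (2 : ℝ) ^ (r * s) := Finset.sum_le_sum (fun ρ _ => key ρ)
    _ = Fintype.card (Mt s)ˣ * 2 ^ (r * s) := by
        rw [Finset.sum_const, Finset.card_univ, nsmul_eq_mul]

theorem spread (hK : 1 ≤ K) (hs : 1 ≤ s) (hr : 400 * s * 2 ^ s * 2 ^ (2 * K + 1) ≤ 2 ^ r)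
    {P : Finset (Fin (K + 1) → Ix s r)} (hP : ∀ z ∈ P, Adm z) :
    ∑ M : Fr K s r, (2 : ℝ) ^ hit P M ≤
      Fintype.card (Fr K s r) * Real.exp (Real.log 5 + s * ((P.card : ℝ) / tot K s r + 1 / 20)) := by
  have hL : (0 : ℝ) ≤ (P.card : ℝ) / tot K s r := by
    have : 0 ≤ tot K s r := by unfold tot; positivity
    positivity
  have h1 : ∑ ρ : (Mt s)ˣ, ∑ A : Fin s → Vc r, ∏ t, (1 + pr P ρ A t) ≤
      ∑ ρ : (Mt s)ˣ, ∑ A : Fin s → Vc r, ∏ t, (1 + lam P (ρ.val t, A t) + 1 / 20) +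
      ∑ ρ : (Mt s)ˣ, ∑ A : Fin s → Vc r, (2 : ℝ) ^ s *
      ∑ t, (if 1 / 20 < |pr P ρ A t - lam P (ρ.val t, A t)| then (1 : ℝ) else 0) := by
    rw [← Finset.sum_add_distrib]
    refine Finset.sum_le_sum (fun ρ _ => ?_)
    rw [← Finset.sum_add_distrib]
    exact Finset.sum_le_sum (fun A _ => Gd_pt P ρ A)
  have h2 := Gd_first P
  have h3 := Gd_second hK hs hr hP
  have h4 : (1 : ℝ) ≤ Real.exp (s * ((P.card : ℝ) / tot K s r + 1 / 20)) :=
    Real.one_le_exp (by positivity)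
  have h5 : (Fintype.card (Mt s)ˣ : ℝ) * 2 ^ (r * s) ≤ Fintype.card (Mt s)ˣ * 2 ^ (r * s) *
      Real.exp (s * ((P.card : ℝ) / tot K s r + 1 / 20)) :=
    le_mul_of_one_le_right (by positivity) h4
  have h6 : ∑ ρ : (Mt s)ˣ, ∑ A : Fin s → Vc r, ∏ t, (1 + pr P ρ A t) ≤
      5 * (Fintype.card (Mt s)ˣ * 2 ^ (r * s) *
        Real.exp (s * ((P.card : ℝ) / tot K s r + 1 / 20))) := by
    linarith
  rw [sum_hit_eq, card_fr, Real.exp_add, Real.exp_log (by norm_num)]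
  calc ((2 : ℝ) ^ (r * K)) ^ s * ∑ ρ : (Mt s)ˣ, ∑ A : Fin s → Vc r, ∏ t, (1 + pr P ρ A t)
      ≤ ((2 : ℝ) ^ (r * K)) ^ s * (5 * (Fintype.card (Mt s)ˣ * 2 ^ (r * s) *
        Real.exp (s * ((P.card : ℝ) / tot K s r + 1 / 20)))) :=
        mul_le_mul_of_nonneg_left h6 (by positivity)
    _ = _ := by ring

end H4.SL
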