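import Pool.Agent.H4.SL.Ec
import Pool.Agent.H4.SL.Ed
import Pool.Agent.H4.SL.Ee
import Pool.Agent.H4.SL.Gd

/-!
# Row Ha: the core of the sharp lower bound

`Λ = log (NF NS / a)`, `NF = card (Fin B → Fr K s r)`, `NS = card (St (B s) (K+1) 1)`; `P = sv v G`.
PROOF. For every `M` and `σ ∈ good (xs v M) G` the `B s` coordinates are split into non-honest and honest ones
(`Finset.card_filter_add_card_filter_not`, as in `Pool/Agent/H40/SP/Lo.lean`), and honest `τ` satisfy `(bk τ, edge (M (bk τ)) (ps τ)) ∈ P`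
(`sv_of_honest`). Summing over `M` and `σ ∈ good` and multiplying by `log 2`, with `sum_nonhonest_fr` and `sum_hit_fr`
(`S M = good (xs v M) G`, `E β = log 5 + s (card (pt P β) / tot + 1/20)`, from `spread`; the elements of `pt P β` are admissible by `mem_pt` and the definition of `sv`):
`a B s log 2 ≤ 3 w K a Λ + a (Λ + ∑ β, E β)`, and `∑ β, E β = B log 5 + B s/20 + s card P / tot` (`sum_pt`). Divide by `a`.
`Λ ≥ 0`: `a ≤ NF NS` (each `card (good ..) ≤ NS`, `Finset.card_le_univ`). `hd`: `3 w K Λ ≤ 3 w (K+1) Λ ≤ (3/16) B s log 2` and `Λ ≤ B s log 2 / 64`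
(`w ≥ 2`, `K + 1 ≥ 2`). `log 5 ≤ 2` (`5 ≤ exp 2`: `Real.quadratic_le_exp_of_nonneg`) `≤ s/20` as `s ≥ 40`. So
`s card P / tot ≥ B s ((51/64) log 2 - 1/10) ≥ (9/20) B s` (`Real.log_two_gt_d9`), `card P ≥ (9/20) B tot` and `card P ≤ card G` (`card_sv_le`).
-/

set_option autoImplicit false

namespace H4.SL

open H40.SP

variable {V : Type} [DecidableEq V] {K s r B : ℕ} {v : Fin B → Fin (K + 1) → Ix s r → V} {G : Fml V}

theorem tot_pos : 0 < tot K s r := by
  unfold tot
  positivity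

private theorem ha_log5 : Real.log 5 ≤ 2 := by
  rw [Real.log_le_iff_le_exp (by norm_num)]
  have h := Real.quadratic_le_exp_of_nonneg (x := 2) (by norm_num)
  linarith

theorem coreS (hK : 1 ≤ K) (hs : 40 ≤ s) (hr : 400 * s * 2 ^ s * 2 ^ (2 * K + 1) ≤ 2 ^ r)
    (hv : InjV v) {w : ℕ} (hkw : K + 1 ≤ w) (hw : Width w G) (hG : ∀ a, Sat G a → Sat (hf v) a) {a : ℕ}
    (ha : a = ∑ M : Fin B → Fr K s r, (good (xs v M) G).card) (ha0 : 0 < a)
    (hd : 16 * (w * (K + 1) * Real.log ((Fintype.card (Fin B → Fr K s r) : ℝ) *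
      Fintype.card (St (B * s) (K + 1) 1) / a)) ≤ B * s * Real.log 2) :
    9 / 20 * B * tot K s r ≤ G.card := by
  classical
  have haR : (0 : ℝ) < (a : ℝ) := by exact_mod_cast ha0
  have ha' : (a : ℝ) ≤ (Fintype.card (Fin B → Fr K s r) : ℝ) *
      Fintype.card (St (B * s) (K + 1) 1) := by
    have h1 : a ≤ Fintype.card (Fin B → Fr K s r) * Fintype.card (St (B * s) (K + 1) 1) := by
      rw [ha]
      refine (Finset.sum_le_sum fun M _ => Finset.card_le_univ (good (xs v M) G)).trans ?_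
      rw [Finset.sum_const, smul_eq_mul, Finset.card_univ]
    exact_mod_cast h1
  have h1 := sum_nonhonest_fr hK hv hkw hw hG ha ha0
  have h2 := sum_hit_fr (sv v G) (fun M => good (xs v M) G) ha ha0
    (fun β => Real.log 5 + s * (((pt (sv v G) β).card : ℝ) / tot K s r + 1 / 20))
    (fun β => spread hK (by omega) hr (by
      intro z hz
      rw [mem_pt] at hz
      unfold sv at hz
      rw [Finset.mem_filter] at hz
      exact hz.2.1))
  have h3 : ((sv v G).card : ℝ) ≤ G.card := by exact_mod_cast card_sv_le v G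
  obtain ⟨Λ, hΛ⟩ : ∃ Λ : ℝ, Λ = Real.log ((Fintype.card (Fin B → Fr K s r) : ℝ) *
      Fintype.card (St (B * s) (K + 1) 1) / a) := ⟨_, rfl⟩
  have hΛ0 : 0 ≤ Λ := by
    rw [hΛ]
    exact Real.log_nonneg ((one_le_div haR).2 ha')
  rw [← hΛ] at h1 h2 hd
  have hlog2 : 0.6931471803 < Real.log 2 := Real.log_two_gt_d9
  have hlog0 : 0 < Real.log 2 := by linarith
  have hE : ∑ β : Fin B, (Real.log 5 + s * (((pt (sv v G) β).card : ℝ) / tot K s r + 1 / 20)) =
      B * Real.log 5 + s * (((sv v G).card : ℝ) / tot K s r + B / 20) := by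
    have e1 : ∑ β : Fin B, ((pt (sv v G) β).card : ℝ) = ((sv v G).card : ℝ) := by
      exact_mod_cast sum_pt (sv v G)
    rw [Finset.sum_add_distrib, Finset.sum_const, ← Finset.mul_sum, Finset.sum_add_distrib,
      Finset.sum_const, ← Finset.sum_div, e1, Finset.card_univ, Fintype.card_fin]
    simp only [nsmul_eq_mul]
    ring
  rw [hE] at h2
  have h4 : ∀ M : Fin B → Fr K s r, ∀ σ ∈ good (xs v M) G, ((B * s : ℕ) : ℝ) * Real.log 2 ≤
      ((Finset.univ.filter (fun τ => ¬ Honest (xs v M) G σ τ)).card : ℝ) * Real.log 2 +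
      (hits (sv v G) M : ℝ) * Real.log 2 := by
    intro M σ _
    rw [← add_mul]
    refine mul_le_mul_of_nonneg_right ?_ hlog0.le
    have e1 := Finset.card_filter_add_card_filter_not (s := (Finset.univ : Finset (Fin (B * s))))
      (fun τ => Honest (xs v M) G σ τ)
    rw [Finset.card_univ, Fintype.card_fin] at e1
    have e2 : (Finset.univ.filter (fun τ => Honest (xs v M) G σ τ)).card ≤ hits (sv v G) M := by
      unfold hits
      refine Finset.card_le_card fun τ hτ => ?_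
      rw [Finset.mem_filter] at hτ ⊢
      exact ⟨hτ.1, sv_of_honest hv M hτ.2⟩
    have e3 : B * s ≤ (Finset.univ.filter (fun τ => ¬ Honest (xs v M) G σ τ)).card +
        hits (sv v G) M := by omega
    exact_mod_cast e3
  have h5 : ∑ M : Fin B → Fr K s r, ∑ _σ ∈ good (xs v M) G, ((B * s : ℕ) : ℝ) * Real.log 2 ≤
      ∑ M : Fin B → Fr K s r, ∑ σ ∈ good (xs v M) G,
        (((Finset.univ.filter (fun τ => ¬ Honest (xs v M) G σ τ)).card : ℝ) * Real.log 2 +
          (hits (sv v G) M : ℝ) * Real.log 2) :=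
    Finset.sum_le_sum fun M _ => Finset.sum_le_sum (h4 M)
  have h6 : ∑ M : Fin B → Fr K s r, ∑ _σ ∈ good (xs v M) G, ((B * s : ℕ) : ℝ) * Real.log 2 =
      a * (B * s * Real.log 2) := by
    have e1 : ∀ M : Fin B → Fr K s r,
        ∑ _σ ∈ good (xs v M) G, ((B * s : ℕ) : ℝ) * Real.log 2 =
          ((good (xs v M) G).card : ℝ) * (B * s * Real.log 2) := by
      intro M
      rw [Finset.sum_const, nsmul_eq_mul]
      push_cast
      ring
    rw [Finset.sum_congr rfl fun M _ => e1 M, ← Finset.sum_mul, ha]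
    push_cast
    rfl
  rw [h6] at h5
  simp only [Finset.sum_add_distrib] at h5
  have h7 : (a : ℝ) * (B * s * Real.log 2) ≤ a * (3 * w * (K * Λ) +
      (Λ + (B * Real.log 5 + s * (((sv v G).card : ℝ) / tot K s r + B / 20)))) := by
    have e1 : (3 : ℝ) * w * (K * (a * Λ)) = a * (3 * w * (K * Λ)) := by ring
    rw [e1] at h1
    rw [mul_add]
    linarith
  have h9 := le_of_mul_le_mul_left h7 haR
  have hwR : (2 : ℝ) ≤ (w : ℝ) := by exact_mod_cast (by omega : 2 ≤ w)
  have hKR : (1 : ℝ) ≤ (K : ℝ) := by exact_mod_cast hK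
  have hwk : (4 : ℝ) ≤ (w : ℝ) * (K + 1) := by nlinarith
  have hwkΛ : 4 * Λ ≤ (w : ℝ) * (K + 1) * Λ := mul_le_mul_of_nonneg_right hwk hΛ0
  have hwΛ : 0 ≤ (w : ℝ) * Λ := by positivity
  have h10 : 3 * (w : ℝ) * ((K : ℝ) * Λ) ≤ 3 * ((w : ℝ) * (K + 1) * Λ) := by nlinarith
  have hB0 : (0 : ℝ) ≤ (B : ℝ) := Nat.cast_nonneg _
  have hsR : (40 : ℝ) ≤ (s : ℝ) := by exact_mod_cast hs
  have hBs : (0 : ℝ) ≤ (B : ℝ) * s := by positivity
  have h11 : (B : ℝ) * s * 0.6931471803 ≤ (B : ℝ) * s * Real.log 2 :=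
    mul_le_mul_of_nonneg_left hlog2.le hBs
  have h12 : (B : ℝ) * Real.log 5 ≤ B * s * (1 / 20) := by
    have e1 : Real.log 5 ≤ s * (1 / 20) := by
      have := ha_log5
      linarith
    calc (B : ℝ) * Real.log 5 ≤ B * (s * (1 / 20)) := mul_le_mul_of_nonneg_left e1 hB0
      _ = B * s * (1 / 20) := by ring
  have h13 : (s : ℝ) * (((sv v G).card : ℝ) / tot K s r + B / 20) =
      s * (((sv v G).card : ℝ) / tot K s r) + B * s * (1 / 20) := by ring
  rw [h13] at h9
  have h14 : (s : ℝ) * (9 / 20 * B) ≤ s * (((sv v G).card : ℝ) / tot K s r) := by linarith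
  have h15 : 9 / 20 * (B : ℝ) ≤ ((sv v G).card : ℝ) / tot K s r :=
    le_of_mul_le_mul_left h14 (by linarith)
  rw [le_div_iff₀ tot_pos] at h15
  exact h15.trans h3

end H4.SL
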