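import Pool.Agent.H4.SL.Ha

/-!
# Row Hb: the hard formula is not sparse

PROOF. As `Pool/Agent/H40/SP/Lp.lean`. Let `𝒢` be as in `Sparse`. Every pair `(M, σ)` has `Sat (hf v) (asg (xs v M) σ)` (`sat_hf`), so `σ ∈ good (xs v M) G` for some
`G ∈ 𝒢`. Hence `NF NS ≤ ∑_(G ∈ 𝒢) a_G`, `a_G = ∑_M card (good (xs v M) G)` (for each `M`: `univ ⊆ 𝒢.biUnion (good (xs v M))`, `Finset.card_biUnion_le`; sum over `M` and
exchange the sums). `NF NS > 0` (`Fr K s r` is nonempty: `ρ = 1`; `Fintype.card_pos`). So there is `G ∈ 𝒢` with `NF NS ≤ card 𝒢 * a_G`, in particular `a_G > 0` and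
`NF NS / a_G ≤ card 𝒢 ≤ m ≤ 2^(B s / (16 w (K+1)))`, so `16 w (K+1) log (NF NS / a_G) ≤ B s log 2`. `coreS` gives `(9/20) B tot ≤ card G ≤ L`, contradiction.
-/

set_option autoImplicit false

namespace H4.SL

open H40.SP

variable {V : Type} [DecidableEq V] {K s r B : ℕ} {v : Fin B → Fin (K + 1) → Ix s r → V}

theorem not_sparse_hf (hK : 1 ≤ K) (hs : 40 ≤ s) (hr : 400 * s * 2 ^ s * 2 ^ (2 * K + 1) ≤ 2 ^ r)
    (hv : InjV v) {w : ℕ} (hkw : K + 1 ≤ w) {m L : ℝ}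
    (hm : m ≤ (2 : ℝ) ^ ((B : ℝ) * s / (16 * (w * (K + 1))))) (hL : L < 9 / 20 * B * tot K s r) :
    ¬ Sparse (hf v) w m L := by
  rintro ⟨𝒢, hcard, hG, hiff⟩
  have hFr : 0 < Fintype.card (Fin B → Fr K s r) :=
    Fintype.card_pos_iff.2 ⟨fun _ => (1, fun _ => 0, fun _ _ => 0)⟩
  have hSt : 0 < Fintype.card (St (B * s) (K + 1) 1) := Fintype.card_pos
  obtain ⟨NT, hNT⟩ : ∃ NT : ℕ, NT = Fintype.card (Fin B → Fr K s r) *
      Fintype.card (St (B * s) (K + 1) 1) := ⟨_, rfl⟩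
  have hNT0 : 0 < NT := by rw [hNT]; exact Nat.mul_pos hFr hSt
  have hcover : ∀ (M : Fin B → Fr K s r) (σ : St (B * s) (K + 1) 1), ∃ G ∈ 𝒢,
      σ ∈ good (xs v M) G := by
    intro M σ
    obtain ⟨G, hG1, hG2⟩ := (hiff (asg (xs v M) σ)).1 (sat_hf hv M σ)
    refine ⟨G, hG1, ?_⟩
    unfold good
    simp only [Finset.mem_filter, Finset.mem_univ, true_and]
    exact hG2
  have h1 : NT ≤ ∑ G ∈ 𝒢, ∑ M : Fin B → Fr K s r, (good (xs v M) G).card := by
    rw [Finset.sum_comm, hNT]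
    have h2 : ∀ M : Fin B → Fr K s r, Fintype.card (St (B * s) (K + 1) 1) ≤
        ∑ G ∈ 𝒢, (good (xs v M) G).card := by
      intro M
      have h3 : (Finset.univ : Finset (St (B * s) (K + 1) 1)) ⊆ 𝒢.biUnion (good (xs v M)) := by
        intro σ _
        obtain ⟨G, h3, h4⟩ := hcover M σ
        exact Finset.mem_biUnion.2 ⟨G, h3, h4⟩
      exact (Finset.card_le_card h3).trans Finset.card_biUnion_le
    calc Fintype.card (Fin B → Fr K s r) * Fintype.card (St (B * s) (K + 1) 1)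
        = ∑ _M : Fin B → Fr K s r, Fintype.card (St (B * s) (K + 1) 1) := by
          rw [Finset.sum_const, Finset.card_univ, smul_eq_mul]
      _ ≤ _ := Finset.sum_le_sum fun M _ => h2 M
  have h5 : ∃ G ∈ 𝒢, NT ≤ 𝒢.card * ∑ M : Fin B → Fr K s r, (good (xs v M) G).card := by
    by_contra hcon
    push Not at hcon
    have hne : 𝒢.Nonempty := by
      obtain ⟨M⟩ : Nonempty (Fin B → Fr K s r) := Fintype.card_pos_iff.1 hFr
      obtain ⟨σ⟩ : Nonempty (St (B * s) (K + 1) 1) := Fintype.card_pos_iff.1 hSt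
      obtain ⟨G, h3, -⟩ := hcover M σ
      exact ⟨G, h3⟩
    have h6 : ∑ G ∈ 𝒢, 𝒢.card * ∑ M : Fin B → Fr K s r, (good (xs v M) G).card <
        ∑ _G ∈ 𝒢, NT := Finset.sum_lt_sum_of_nonempty hne hcon
    rw [← Finset.mul_sum, Finset.sum_const, smul_eq_mul] at h6
    exact absurd (Nat.mul_le_mul_left 𝒢.card h1) (not_le.2 h6)
  obtain ⟨G, hG1, hG2⟩ := h5
  obtain ⟨a, ha⟩ : ∃ a : ℕ, a = ∑ M : Fin B → Fr K s r, (good (xs v M) G).card := ⟨_, rfl⟩
  rw [← ha] at hG2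
  have hapos : 0 < a := by
    rcases Nat.eq_zero_or_pos a with h | h
    · rw [h, mul_zero] at hG2
      omega
    · exact h
  have hk0 : (0 : ℝ) < (K : ℝ) + 1 := by positivity
  have hw0 : (0 : ℝ) < w := by exact_mod_cast (by omega : 0 < w)
  have ha' : (0 : ℝ) < a := by exact_mod_cast hapos
  have hNT' : (0 : ℝ) < NT := by exact_mod_cast hNT0
  have hNTr : (NT : ℝ) = (Fintype.card (Fin B → Fr K s r) : ℝ) *
      Fintype.card (St (B * s) (K + 1) 1) := by rw [hNT]; push_cast; rfl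
  have hratio : (NT : ℝ) / a ≤ (2 : ℝ) ^ ((B : ℝ) * s / (16 * (w * (K + 1)))) := by
    rw [div_le_iff₀ ha']
    calc (NT : ℝ) ≤ 𝒢.card * a := by exact_mod_cast hG2
      _ ≤ _ := mul_le_mul_of_nonneg_right (hcard.trans hm) ha'.le
  have hlog := Real.log_le_log (div_pos hNT' ha') hratio
  rw [Real.log_rpow (by norm_num)] at hlog
  have hd : 16 * (w * ((K : ℝ) + 1) * Real.log ((NT : ℝ) / a)) ≤ B * s * Real.log 2 := by
    calc 16 * (w * ((K : ℝ) + 1) * Real.log ((NT : ℝ) / a)) ≤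
        16 * (w * ((K : ℝ) + 1) * ((B : ℝ) * s / (16 * (w * (K + 1))) * Real.log 2)) := by gcongr
      _ = B * s * Real.log 2 := by field_simp
  rw [hNTr] at hd
  have hcore := coreS hK hs hr hv hkw (hG G hG1).1 (fun a ha => (hiff a).2 ⟨G, hG1, ha⟩)
    ha hapos hd
  have h8 := (hG G hG1).2
  linarith

end H4.SL
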