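import Pool.Agent.H4.SL.Hb
import Pool.Agent.H4.SL.Eb

/-!
# Row Hc: the choice of the parameters

PROOF. `exists_injV`: `Ix s r ≃ Fin (2^(s+r))` (`Fintype.equivFinOfCardEq`), then as `H40.SP.exists_inj` in `Pool/Agent/H40/SP/Lq.lean`:
`v t q i = Fin.castLE h (finProdFinEquiv (t, finProdFinEquiv (q, e i)))`.
`exists_s`: given `y > 0` (`y = 32 w k^2 ε 2^(2K+10)`) with `y 8^40 ≤ 40` there is `s ≥ 40` with `y 8^s ≤ s` and `s + 1 < y 8^(s+1)`: the set of the `s ≥ 40` with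
`s < y 8^s` is nonempty (`8^s ≥ 2^s 4^s ≥ s 4^s` and `y 4^s > 1` for large `s`); take the least element `s1` (`Nat.find`); `s1 ≠ 40`; `s = s1 - 1`.
`lowerS`: `k = K + 1`, `C = 40960`, `D = w k^2 2^(2K+140)`, `ε₀ = 1/D^2`. Let `0 < ε ≤ ε₀`. `y = 32 w k^2 ε 2^(2K+10)`: `y 8^40 = w k^2 2^(2K+135) ε ≤ D ε ≤ 1/D ≤ 40`. Take `s`
from `exists_s`, `r = 2 s + 2 K + 10` (`hr`: `400 ≤ 2^9`, `s ≤ 2^s`), `N = 2^(s+r) = 2^(3s+2K+10)`, so `y 8^s = 32 w k^2 ε N ≤ s` (i) and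
`s + 1 < 256 w k^2 ε N` (ii). `n₀ = k N`; for `n ≥ n₀` let `B = n / (k N) ≥ 1`, `B k N ≤ n ≤ 2 B k N`; `v` from `exists_injV`; `F = hf v` (`width_hf`).
`not_sparse_hf` with `m = 2^(ε n)`: `ε n ≤ 2 ε B k N ≤ B s / (16 w k)` by (i). `tot = N (N/2)^K` (`2^((s+r-1) K) = (2^(s+r-1))^K`).
`hL`: `log (1/ε) ≤ 6 s log 2 ≤ 5 s ≤ 5 (s+1)`: by (ii) `1/ε < 256 w k^2 N / (s+1) ≤ D 8^s` and `D ≤ ε^(-1/2)`, i.e. `D^2 ≤ 1/ε`; so `(1/ε)^2 < D^2 8^(2s) ≤ (1/ε) 8^(2s)`, `1/ε < 8^(2s)`,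
`log (1/ε) ≤ 6 s log 2` and `log 2 < 0.7`. Hence `log (1/ε)/(40960 w k^2 ε) ≤ 5 (s+1)/(40960 w k^2 ε) < 5 * 256 N/40960 = N/32` by (ii). So
`L = (..)^K n ≤ (N/32)^K 2 B k N < (9/20) B N (N/2)^K = (9/20) B N 16^K (N/32)^K` because `40 (K+1) < 9 * 16^K` for `K ≥ 1`.
-/

set_option autoImplicit false

namespace H4.SL

open H40.SP

private lemma Hc_num {K : ℕ} (hK : 1 ≤ K) : 40 * (K + 1) < 9 * 16 ^ K := by
  induction K, hK using Nat.le_induction with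
  | base => norm_num
  | succ m _ ih =>
    rw [pow_succ]
    omega

theorem exists_injV {n B K s r : ℕ} (h : B * ((K + 1) * 2 ^ (s + r)) ≤ n) :
    ∃ v : Fin B → Fin (K + 1) → Ix s r → Fin n, InjV v := by
  have hc : Fintype.card (Ix s r) = 2 ^ (s + r) := by
    rw [Fintype.card_prod, Fintype.card_fun, Fintype.card_fun, ZMod.card, Fintype.card_fin,
      Fintype.card_fin, pow_add]
  have e : Ix s r ≃ Fin (2 ^ (s + r)) := Fintype.equivFinOfCardEq hc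
  refine ⟨fun t q i => Fin.castLE h (finProdFinEquiv (t, finProdFinEquiv (q, e i))), ?_⟩
  intro t q i t' q' i' he
  have h1 := Fin.castLE_injective h he
  have h2 := finProdFinEquiv.injective h1
  have h3 := (Prod.mk.injEq _ _ _ _).mp h2
  have h4 := finProdFinEquiv.injective h3.2
  have h5 := (Prod.mk.injEq _ _ _ _).mp h4
  exact ⟨h3.1, h5.1, e.injective h5.2⟩

theorem exists_s {y : ℝ} (hy : 0 < y) (h : y * 8 ^ 40 ≤ 40) :
    ∃ s : ℕ, 40 ≤ s ∧ y * 8 ^ s ≤ s ∧ (s : ℝ) + 1 < y * 8 ^ (s + 1) := by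
  classical
  have hex : ∃ s : ℕ, 40 ≤ s ∧ (s : ℝ) < y * 8 ^ s := by
    obtain ⟨m, hm⟩ := pow_unbounded_of_one_lt (1 / y) (by norm_num : (1 : ℝ) < 4)
    refine ⟨max 40 m, le_max_left _ _, ?_⟩
    set s : ℕ := max 40 m with hs
    have h1 : (1 : ℝ) < y * 4 ^ s := by
      have h2 : (4 : ℝ) ^ m ≤ 4 ^ s := pow_le_pow_right₀ (by norm_num) (le_max_right _ _)
      rw [div_lt_iff₀ hy] at hm
      nlinarith
    have h3 : (s : ℝ) < 2 ^ s := by exact_mod_cast Nat.lt_two_pow_self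
    have e : (8 : ℝ) ^ s = 4 ^ s * 2 ^ s := by
      rw [← mul_pow]
      norm_num
    rw [e, ← mul_assoc]
    have h4 : (0 : ℝ) < 2 ^ s := by positivity
    nlinarith
  have h1 := Nat.find_spec hex
  have h2 : ∀ m < Nat.find hex, ¬ (40 ≤ m ∧ (m : ℝ) < y * 8 ^ m) := fun m hm => Nat.find_min hex hm
  set s1 : ℕ := Nat.find hex with hs1
  have h3 : s1 ≠ 40 := by
    intro h4
    rw [h4] at h1
    have := h1.2
    push_cast at this
    linarith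
  have h1' := h1.1
  obtain ⟨s, hs⟩ : ∃ s, s1 = s + 1 := ⟨s1 - 1, by omega⟩
  rw [hs] at h1 h1' h2 h3
  refine ⟨s, by omega, ?_, ?_⟩
  · by_contra hcon
    exact h2 s (by omega) ⟨by omega, not_le.1 hcon⟩
  · have := h1.2
    push_cast at this
    exact this

private lemma Hc_log {w k K s : ℕ} {ε D : ℝ} (hw : 1 ≤ w) (hk : 1 ≤ k)
    (hD : D = w * k ^ 2 * 2 ^ (2 * K + 140)) (hε : 0 < ε) (hε0 : ε ≤ 1 / D ^ 2)
    (h : (s : ℝ) + 1 < 256 * w * k ^ 2 * ε * (8 ^ s * 2 ^ (2 * K + 10))) :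
    Real.log (1 / ε) ≤ 5 * (s + 1) := by
  have hw0 : (0 : ℝ) < w := by exact_mod_cast hw
  have hk0 : (0 : ℝ) < k := by exact_mod_cast hk
  have hD0 : 0 < D := by
    rw [hD]
    positivity
  have h8 : (0 : ℝ) < 8 ^ s := by positivity
  have h1 : 1 / ε < D * 8 ^ s := by
    rw [div_lt_iff₀ hε]
    have h2 : (1 : ℝ) ≤ s + 1 := by
      have : (0 : ℝ) ≤ s := Nat.cast_nonneg s
      linarith
    have h3 : 256 * (w : ℝ) * k ^ 2 * ε * (8 ^ s * 2 ^ (2 * K + 10)) ≤ D * 8 ^ s * ε := by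
      have e : D = 256 * (w : ℝ) * k ^ 2 * 2 ^ (2 * K + 10) * 2 ^ 122 := by
        rw [hD]
        have e1 : 2 * K + 140 = (2 * K + 10) + 130 := by ring
        rw [e1, pow_add]
        ring
      rw [e]
      have h4 : (1 : ℝ) ≤ 2 ^ 122 := by norm_num
      have h5 : (0 : ℝ) ≤ 256 * (w : ℝ) * k ^ 2 * ε * (8 ^ s * 2 ^ (2 * K + 10)) := by positivity
      calc 256 * (w : ℝ) * k ^ 2 * ε * (8 ^ s * 2 ^ (2 * K + 10))
          = 256 * (w : ℝ) * k ^ 2 * ε * (8 ^ s * 2 ^ (2 * K + 10)) * 1 := (mul_one _).symm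
        _ ≤ 256 * (w : ℝ) * k ^ 2 * ε * (8 ^ s * 2 ^ (2 * K + 10)) * 2 ^ 122 :=
            mul_le_mul_of_nonneg_left h4 h5
        _ = 256 * (w : ℝ) * k ^ 2 * 2 ^ (2 * K + 10) * 2 ^ 122 * 8 ^ s * ε := by ring
    linarith
  have h2 : D ^ 2 ≤ 1 / ε := by
    rw [le_div_iff₀ (by positivity)] at hε0
    rw [le_div_iff₀ hε]
    linarith
  have h3 : 0 < 1 / ε := by positivity
  have h4 : 1 / ε < (8 ^ s) ^ 2 := by
    have h5 : (1 / ε) ^ 2 < (D * 8 ^ s) ^ 2 := pow_lt_pow_left₀ h1 h3.le (by norm_num)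
    rw [mul_pow] at h5
    have h6 : D ^ 2 * (8 ^ s) ^ 2 ≤ 1 / ε * (8 ^ s) ^ 2 :=
      mul_le_mul_of_nonneg_right h2 (by positivity)
    have h7 : 1 / ε * (1 / ε) < 1 / ε * (8 ^ s) ^ 2 := by
      calc 1 / ε * (1 / ε) = (1 / ε) ^ 2 := (sq _).symm
        _ < _ := lt_of_lt_of_le h5 h6
    exact lt_of_mul_lt_mul_left h7 h3.le
  have h5 : Real.log (1 / ε) ≤ Real.log ((8 ^ s) ^ 2) := Real.log_le_log h3 h4.le
  have h6 : Real.log (((8 : ℝ) ^ s) ^ 2) = 6 * s * Real.log 2 := by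
    have e : ((8 : ℝ) ^ s) ^ 2 = 2 ^ (6 * s) := by
      rw [← pow_mul, show (8 : ℝ) = 2 ^ 3 by norm_num, ← pow_mul]
      congr 1
      ring
    rw [e, Real.log_pow]
    push_cast
    ring
  have h7 := Real.log_two_lt_d9
  have hs0 : (0 : ℝ) ≤ s := Nat.cast_nonneg s
  rw [h6] at h5
  nlinarith

theorem lowerS : ∃ C : ℝ, 0 < C ∧ ∀ k w : ℕ, 2 ≤ k → k ≤ w → ∃ ε₀ : ℝ, 0 < ε₀ ∧ ∀ ε : ℝ, 0 < ε → ε ≤ ε₀ →
    ∃ n₀ : ℕ, ∀ n ≥ n₀, ∃ F : Fml (Fin n), Width k F ∧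
      ¬ Sparse F w ((2 : ℝ) ^ (ε * n)) ((Real.log (1 / ε) / (C * w * k ^ 2 * ε)) ^ (k - 1) * n) := by
  refine ⟨40960, by norm_num, ?_⟩
  intro k w hk hkw
  obtain ⟨K, rfl⟩ : ∃ K, k = K + 1 := ⟨k - 1, by omega⟩
  have hK : 1 ≤ K := by omega
  have hw : 1 ≤ w := by omega
  have hw0 : (0 : ℝ) < w := by exact_mod_cast hw
  have hk0 : (0 : ℝ) < ((K + 1 : ℕ) : ℝ) := by positivity
  obtain ⟨D, hD⟩ : ∃ D : ℝ, D = w * ((K + 1 : ℕ) : ℝ) ^ 2 * 2 ^ (2 * K + 140) := ⟨_, rfl⟩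
  have hw1 : (1 : ℝ) ≤ w := by exact_mod_cast hw
  have hk1 : (1 : ℝ) ≤ ((K + 1 : ℕ) : ℝ) := by
    have : 1 ≤ K + 1 := by omega
    exact_mod_cast this
  have hD1 : 1 ≤ D := by
    rw [hD]
    have h1 : (1 : ℝ) ≤ ((K + 1 : ℕ) : ℝ) ^ 2 := one_le_pow₀ hk1
    have h2 : (1 : ℝ) ≤ 2 ^ (2 * K + 140) := one_le_pow₀ (by norm_num)
    exact one_le_mul_of_one_le_of_one_le (one_le_mul_of_one_le_of_one_le hw1 h1) h2
  have hD0 : 0 < D := by linarith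
  refine ⟨1 / D ^ 2, by positivity, ?_⟩
  intro ε hε hε0
  have hDε : D * ε ≤ 1 := by
    have h1 : D * ε ≤ D * (1 / D ^ 2) := mul_le_mul_of_nonneg_left hε0 hD0.le
    have h2 : D * (1 / D ^ 2) = 1 / D := by
      field_simp
    rw [h2] at h1
    have h3 : 1 / D ≤ 1 := by
      rw [div_le_one hD0]
      exact hD1
    linarith
  have hε1 : ε ≤ 1 := by nlinarith
  obtain ⟨y, hy⟩ : ∃ y : ℝ, y = 32 * w * ((K + 1 : ℕ) : ℝ) ^ 2 * ε * 2 ^ (2 * K + 10) := ⟨_, rfl⟩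
  have hy0 : 0 < y := by
    rw [hy]
    positivity
  have hy40 : y * 8 ^ 40 ≤ 40 := by
    have e : y * 8 ^ 40 * 32 = D * ε := by
      rw [hy, hD]
      have e1 : 2 * K + 140 = (2 * K + 10) + 130 := by ring
      rw [e1, pow_add]
      ring
    linarith
  obtain ⟨s, hs, hs1, hs2⟩ := exists_s hy0 hy40
  obtain ⟨r, hr⟩ : ∃ r : ℕ, r = 2 * s + 2 * K + 10 := ⟨_, rfl⟩
  obtain ⟨N, hN⟩ : ∃ N : ℕ, N = 2 ^ (s + r) := ⟨_, rfl⟩
  have hN0 : 0 < N := by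
    rw [hN]
    positivity
  have hNr : (0 : ℝ) < N := by exact_mod_cast hN0
  have hN8 : (N : ℝ) = 8 ^ s * 2 ^ (2 * K + 10) := by
    rw [hN, hr]
    push_cast
    have e : s + (2 * s + 2 * K + 10) = 3 * s + (2 * K + 10) := by ring
    rw [e, pow_add, pow_mul]
    norm_num
  have hi : 32 * w * ((K + 1 : ℕ) : ℝ) ^ 2 * ε * N ≤ s := by
    have e : 32 * w * ((K + 1 : ℕ) : ℝ) ^ 2 * ε * N = y * 8 ^ s := by
      rw [hy, hN8]
      ring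
    rw [e]
    exact hs1
  have hii : (s : ℝ) + 1 < 256 * w * ((K + 1 : ℕ) : ℝ) ^ 2 * ε * (8 ^ s * 2 ^ (2 * K + 10)) := by
    have e : 256 * w * ((K + 1 : ℕ) : ℝ) ^ 2 * ε * (8 ^ s * 2 ^ (2 * K + 10)) = y * 8 ^ (s + 1) := by
      rw [hy, pow_succ]
      ring
    rw [e]
    exact hs2
  have hlog : Real.log (1 / ε) ≤ 5 * (s + 1) := Hc_log hw (by omega) hD hε hε0 hii
  rw [← hN8] at hii
  have hr' : 400 * s * 2 ^ s * 2 ^ (2 * K + 1) ≤ 2 ^ r := by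
    have h1 : s ≤ 2 ^ s := Nat.lt_two_pow_self.le
    have e : 2 ^ r = 2 ^ 9 * 2 ^ s * 2 ^ s * 2 ^ (2 * K + 1) := by
      rw [hr, ← pow_add, ← pow_add, ← pow_add]
      congr 1
      ring
    rw [e]
    refine Nat.mul_le_mul_right _ (Nat.mul_le_mul_right _ ?_)
    exact Nat.mul_le_mul (by norm_num) h1
  have hkN : 0 < (K + 1) * N := Nat.mul_pos (by omega) hN0
  refine ⟨(K + 1) * N, fun n hn => ?_⟩
  obtain ⟨B, hB⟩ : ∃ B : ℕ, B = n / ((K + 1) * N) := ⟨_, rfl⟩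
  have hB1 : 1 ≤ B := by
    rw [hB]
    exact (Nat.one_le_div_iff hkN).2 hn
  have hBn : B * ((K + 1) * N) ≤ n := by
    rw [hB]
    exact Nat.div_mul_le_self n _
  have hnB : n < (B + 1) * ((K + 1) * N) := by
    rw [hB]
    have := Nat.lt_div_mul_add (a := n) hkN
    calc n < n / ((K + 1) * N) * ((K + 1) * N) + (K + 1) * N := this
      _ = (n / ((K + 1) * N) + 1) * ((K + 1) * N) := by ring
  have hn2 : (n : ℝ) ≤ 2 * B * ((K + 1 : ℕ) : ℝ) * N := by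
    have h1 : n ≤ 2 * B * (K + 1) * N := by
      have h2 : (B + 1) * ((K + 1) * N) ≤ (2 * B) * ((K + 1) * N) :=
        Nat.mul_le_mul_right _ (by omega)
      calc n ≤ (2 * B) * ((K + 1) * N) := by omega
        _ = 2 * B * (K + 1) * N := by ring
    exact_mod_cast h1
  have hB0 : (0 : ℝ) < B := by exact_mod_cast hB1
  have hBn' : B * ((K + 1) * 2 ^ (s + r)) ≤ n := by
    rw [← hN]
    exact hBn
  obtain ⟨v, hv⟩ := exists_injV hBn'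
  refine ⟨hf v, width_hf v, not_sparse_hf hK hs hr' hv hkw ?_ ?_⟩
  · apply Real.rpow_le_rpow_of_exponent_le (by norm_num)
    rw [le_div_iff₀ (by positivity)]
    have h3 : ε * n ≤ ε * (2 * B * ((K + 1 : ℕ) : ℝ) * N) := mul_le_mul_of_nonneg_left hn2 hε.le
    have h4 : (0 : ℝ) ≤ 16 * (w * ((K + 1 : ℕ) : ℝ)) := by positivity
    have h5 := mul_le_mul_of_nonneg_right h3 h4
    have h6 := mul_le_mul_of_nonneg_right hi hB0.le
    push_cast at h5 h6 ⊢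
    nlinarith
  · have hk2 : K + 1 - 1 = K := by omega
    rw [hk2]
    have hden : 0 < 40960 * (w : ℝ) * ((K + 1 : ℕ) : ℝ) ^ 2 * ε := by positivity
    have hl0 : 0 ≤ Real.log (1 / ε) := by
      apply Real.log_nonneg
      rw [le_div_iff₀ hε]
      linarith
    have h1 : Real.log (1 / ε) / (40960 * (w : ℝ) * ((K + 1 : ℕ) : ℝ) ^ 2 * ε) ≤ N / 32 := by
      rw [div_le_iff₀ hden]
      calc Real.log (1 / ε) ≤ 5 * (s + 1) := hlog
        _ ≤ 5 * (256 * w * ((K + 1 : ℕ) : ℝ) ^ 2 * ε * N) := by linarith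
        _ = N / 32 * (40960 * (w : ℝ) * ((K + 1 : ℕ) : ℝ) ^ 2 * ε) := by ring
    have h2 : 0 ≤ Real.log (1 / ε) / (40960 * (w : ℝ) * ((K + 1 : ℕ) : ℝ) ^ 2 * ε) :=
      div_nonneg hl0 hden.le
    have h3 : (40 : ℝ) * ((K + 1 : ℕ) : ℝ) < 9 * 16 ^ K := by exact_mod_cast Hc_num hK
    have htot : tot K s r = N * (N / 2) ^ K := by
      have e1 : (N : ℝ) = 2 ^ (s + r) := by
        rw [hN]
        push_cast
        rfl
      have e2 : (N : ℝ) / 2 = 2 ^ (s + r - 1) := by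
        have e3 : s + r = (s + r - 1) + 1 := by omega
        rw [e1]
        conv_lhs => rw [e3]
        rw [pow_succ]
        ring
      rw [e2, e1, ← pow_mul]
      rfl
    have e4 : ((N : ℝ) / 2) ^ K = 16 ^ K * (N / 32) ^ K := by
      rw [← mul_pow]
      congr 1
      ring
    rw [htot, e4]
    have h5 : (0 : ℝ) < (N / 32) ^ K := by positivity
    calc (Real.log (1 / ε) / (40960 * (w : ℝ) * ((K + 1 : ℕ) : ℝ) ^ 2 * ε)) ^ K * n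
        ≤ (N / 32) ^ K * (2 * B * ((K + 1 : ℕ) : ℝ) * N) :=
          mul_le_mul (pow_le_pow_left₀ h2 h1 _) hn2 (Nat.cast_nonneg _) h5.le
      _ = (B * N * (N / 32) ^ K / 20) * (40 * ((K + 1 : ℕ) : ℝ)) := by ring
      _ < (B * N * (N / 32) ^ K / 20) * (9 * 16 ^ K) :=
          mul_lt_mul_of_pos_left h3 (by positivity)
      _ = 9 / 20 * B * (N * (16 ^ K * (N / 32) ^ K)) := by ring

end H4.SL
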