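import Pool.Agent.H4.SL.Defs

/-!
# Arbitrary clause width: definitions

Forbidden cylinders on `[k]^N`, the accepted points, sensitive coordinates, subcubes; and the cylinders defined by the
clauses of a CNF on the cube of a family of frames.
-/

set_option autoImplicit false

namespace H4.SL

open H40.SP

variable {N k : ℕ}

/-- a forbidden cylinder -/
abbrev Cst (N k : ℕ) : Type := Fin N → Finset (Fin k)

/-- `j` is in the forbidden cylinder -/
def Vio (Z : Cst N k) (j : Fin N → Fin k) : Prop := ∀ τ, j τ ∈ Z τ

/-- the support -/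
def Sup (Z : Cst N k) : Finset (Fin N) := Finset.univ.filter (fun τ => Z τ ≠ Finset.univ)

open Classical in
/-- the accepted points -/
noncomputable def Acc (𝒵 : Finset (Cst N k)) : Finset (Fin N → Fin k) :=
  Finset.univ.filter (fun j => ∀ Z ∈ 𝒵, ¬ Vio Z j)

/-- the coordinate `τ` is sensitive at `j` -/
def Sen (𝒵 : Finset (Cst N k)) (j : Fin N → Fin k) (τ : Fin N) : Prop :=
  ∃ Z ∈ 𝒵, ∃ p, Vio Z (Function.update j τ p)

open Classical in
/-- the number of sensitive coordinates -/
noncomputable def sen (𝒵 : Finset (Cst N k)) (j : Fin N → Fin k) : ℕ :=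
  (Finset.univ.filter (fun τ => Sen 𝒵 j τ)).card

open Classical in
/-- the values at `t` which are allowed by the cylinders not touching `T` outside `t` -/
noncomputable def lc (𝒵 : Finset (Cst N k)) (T : Finset (Fin N)) (j : Fin N → Fin k) (t : Fin N) :
    Finset (Fin k) :=
  Finset.univ.filter (fun ω => ∀ Z ∈ 𝒵, (∀ s ∈ T, s ≠ t → s ∉ Sup Z) → ¬ Vio Z (Function.update j t ω))

/-- fix the coordinates in `D` -/
def pj (D : Finset (Fin N)) (a j : Fin N → Fin k) : Fin N → Fin k := fun τ => if τ ∈ D then a τ else j τ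

/-- the subcube `(D, a)` of `A`, extended by free coordinates -/
def ext (A : Finset (Fin N → Fin k)) (D : Finset (Fin N)) (a : Fin N → Fin k) : Finset (Fin N → Fin k) :=
  Finset.univ.filter (fun j => pj D a j ∈ A)

/-- the cylinder with the coordinates in `D` made free -/
def rst (D : Finset (Fin N)) (Z : Cst N k) : Cst N k := fun τ => if τ ∈ D then Finset.univ else Z τ

/-- the cylinders of the subcube `(D, a)` -/
def rs (𝒵 : Finset (Cst N k)) (D : Finset (Fin N)) (a : Fin N → Fin k) : Finset (Cst N k) :=
  (𝒵.filter (fun Z => ∀ τ ∈ D, a τ ∈ Z τ)).image (rst D)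

variable {V : Type} {K s r B : ℕ}

/-- the variables of the edges of the frames -/
def fv (v : Fin B → Fin (K + 1) → Ix s r → V) (M : Fin B → Fr K s r) (τ : Fin (B * s)) (q : Fin (K + 1)) : V :=
  v (bk τ) q (edge (M (bk τ)) (ps τ) q)

open Classical in
/-- the forbidden cylinder of a clause on the cube of `M` -/
noncomputable def cst (v : Fin B → Fin (K + 1) → Ix s r → V) (M : Fin B → Fr K s r) (C : Finset (V × Bool)) :
    Cst (B * s) (K + 1) :=
  fun τ => Finset.univ.filter (fun p => ∀ q, ((fv v M τ q, true) ∈ C → q = p) ∧ ((fv v M τ q, false) ∈ C → q ≠ p))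

/-- all negated variables of the clause are variables of the frames -/
def Alive (v : Fin B → Fin (K + 1) → Ix s r → V) (M : Fin B → Fr K s r) (C : Finset (V × Bool)) : Prop :=
  ∀ y, (y, false) ∈ C → ∃ τ q, y = fv v M τ q

open Classical in
/-- the forbidden cylinders of `G` on the cube of `M` -/
noncomputable def zf (v : Fin B → Fin (K + 1) → Ix s r → V) (M : Fin B → Fr K s r) (G : Fml V) :
    Finset (Cst (B * s) (K + 1)) :=
  (G.filter (fun C => Alive v M C)).image (cst v M)

/-- the state with the missing vertices `j` -/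
def stt (j : Fin (B * s) → Fin (K + 1)) : St (B * s) (K + 1) 1 := fun τ => (j τ, fun _ => 0)

end H4.SL
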