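import Pool.Agent.H4.SL.W0
import Pool.Agent.H40.SP.Lg
import Pool.Agent.H40.SP.Lh

/-!
# Row Wa: cylinders and one set `T` of coordinates

PROOF. As `Pool/Agent/H40/SP/Le.lean`, `Li.lean` (`sum_nb_le`), with `ι = Fin N`, `Ω = Fin k`.
`mem_lc`: `Function.update j t (j t) = j` and `j ∈ Acc 𝒵`.
`lc_update`: for `s ∈ T`, `s ≠ t`, the value of `j` at `s` does not matter: a cylinder `Z` occurring in the definition has `s ∉ Sup Z`, so
`Z s = univ`, and `Vio Z (update (update j s ω) t ω')` iff `Vio Z (update j t ω')` (check coordinatewise: `τ = t`, `τ = s`, other).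
`lc_update_self`: `Function.update_idem`.
`sum_lc_le`: `h t j = if j t ∈ lc 𝒵 T j t then 1 + (k - card (lc 𝒵 T j t)) / (k - 1) else 0`. With `c = card (lc ..)`, `0 ≤ c ≤ k`:
`∑ ω, h t (update j t ω) = c (1 + (k - c)/(k - 1)) ≤ k`, because `k (k-1) - c (2k - 1 - c) = (k - c)(k - 1 - c) ≥ 0` for integers `c ≤ k` (`c = k` or `c ≤ k - 1`).
`prod_lemma` (`Pool/Agent/H40/SP/Lg.lean`): `∑_j ∏_(t ∈ T) h t j ≤ card (Fin N → Fin k) = k^N`. On `A` all `j t ∈ lc` (`mem_lc`), so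
`sum_log_le` (`Lh.lean`): `∑_(j ∈ A) ∑_(t ∈ T) log (1 + (k - c)/(k-1)) ≤ card A * log (k^N / card A)`, and `log (1 + y) ≥ y log 2` for `y = (k - c)/(k - 1) ∈ [0, 1]`
(`c ≥ 1` on `A`; `mul_log_two_le`). Multiply by `k - 1`.
-/

set_option autoImplicit false

namespace H4.SL

open H40.SP

variable {N k : ℕ}

theorem mem_lc {𝒵 : Finset (Cst N k)} {j : Fin N → Fin k} (hj : j ∈ Acc 𝒵) (T : Finset (Fin N)) (t : Fin N) :
    j t ∈ lc 𝒵 T j t := by
  classical
  have h1 : ∀ Z ∈ 𝒵, ¬ Vio Z j := (Finset.mem_filter.1 hj).2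
  unfold lc
  rw [Finset.mem_filter]
  refine ⟨Finset.mem_univ _, fun Z hZ _ => ?_⟩
  rw [Function.update_eq_self]
  exact h1 Z hZ

theorem lc_update (𝒵 : Finset (Cst N k)) (T : Finset (Fin N)) {s t : Fin N} (hs : s ∈ T) (hst : s ≠ t) (ω : Fin k)
    (j : Fin N → Fin k) : lc 𝒵 T (Function.update j s ω) t = lc 𝒵 T j t := by
  classical
  unfold lc
  apply Finset.filter_congr
  intro ω' _
  have key : ∀ Z : Cst N k, s ∉ Sup Z →
      (Vio Z (Function.update (Function.update j s ω) t ω') ↔ Vio Z (Function.update j t ω')) := by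
    intro Z hZ
    have hZ' : Z s = Finset.univ := by
      by_contra hcon
      exact hZ (Finset.mem_filter.2 ⟨Finset.mem_univ _, hcon⟩)
    unfold Vio
    refine forall_congr' fun τ => ?_
    by_cases h1 : τ = t
    · subst h1
      rw [Function.update_self, Function.update_self]
    · rw [Function.update_of_ne h1, Function.update_of_ne h1]
      by_cases h2 : τ = s
      · subst h2
        rw [hZ']
        simp only [Finset.mem_univ]
      · rw [Function.update_of_ne h2]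
  constructor
  · intro h Z hZ hT hv
    exact h Z hZ hT ((key Z (hT s hs hst)).2 hv)
  · intro h Z hZ hT hv
    exact h Z hZ hT ((key Z (hT s hs hst)).1 hv)

theorem lc_update_self (𝒵 : Finset (Cst N k)) (T : Finset (Fin N)) (t : Fin N) (ω : Fin k)
    (j : Fin N → Fin k) : lc 𝒵 T (Function.update j t ω) t = lc 𝒵 T j t := by
  classical
  unfold lc
  simp only [Function.update_idem]

theorem sum_lc_le (hk : 2 ≤ k) {𝒵 : Finset (Cst N k)} {A : Finset (Fin N → Fin k)} (hA : A ⊆ Acc 𝒵)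
    (hA0 : A.Nonempty) (T : Finset (Fin N)) :
    ∑ j ∈ A, ∑ t ∈ T, ((k : ℝ) - (lc 𝒵 T j t).card) * Real.log 2 ≤
      ((k : ℝ) - 1) * (A.card * Real.log ((k : ℝ) ^ N / A.card)) := by
  classical
  have hk1 : (0 : ℝ) < (k : ℝ) - 1 := by
    have : (2 : ℝ) ≤ (k : ℝ) := by exact_mod_cast hk
    linarith
  have hck : ∀ (j : Fin N → Fin k) (t : Fin N), (((lc 𝒵 T j t).card : ℕ) : ℝ) ≤ (k : ℝ) := by
    intro j t
    have h1 := Finset.card_le_univ (lc 𝒵 T j t)
    rw [Fintype.card_fin] at h1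
    exact_mod_cast h1
  obtain ⟨h, hh⟩ : ∃ h : Fin N → (Fin N → Fin k) → ℝ, h = fun t j =>
      if j t ∈ lc 𝒵 T j t then 1 + ((k : ℝ) - (lc 𝒵 T j t).card) / ((k : ℝ) - 1) else 0 :=
    ⟨_, rfl⟩
  have hpos : ∀ (j : Fin N → Fin k) (t : Fin N),
      0 < 1 + ((k : ℝ) - (lc 𝒵 T j t).card) / ((k : ℝ) - 1) := by
    intro j t
    have : 0 ≤ ((k : ℝ) - (lc 𝒵 T j t).card) / ((k : ℝ) - 1) :=
      div_nonneg (by linarith [hck j t]) hk1.le
    linarith
  have h0 : ∀ t j, 0 ≤ h t j := by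
    intro t j
    rw [hh]
    dsimp only
    split_ifs
    · exact (hpos j t).le
    · exact le_rfl
  have hind : ∀ s ∈ T, ∀ t ∈ T, s ≠ t → ∀ j ω, h t (Function.update j s ω) = h t j := by
    intro s hs t _ hst j ω
    rw [hh]
    dsimp only
    rw [lc_update 𝒵 T hs hst ω j, Function.update_of_ne hst.symm]
  have hsum : ∀ t ∈ T, ∀ j, ∑ ω : Fin k, h t (Function.update j t ω) ≤
      (Fintype.card (Fin k) : ℝ) := by
    intro t _ j
    have e1 : ∀ ω : Fin k, h t (Function.update j t ω) =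
        if ω ∈ lc 𝒵 T j t then 1 + ((k : ℝ) - (lc 𝒵 T j t).card) / ((k : ℝ) - 1) else 0 := by
      intro ω
      rw [hh]
      dsimp only
      rw [lc_update_self 𝒵 T t ω j, Function.update_self]
    rw [Finset.sum_congr rfl fun ω _ => e1 ω, ← Finset.sum_filter, Finset.filter_mem_eq_inter,
      Finset.univ_inter, Finset.sum_const, nsmul_eq_mul, Fintype.card_fin]
    have h1 := Finset.card_le_univ (lc 𝒵 T j t)
    rw [Fintype.card_fin] at h1
    obtain ⟨c, hc⟩ : ∃ c : ℕ, (lc 𝒵 T j t).card = c := ⟨_, rfl⟩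
    rw [hc] at h1 ⊢
    have h2 : 0 ≤ ((k : ℝ) - c) * ((k : ℝ) - 1 - c) := by
      rcases Nat.lt_or_ge c k with h3 | h3
      · have h4 : (c : ℝ) + 1 ≤ (k : ℝ) := by exact_mod_cast h3
        exact mul_nonneg (by linarith) (by linarith)
      · have h4 : c = k := le_antisymm h1 h3
        rw [h4, sub_self, zero_mul]
    have h3 : (c : ℝ) * (1 + ((k : ℝ) - c) / ((k : ℝ) - 1)) =
        (c : ℝ) * ((2 * (k : ℝ) - 1 - c) / ((k : ℝ) - 1)) := by
      congr 1
      field_simp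
      ring
    rw [h3, ← mul_div_assoc, div_le_iff₀ hk1]
    nlinarith
  have key := prod_lemma T h h0 hind hsum
  have hX : ∑ j ∈ A, ∏ t ∈ T, (1 + ((k : ℝ) - (lc 𝒵 T j t).card) / ((k : ℝ) - 1)) ≤
      (k : ℝ) ^ N := by
    have hcd : ((Fintype.card (Fin N → Fin k) : ℕ) : ℝ) = (k : ℝ) ^ N := by
      rw [Fintype.card_fun, Fintype.card_fin, Fintype.card_fin]
      push_cast
      rfl
    rw [← hcd]
    refine le_trans ?_ key
    have e2 : ∀ j ∈ A, ∏ t ∈ T, (1 + ((k : ℝ) - (lc 𝒵 T j t).card) / ((k : ℝ) - 1)) =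
        ∏ t ∈ T, h t j := by
      intro j hj
      refine Finset.prod_congr rfl fun t _ => ?_
      rw [hh]
      dsimp only
      rw [if_pos (mem_lc (hA hj) T t)]
    rw [Finset.sum_congr rfl e2]
    exact Finset.sum_le_sum_of_subset_of_nonneg (Finset.subset_univ _)
      (fun j _ _ => Finset.prod_nonneg fun t _ => h0 t j)
  have h3 := sum_log_le A hA0
    (fun j => ∏ t ∈ T, (1 + ((k : ℝ) - (lc 𝒵 T j t).card) / ((k : ℝ) - 1)))
    (fun j _ => Finset.prod_pos fun t _ => hpos j t) hX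
  have h4 : ∀ j ∈ A, ∑ t ∈ T, ((k : ℝ) - (lc 𝒵 T j t).card) * Real.log 2 ≤
      ((k : ℝ) - 1) * Real.log (∏ t ∈ T, (1 + ((k : ℝ) - (lc 𝒵 T j t).card) / ((k : ℝ) - 1))) := by
    intro j hj
    rw [Real.log_prod (fun t _ => (hpos j t).ne'), Finset.mul_sum]
    refine Finset.sum_le_sum fun t _ => ?_
    have hc1 : (1 : ℝ) ≤ (((lc 𝒵 T j t).card : ℕ) : ℝ) := by
      have h5 : 0 < (lc 𝒵 T j t).card := Finset.card_pos.2 ⟨_, mem_lc (hA hj) T t⟩
      exact_mod_cast h5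
    have h6 := mul_log_two_le (div_nonneg (show (0 : ℝ) ≤ (k : ℝ) - (lc 𝒵 T j t).card by
      linarith [hck j t]) hk1.le) ((div_le_one hk1).2 (by linarith))
    have h7 := mul_le_mul_of_nonneg_left h6 hk1.le
    rw [← mul_assoc, mul_div_cancel₀ _ hk1.ne'] at h7
    exact h7
  refine (Finset.sum_le_sum h4).trans ?_
  rw [← Finset.mul_sum]
  exact mul_le_mul_of_nonneg_left h3 hk1.le

end H4.SL
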