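import Pool.Agent.H4.SL.Wa

/-!
# Row Wb: few sensitive coordinates on average, narrow cylinders

PROOF. As `Pool/Agent/H40/SP/Lk.lean` (`Lk_cnt`, `sum_nonhonest_le`).
`sen_sup`: `Vio Z (update j τ p)` but not `Vio Z j`: so `j τ ∉ Z τ` (all other coordinates are the same), hence `Z τ ≠ univ`.
`sum_sen_le`: let `j ∈ A`, `Sen 𝒵 j t` by `Z, p`; `t ∈ Sup Z` (`sen_sup`). `S = Sup Z \ {t}` has at most `w - 1` elements. For `g : Fin N → Fin w` with
`g t = 0` and `g s ≠ 0` on `S` and `T = {g = 0}`: `Z` touches `T` only in `t`, so `p ∉ lc 𝒵 T j t`, and `k - card (lc ..) ≥ 1`. By `card_fun_ge`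
(`Pool/Agent/H40/SP/Lj.lean`; `B := N`): `w^N ≤ 3 w ∑_g [g t = 0] (k - card (lc 𝒵 {g = 0} j t))` (all terms are `≥ 0`). Sum over the sensitive `t`, then over
`j ∈ A`, multiply by `log 2`, exchange the sums, and apply `sum_lc_le` for each of the `w^N` functions `g`; divide by `w^N`.
-/

set_option autoImplicit false

namespace H4.SL

open H40.SP

variable {N k : ℕ}

theorem sen_sup {𝒵 : Finset (Cst N k)} {j : Fin N → Fin k} (hj : j ∈ Acc 𝒵) {Z : Cst N k} (hZ : Z ∈ 𝒵)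
    {τ : Fin N} {p : Fin k} (h : Vio Z (Function.update j τ p)) :
    τ ∈ Sup Z ∧ ∀ τ', τ' ≠ τ → j τ' ∈ Z τ' := by
  have h1 : ∀ τ', τ' ≠ τ → j τ' ∈ Z τ' := by
    intro τ' hne
    have h2 := h τ'
    rwa [Function.update_of_ne hne] at h2
  refine ⟨?_, h1⟩
  rw [Sup, Finset.mem_filter]
  refine ⟨Finset.mem_univ _, ?_⟩
  intro hu
  simp only [Acc, Finset.mem_filter] at hj
  apply hj.2 Z hZ
  intro τ'
  by_cases hne : τ' = τ
  · subst hne
    rw [hu]
    exact Finset.mem_univ _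
  · exact h1 τ' hne

theorem lc_card_pos {𝒵 : Finset (Cst N k)} {j : Fin N → Fin k} {Z : Cst N k} (hZ : Z ∈ 𝒵)
    {t : Fin N} {p : Fin k} (h : Vio Z (Function.update j t p)) {T : Finset (Fin N)}
    (hT : ∀ s ∈ T, s ≠ t → s ∉ Sup Z) : (1 : ℝ) ≤ (k : ℝ) - (lc 𝒵 T j t).card := by
  have hp : p ∉ lc 𝒵 T j t := by
    intro hp
    simp only [lc, Finset.mem_filter] at hp
    exact hp.2 Z hZ hT h
  have h1 : (lc 𝒵 T j t).card < (Finset.univ : Finset (Fin k)).card :=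
    Finset.card_lt_card (Finset.ssubset_univ_iff.2 (fun hu => hp (hu ▸ Finset.mem_univ _)))
  rw [Finset.card_univ, Fintype.card_fin] at h1
  have h2 : ((lc 𝒵 T j t).card : ℝ) + 1 ≤ k := by exact_mod_cast h1
  linarith

theorem lc_card_nonneg (𝒵 : Finset (Cst N k)) (j : Fin N → Fin k) (t : Fin N) (T : Finset (Fin N)) :
    (0 : ℝ) ≤ (k : ℝ) - (lc 𝒵 T j t).card := by
  have h1 : (lc 𝒵 T j t).card ≤ (Finset.univ : Finset (Fin k)).card := Finset.card_le_univ _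
  rw [Finset.card_univ, Fintype.card_fin] at h1
  have h2 : ((lc 𝒵 T j t).card : ℝ) ≤ k := by exact_mod_cast h1
  linarith

open Classical in
theorem Wb_cnt {w : ℕ} (hw1 : 1 ≤ w) {𝒵 : Finset (Cst N k)}
    (h𝒵 : ∀ Z ∈ 𝒵, (Sup Z).card ≤ w) {j : Fin N → Fin k} (hj : j ∈ Acc 𝒵) {t : Fin N}
    (ht : Sen 𝒵 j t) :
    (w : ℝ) ^ N ≤ 3 * w * ∑ g : Fin N → Fin w, (if (g t : ℕ) = 0 then
      ((k : ℝ) - (lc 𝒵 (Finset.univ.filter (fun s => (g s : ℕ) = 0)) j t).card) else 0) := by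
  obtain ⟨Z, hZ, p, hp⟩ := ht
  obtain ⟨htZ, -⟩ := sen_sup hj hZ hp
  set S : Finset (Fin N) := (Sup Z).erase t with hS
  have htS : t ∉ S := Finset.notMem_erase _ _
  have hcard : S.card ≤ w - 1 := by
    rw [hS, Finset.card_erase_of_mem htZ]
    have := h𝒵 Z hZ
    omega
  refine (card_fun_ge hw1 t S htS hcard).trans ?_
  refine mul_le_mul_of_nonneg_left ?_ (by positivity)
  rw [Finset.card_filter]
  push_cast
  refine Finset.sum_le_sum fun g _ => ?_
  split_ifs with h1 h2 h2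
  · refine lc_card_pos hZ hp ?_
    intro s hs hst hT
    rw [Finset.mem_filter] at hs
    exact h1.2 s (by rw [hS]; exact Finset.mem_erase.2 ⟨hst, hT⟩) hs.2
  · exact absurd h1.1 h2
  · exact lc_card_nonneg _ _ _ _
  · exact le_refl _

theorem sum_sen_le (hk : 2 ≤ k) {w : ℕ} (hw : 1 ≤ w) {𝒵 : Finset (Cst N k)}
    (h𝒵 : ∀ Z ∈ 𝒵, (Sup Z).card ≤ w) {A : Finset (Fin N → Fin k)} (hA : A ⊆ Acc 𝒵) (hA0 : A.Nonempty) :
    ∑ j ∈ A, (sen 𝒵 j : ℝ) * Real.log 2 ≤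
      3 * w * (((k : ℝ) - 1) * (A.card * Real.log ((k : ℝ) ^ N / A.card))) := by
  classical
  have hwR : (0 : ℝ) < w := by exact_mod_cast hw
  have hwB : (0 : ℝ) < (w : ℝ) ^ N := pow_pos hwR N
  set U : ℝ := ((k : ℝ) - 1) * (A.card * Real.log ((k : ℝ) ^ N / A.card)) with hU
  have hup : ∑ g : Fin N → Fin w, ∑ j ∈ A,
      ∑ t ∈ Finset.univ.filter (fun s => (g s : ℕ) = 0),
        ((k : ℝ) - (lc 𝒵 (Finset.univ.filter (fun s => (g s : ℕ) = 0)) j t).card) * Real.log 2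
      ≤ (w : ℝ) ^ N * U := by
    have h1 : ∀ g ∈ (Finset.univ : Finset (Fin N → Fin w)), ∑ j ∈ A,
        ∑ t ∈ Finset.univ.filter (fun s => (g s : ℕ) = 0),
          ((k : ℝ) - (lc 𝒵 (Finset.univ.filter (fun s => (g s : ℕ) = 0)) j t).card) * Real.log 2
        ≤ U := fun g _ => sum_lc_le hk hA hA0 (Finset.univ.filter (fun s => (g s : ℕ) = 0))
    have h2 := Finset.sum_le_card_nsmul _ _ _ h1
    rw [nsmul_eq_mul, Finset.card_univ, Fintype.card_fun, Fintype.card_fin, Fintype.card_fin] at h2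
    push_cast at h2
    exact h2
  have hlow : ∀ j ∈ A,
      (w : ℝ) ^ N * (sen 𝒵 j : ℝ)
        ≤ 3 * w * ∑ g : Fin N → Fin w, ∑ t ∈ Finset.univ.filter (fun s => (g s : ℕ) = 0),
          ((k : ℝ) - (lc 𝒵 (Finset.univ.filter (fun s => (g s : ℕ) = 0)) j t).card) := by
    intro j hj
    have h1 : ∀ t ∈ Finset.univ.filter (fun t => Sen 𝒵 j t), (w : ℝ) ^ N ≤
        3 * w * ∑ g : Fin N → Fin w, (if (g t : ℕ) = 0 then
          ((k : ℝ) - (lc 𝒵 (Finset.univ.filter (fun s => (g s : ℕ) = 0)) j t).card) else 0) :=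
      fun t ht => Wb_cnt hw h𝒵 (hA hj) (Finset.mem_filter.1 ht).2
    have h2 := Finset.card_nsmul_le_sum _ _ _ h1
    rw [nsmul_eq_mul, mul_comm] at h2
    refine h2.trans ?_
    rw [← Finset.mul_sum]
    refine mul_le_mul_of_nonneg_left ?_ (by positivity)
    rw [Finset.sum_comm]
    refine Finset.sum_le_sum fun g _ => ?_
    rw [Finset.sum_filter (fun s => (g s : ℕ) = 0)]
    refine Finset.sum_le_sum_of_subset_of_nonneg (Finset.filter_subset _ _) fun t _ _ => ?_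
    split_ifs
    · exact lc_card_nonneg _ _ _ _
    · exact le_refl _
  have hlog : 0 ≤ Real.log 2 := Real.log_nonneg (by norm_num)
  refine le_of_mul_le_mul_left ?_ hwB
  calc (w : ℝ) ^ N * ∑ j ∈ A, (sen 𝒵 j : ℝ) * Real.log 2
      = ∑ j ∈ A, ((w : ℝ) ^ N * (sen 𝒵 j : ℝ)) * Real.log 2 := by
        rw [Finset.mul_sum]
        refine Finset.sum_congr rfl fun σ _ => ?_
        ring
    _ ≤ ∑ j ∈ A, (3 * w * ∑ g : Fin N → Fin w,
          ∑ t ∈ Finset.univ.filter (fun s => (g s : ℕ) = 0),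
          ((k : ℝ) - (lc 𝒵 (Finset.univ.filter (fun s => (g s : ℕ) = 0)) j t).card))
            * Real.log 2 :=
        Finset.sum_le_sum fun σ hσ => mul_le_mul_of_nonneg_right (hlow σ hσ) hlog
    _ = 3 * w * ∑ g : Fin N → Fin w, ∑ j ∈ A,
      ∑ t ∈ Finset.univ.filter (fun s => (g s : ℕ) = 0),
        ((k : ℝ) - (lc 𝒵 (Finset.univ.filter (fun s => (g s : ℕ) = 0)) j t).card)
          * Real.log 2 := by
        rw [Finset.sum_comm (s := (Finset.univ : Finset (Fin N → Fin w))), Finset.mul_sum]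
        refine Finset.sum_congr rfl fun σ _ => ?_
        rw [mul_assoc, Finset.sum_mul]
        congr 1
        refine Finset.sum_congr rfl fun g _ => ?_
        rw [Finset.sum_mul]
    _ ≤ 3 * w * ((w : ℝ) ^ N * U) := mul_le_mul_of_nonneg_left hup (by positivity)
    _ = (w : ℝ) ^ N * (3 * w * U) := by ring

end H4.SL
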