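import Pool.Agent.H4.SL.W0

/-!
# Row Wc: the best subcube

`F D a = card (ext A D a)`.
PROOF. `step`: for `τ ∉ D`, `τ ∉ E`: the map `(j, ω) ↦ Function.update j τ ω` is a bijection from
`{j ∈ ext A D a : j τ = p, ∀ τ' ∈ E, j τ' ∈ Y τ'} × Fin k` to `{j ∈ ext A (insert τ D) (update a τ p) : ∀ τ' ∈ E, j τ' ∈ Y τ'}` (inverse:
`j ↦ (update j τ p, j τ)`): `pj (insert τ D) (update a τ p) (update j τ ω) = pj D a j` if `j τ = p` (coordinates `τ`, in `D`, others), and the coordinates in `E` are
not changed.
`cyl_le`: assume `F D' a' ≤ M exp (card D' / (4k))` for all `D', a'`. Then for all `D, a, E, Y` with `E` disjoint from `D` and `card (Y τ) ≤ k - 1` on `E`: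
`card {j ∈ ext A D a : ∀ τ ∈ E, j τ ∈ Y τ} * k^(card E) ≤ (k-1)^(card E) * (M exp ((card D + card E)/(4k)))`, by induction on `E` (all `D, a`): `E = ∅` clear; for `insert τ E`:
the set is the disjoint union over `p ∈ Y τ` of `{j : j τ = p, ∀ E}`, by `step` its cardinality times `k` is `∑_(p ∈ Y τ) card {j ∈ ext A (insert τ D) (update a τ p) : ∀ E}`, and
the induction hypothesis applies to `insert τ D` (disjoint from `E`; `card (insert τ D) = card D + 1`); at most `k - 1` values `p`.
`subcube`: take `(D, a)` maximising `F D a * exp (-(card D / (4k)))` over the finite set of all pairs (`Finset.exists_max_image`; nonempty because there is some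
`j0 ∈ A`), `M` the maximum. First claim: compare with `(∅, j0)`: `ext A ∅ j0 = A`. Second claim: `cyl_le` gives the bound
`((k-1)/k)^e * M exp ((card D + e)/(4k)) = ((k-1)/k)^e exp (e/(4k)) F D a`, `e = card E`, and `(k-1)/k = 1 - 1/k ≤ exp (-1/k)` (`Real.add_one_le_exp`), so
`((k-1)/k)^e exp (e/(4k)) ≤ exp (-e/k + e/(4k)) = exp (-3e/(4k))`.
-/

set_option autoImplicit false

namespace H4.SL

variable {N k : ℕ}

theorem step (A : Finset (Fin N → Fin k)) (D E : Finset (Fin N)) (a : Fin N → Fin k) (Y : Fin N → Finset (Fin k))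
    {τ : Fin N} (hτD : τ ∉ D) (hτE : τ ∉ E) (p : Fin k) :
    ((ext A D a).filter (fun j => j τ = p ∧ ∀ τ' ∈ E, j τ' ∈ Y τ')).card * k =
      ((ext A (insert τ D) (Function.update a τ p)).filter (fun j => ∀ τ' ∈ E, j τ' ∈ Y τ')).card := by
  have h1 : (((ext A D a).filter (fun j => j τ = p ∧ ∀ τ' ∈ E, j τ' ∈ Y τ')) ×ˢ
      (Finset.univ : Finset (Fin k))).card =
      ((ext A (insert τ D) (Function.update a τ p)).filter (fun j => ∀ τ' ∈ E, j τ' ∈ Y τ')).card := by
    refine Finset.card_nbij' (fun x => Function.update x.1 τ x.2)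
      (fun j => (Function.update j τ p, j τ)) ?_ ?_ ?_ ?_
    · rintro ⟨j, ω⟩ hj
      simp only [Finset.coe_product, Set.mem_prod, Finset.mem_coe, Finset.mem_filter, ext, Finset.mem_univ,
        true_and, and_true] at hj
      obtain ⟨hA, hp, hE⟩ := hj
      simp only [Finset.mem_coe, Finset.mem_filter, ext, Finset.mem_univ, true_and]
      refine ⟨?_, ?_⟩
      · have e : pj (insert τ D) (Function.update a τ p) (Function.update j τ ω) = pj D a j := by
          funext σ
          unfold pj
          by_cases hσ : σ = τ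
          · subst hσ
            rw [if_pos (Finset.mem_insert_self _ _), if_neg hτD, Function.update_self, hp]
          · rw [Function.update_of_ne hσ, Function.update_of_ne hσ]
            by_cases hσD : σ ∈ D
            · rw [if_pos (Finset.mem_insert_of_mem hσD), if_pos hσD]
            · rw [if_neg hσD, if_neg]
              rw [Finset.mem_insert]
              rintro (h | h)
              · exact hσ h
              · exact hσD h
        rw [e]
        exact hA
      · intro τ' hτ'
        have hne : τ' ≠ τ := by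
          rintro rfl
          exact hτE hτ'
        rw [Function.update_of_ne hne]
        exact hE τ' hτ'
    · intro j hj
      simp only [Finset.mem_coe, Finset.mem_filter, ext, Finset.mem_univ, true_and] at hj
      obtain ⟨hA, hE⟩ := hj
      simp only [Finset.coe_product, Set.mem_prod, Finset.mem_coe, Finset.mem_filter, ext, Finset.mem_univ,
        true_and, and_true]
      refine ⟨?_, Function.update_self _ _ _, ?_⟩
      · have e : pj D a (Function.update j τ p) = pj (insert τ D) (Function.update a τ p) j := by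
          funext σ
          unfold pj
          by_cases hσ : σ = τ
          · subst hσ
            rw [if_pos (Finset.mem_insert_self _ _), if_neg hτD, Function.update_self, Function.update_self]
          · rw [Function.update_of_ne hσ, Function.update_of_ne hσ]
            by_cases hσD : σ ∈ D
            · rw [if_pos (Finset.mem_insert_of_mem hσD), if_pos hσD]
            · rw [if_neg hσD, if_neg]
              rw [Finset.mem_insert]
              rintro (h | h)
              · exact hσ h
              · exact hσD h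
        rw [e]
        exact hA
      · intro τ' hτ'
        have hne : τ' ≠ τ := by
          rintro rfl
          exact hτE hτ'
        rw [Function.update_of_ne hne]
        exact hE τ' hτ'
    · rintro ⟨j, ω⟩ hj
      simp only [Finset.coe_product, Set.mem_prod, Finset.mem_coe, Finset.mem_filter, ext, Finset.mem_univ,
        true_and, and_true] at hj
      obtain ⟨_, hp, _⟩ := hj
      have e1 : Function.update (Function.update j τ ω) τ p = j := by
        rw [Function.update_idem, ← hp, Function.update_eq_self]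
      simp only [e1, Function.update_self]
    · intro j _
      simp only [Function.update_idem, Function.update_eq_self]
  rw [Finset.card_product, Finset.card_univ, Fintype.card_fin] at h1
  exact h1

theorem cyl_le (hk : 2 ≤ k) (A : Finset (Fin N → Fin k)) {M : ℝ}
    (hM : ∀ D a, ((ext A D a).card : ℝ) ≤ M * Real.exp ((D.card : ℝ) / (4 * k))) (E : Finset (Fin N))
    (Y : Fin N → Finset (Fin k)) (hY : ∀ τ ∈ E, (Y τ).card ≤ k - 1) (D : Finset (Fin N)) (a : Fin N → Fin k)
    (hD : Disjoint E D) :
    (((ext A D a).filter (fun j => ∀ τ ∈ E, j τ ∈ Y τ)).card : ℝ) * (k : ℝ) ^ E.card ≤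
      ((k : ℝ) - 1) ^ E.card * (M * Real.exp (((D.card : ℝ) + E.card) / (4 * k))) := by
  classical
  have hkR : (2 : ℝ) ≤ k := by exact_mod_cast hk
  have hk0 : (0 : ℝ) < k := by linarith
  have hk1 : (0 : ℝ) ≤ (k : ℝ) - 1 := by linarith
  have hM0 : 0 ≤ M := by
    have h1 := hM ∅ a
    have h2 : (0 : ℝ) ≤ M * Real.exp (((∅ : Finset (Fin N)).card : ℝ) / (4 * k)) :=
      le_trans (Nat.cast_nonneg _) h1
    exact nonneg_of_mul_nonneg_left h2 (Real.exp_pos _)
  have key : ∀ E : Finset (Fin N), (∀ τ ∈ E, (Y τ).card ≤ k - 1) → ∀ (D : Finset (Fin N)) (a : Fin N → Fin k),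
      Disjoint E D → (((ext A D a).filter (fun j => ∀ τ ∈ E, j τ ∈ Y τ)).card : ℝ) * (k : ℝ) ^ E.card ≤
      ((k : ℝ) - 1) ^ E.card * (M * Real.exp (((D.card : ℝ) + E.card) / (4 * k))) := by
    intro E
    induction E using Finset.induction_on with
    | empty =>
      intro _ D a _
      have h1 := hM D a
      have h2 : ((ext A D a).filter (fun j => ∀ τ ∈ (∅ : Finset (Fin N)), j τ ∈ Y τ)) = ext A D a := by
        refine Finset.filter_true_of_mem fun j _ τ hτ => absurd hτ (Finset.notMem_empty τ)
      rw [h2, Finset.card_empty, pow_zero, pow_zero, mul_one, one_mul, Nat.cast_zero, add_zero]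
      exact h1
    | insert τ E hτ ih =>
      intro hY' D a hD'
      have hτD : τ ∉ D := Finset.disjoint_left.1 hD' (Finset.mem_insert_self τ E)
      have hED : Disjoint E D := Finset.disjoint_of_subset_left (Finset.subset_insert τ E) hD'
      have hYE : ∀ τ' ∈ E, (Y τ').card ≤ k - 1 := fun τ' h => hY' τ' (Finset.mem_insert_of_mem h)
      have hYτ : ((Y τ).card : ℝ) ≤ (k : ℝ) - 1 := by
        have h1 := hY' τ (Finset.mem_insert_self τ E)
        have h2 : ((Y τ).card : ℝ) ≤ ((k - 1 : ℕ) : ℝ) := by exact_mod_cast h1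
        rwa [Nat.cast_sub (by omega), Nat.cast_one] at h2
      have hsub : (ext A D a).filter (fun j => ∀ τ' ∈ insert τ E, j τ' ∈ Y τ') ⊆
          (Y τ).biUnion (fun p => (ext A D a).filter (fun j => j τ = p ∧ ∀ τ' ∈ E, j τ' ∈ Y τ')) := by
        intro j hj
        rw [Finset.mem_filter] at hj
        rw [Finset.mem_biUnion]
        exact ⟨j τ, hj.2 τ (Finset.mem_insert_self τ E), Finset.mem_filter.2 ⟨hj.1, rfl,
          fun τ' h => hj.2 τ' (Finset.mem_insert_of_mem h)⟩⟩
      have h1 : (((ext A D a).filter (fun j => ∀ τ' ∈ insert τ E, j τ' ∈ Y τ')).card : ℝ) ≤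
          ∑ p ∈ Y τ, (((ext A D a).filter (fun j => j τ = p ∧ ∀ τ' ∈ E, j τ' ∈ Y τ')).card : ℝ) := by
        exact_mod_cast (Finset.card_le_card hsub).trans Finset.card_biUnion_le
      have h2 : ∀ p ∈ Y τ, (((ext A D a).filter (fun j => j τ = p ∧ ∀ τ' ∈ E, j τ' ∈ Y τ')).card : ℝ) *
          (k : ℝ) ^ (E.card + 1) ≤
            ((k : ℝ) - 1) ^ E.card * (M * Real.exp (((D.card : ℝ) + (E.card + 1)) / (4 * k))) := by
        intro p _
        have h3 := congrArg (fun n : ℕ => (n : ℝ)) (step A D E a Y hτD hτ p)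
        simp only [Nat.cast_mul] at h3
        have hED' : Disjoint E (insert τ D) := by
          rw [Finset.disjoint_insert_right]
          exact ⟨hτ, hED⟩
        have h4 := ih hYE (insert τ D) (Function.update a τ p) hED'
        rw [Finset.card_insert_of_notMem hτD] at h4
        rw [pow_succ, mul_comm ((k : ℝ) ^ E.card) (k : ℝ), ← mul_assoc, h3]
        refine h4.trans (le_of_eq ?_)
        push_cast
        congr 3
        ring
      rw [Finset.card_insert_of_notMem hτ]
      calc (((ext A D a).filter (fun j => ∀ τ' ∈ insert τ E, j τ' ∈ Y τ')).card : ℝ) * (k : ℝ) ^ (E.card + 1)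
          ≤ (∑ p ∈ Y τ, (((ext A D a).filter (fun j => j τ = p ∧ ∀ τ' ∈ E, j τ' ∈ Y τ')).card : ℝ)) *
            (k : ℝ) ^ (E.card + 1) := mul_le_mul_of_nonneg_right h1 (by positivity)
        _ = ∑ p ∈ Y τ, (((ext A D a).filter (fun j => j τ = p ∧ ∀ τ' ∈ E, j τ' ∈ Y τ')).card : ℝ) *
            (k : ℝ) ^ (E.card + 1) := by rw [Finset.sum_mul]
        _ ≤ ∑ _p ∈ Y τ, ((k : ℝ) - 1) ^ E.card * (M * Real.exp (((D.card : ℝ) + (E.card + 1)) / (4 * k))) :=
          Finset.sum_le_sum h2
        _ = (Y τ).card * (((k : ℝ) - 1) ^ E.card *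
            (M * Real.exp (((D.card : ℝ) + (E.card + 1)) / (4 * k)))) := by
          rw [Finset.sum_const, nsmul_eq_mul]
        _ ≤ ((k : ℝ) - 1) * (((k : ℝ) - 1) ^ E.card *
            (M * Real.exp (((D.card : ℝ) + (E.card + 1)) / (4 * k)))) :=
          mul_le_mul_of_nonneg_right hYτ (by positivity)
        _ = ((k : ℝ) - 1) ^ (E.card + 1) *
            (M * Real.exp (((D.card : ℝ) + ((E.card + 1 : ℕ) : ℝ)) / (4 * k))) := by
          push_cast
          ring
  exact key E hY D a hD

theorem subcube (hk : 2 ≤ k) {A : Finset (Fin N → Fin k)} (hA : A.Nonempty) :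
    ∃ (D : Finset (Fin N)) (a : Fin N → Fin k),
      (A.card : ℝ) * Real.exp ((D.card : ℝ) / (4 * k)) ≤ (ext A D a).card ∧
      ∀ (E : Finset (Fin N)) (Y : Fin N → Finset (Fin k)), Disjoint E D → (∀ τ ∈ E, (Y τ).card ≤ k - 1) →
        (((ext A D a).filter (fun j => ∀ τ ∈ E, j τ ∈ Y τ)).card : ℝ) ≤
          (ext A D a).card * Real.exp (-(3 * (E.card : ℝ) / (4 * k))) := by
  classical
  have hkR : (2 : ℝ) ≤ k := by exact_mod_cast hk
  have hk0 : (0 : ℝ) < k := by linarith
  have hk1 : (0 : ℝ) ≤ (k : ℝ) - 1 := by linarith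
  obtain ⟨j0, hj0⟩ := hA
  have hne : (Finset.univ : Finset (Finset (Fin N) × (Fin N → Fin k))).Nonempty := ⟨(∅, j0), Finset.mem_univ _⟩
  obtain ⟨⟨D, a⟩, _, hmax⟩ := Finset.exists_max_image Finset.univ
    (fun x : Finset (Fin N) × (Fin N → Fin k) =>
      ((ext A x.1 x.2).card : ℝ) * Real.exp (-((x.1.card : ℝ) / (4 * k)))) hne
  simp only at hmax
  have hempty : ext A ∅ j0 = A := by
    ext j
    simp only [ext, Finset.mem_filter, Finset.mem_univ, true_and]
    have e : pj ∅ j0 j = j := by
      funext σ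
      unfold pj
      rw [if_neg (Finset.notMem_empty σ)]
    rw [e]
  refine ⟨D, a, ?_, ?_⟩
  · have h1 := hmax (∅, j0) (Finset.mem_univ _)
    simp only [hempty, Finset.card_empty, Nat.cast_zero, zero_div, neg_zero, Real.exp_zero, mul_one] at h1
    calc (A.card : ℝ) * Real.exp ((D.card : ℝ) / (4 * k))
        ≤ (((ext A D a).card : ℝ) * Real.exp (-((D.card : ℝ) / (4 * k)))) * Real.exp ((D.card : ℝ) / (4 * k)) :=
          mul_le_mul_of_nonneg_right h1 (Real.exp_pos _).le
      _ = (ext A D a).card := by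
        rw [mul_assoc, ← Real.exp_add, neg_add_cancel, Real.exp_zero, mul_one]
  · intro E Y hED hY
    set M : ℝ := ((ext A D a).card : ℝ) * Real.exp (-((D.card : ℝ) / (4 * k))) with hMdef
    have hM : ∀ D' a', ((ext A D' a').card : ℝ) ≤ M * Real.exp ((D'.card : ℝ) / (4 * k)) := by
      intro D' a'
      have h1 := hmax (D', a') (Finset.mem_univ _)
      simp only at h1
      calc ((ext A D' a').card : ℝ)
          = (((ext A D' a').card : ℝ) * Real.exp (-((D'.card : ℝ) / (4 * k)))) *
              Real.exp ((D'.card : ℝ) / (4 * k)) := by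
            rw [mul_assoc, ← Real.exp_add, neg_add_cancel, Real.exp_zero, mul_one]
        _ ≤ M * Real.exp ((D'.card : ℝ) / (4 * k)) := mul_le_mul_of_nonneg_right h1 (Real.exp_pos _).le
    have h2 := cyl_le hk A hM E Y hY D a hED
    have h3 : M * Real.exp (((D.card : ℝ) + E.card) / (4 * k)) =
        (ext A D a).card * Real.exp ((E.card : ℝ) / (4 * k)) := by
      rw [hMdef, mul_assoc, ← Real.exp_add]
      congr 2
      ring
    rw [h3] at h2
    have hkE : (0 : ℝ) < (k : ℝ) ^ E.card := by positivity
    have h4 : (((ext A D a).filter (fun j => ∀ τ ∈ E, j τ ∈ Y τ)).card : ℝ) ≤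
        (((k : ℝ) - 1) / k) ^ E.card * ((ext A D a).card * Real.exp ((E.card : ℝ) / (4 * k))) := by
      rw [div_pow, div_mul_eq_mul_div, le_div_iff₀ hkE]
      exact h2
    refine h4.trans ?_
    have h5 : ((k : ℝ) - 1) / k ≤ Real.exp (-(1 / (k : ℝ))) := by
      have h6 := Real.add_one_le_exp (-(1 / (k : ℝ)))
      have h7 : ((k : ℝ) - 1) / k = -(1 / (k : ℝ)) + 1 := by
        field_simp
        ring
      rw [h7]
      exact h6
    have h8 : (((k : ℝ) - 1) / k) ^ E.card ≤ Real.exp (-(1 / (k : ℝ))) ^ E.card :=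
      pow_le_pow_left₀ (div_nonneg hk1 hk0.le) h5 _
    rw [← Real.exp_nat_mul] at h8
    calc (((k : ℝ) - 1) / k) ^ E.card * ((ext A D a).card * Real.exp ((E.card : ℝ) / (4 * k)))
        ≤ Real.exp ((E.card : ℝ) * -(1 / (k : ℝ))) * ((ext A D a).card * Real.exp ((E.card : ℝ) / (4 * k))) :=
          mul_le_mul_of_nonneg_right h8 (by positivity)
      _ = (ext A D a).card * (Real.exp ((E.card : ℝ) * -(1 / (k : ℝ))) * Real.exp ((E.card : ℝ) / (4 * k))) := by
          ring
      _ = (ext A D a).card * Real.exp (-(3 * (E.card : ℝ) / (4 * k))) := by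
          rw [← Real.exp_add]
          congr 2
          field_simp
          ring

end H4.SL
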