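import Pool.Agent.H4.SL.Wb

/-!
# Row Wd: wide cylinders are negligible

PROOF. `num_heavy`: put `y = (w - 1)/(4k)`, so `w = 4 k y + 1 ≤ 4 k (y + 1)` (`4 k ≥ 1`), and `2 y > h + log (64 k)` by hypothesis. `y + 1 ≤ exp y`
(`Real.add_one_le_exp`), so `w exp (-3y) ≤ 4 k exp (-2y) ≤ 4 k exp (-(h + log (64 k))) = 4 k exp (-h) / (64 k) = exp (-h)/16`; and `3 (w-1)/(4k) = 3 y`.
`heavy_le`: for `j ∈ A`: if `Sen 𝒴 j τ` by `Z, p` then `τ ∈ Sup Z` and `j τ' ∈ Z τ'` for all `τ' ≠ τ` (`sen_sup`). So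
`sen 𝒴 j ≤ ∑_(Z ∈ 𝒴) ∑_(τ ∈ Sup Z) [∀ τ' ∈ (Sup Z).erase τ, j τ' ∈ Z τ']` (the set of sensitive coordinates is contained in a union). Sum over `j ∈ A` and exchange:
`∑_(j ∈ A) sen 𝒴 j ≤ ∑_Z ∑_(τ ∈ Sup Z) card {j ∈ A : ∀ τ' ∈ (Sup Z).erase τ, j τ' ∈ Z τ'}`, and each cardinality is `≤ card A exp (-(3 (w_Z - 1)/(4k)))` by `hcyl` with
`E = (Sup Z).erase τ` (`card = w_Z - 1`, `w_Z = card (Sup Z) ≥ 1`; `Z τ' ≠ univ` gives `card (Z τ') ≤ k - 1`). So the inner sum over `τ` is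
`≤ w_Z exp (..) card A ≤ exp (-h)/16 * card A` by `num_heavy`.
-/

set_option autoImplicit false

namespace H4.SL

variable {N k : ℕ}

theorem num_heavy (hk : 2 ≤ k) {h w : ℝ} (hh : 0 ≤ h) (hw : 1 + 2 * k * (h + Real.log (64 * k)) < w) :
    w * Real.exp (-(3 * (w - 1) / (4 * k))) ≤ Real.exp (-h) / 16 := by
  have hk2 : (2 : ℝ) ≤ k := by exact_mod_cast hk
  have hk0 : (0 : ℝ) < k := by linarith
  have hl0 : 0 ≤ Real.log (64 * k) := Real.log_nonneg (by linarith)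
  obtain ⟨y, hy⟩ : ∃ y, y = (w - 1) / (4 * k) := ⟨_, rfl⟩
  have hw1 : w = 4 * k * y + 1 := by
    rw [hy]
    field_simp
    ring
  have h3 : 3 * (w - 1) / (4 * k) = 3 * y := by
    rw [hy]
    ring
  have h2y : h + Real.log (64 * k) < 2 * y := by
    have h1 : 2 * k * (h + Real.log (64 * k)) < 2 * k * (2 * y) := by
      rw [hw1] at hw
      linarith
    exact lt_of_mul_lt_mul_left h1 (by linarith)
  have hy0 : 0 ≤ y := by linarith
  rw [h3]
  have e1 : w ≤ 4 * k * (y + 1) := by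
    rw [hw1]
    nlinarith
  have e2 : y + 1 ≤ Real.exp y := Real.add_one_le_exp y
  have e3 : w ≤ 4 * k * Real.exp y :=
    e1.trans (mul_le_mul_of_nonneg_left e2 (by linarith))
  calc w * Real.exp (-(3 * y)) ≤ 4 * k * Real.exp y * Real.exp (-(3 * y)) :=
        mul_le_mul_of_nonneg_right e3 (Real.exp_nonneg _)
    _ = 4 * k * Real.exp (-(2 * y)) := by
        rw [mul_assoc, ← Real.exp_add]
        congr 2
        ring
    _ ≤ 4 * k * Real.exp (-(h + Real.log (64 * k))) := by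
        apply mul_le_mul_of_nonneg_left _ (by linarith)
        apply Real.exp_le_exp.2
        linarith
    _ = Real.exp (-h) / 16 := by
        rw [neg_add, Real.exp_add, Real.exp_neg (Real.log (64 * k)),
          Real.exp_log (by linarith)]
        field_simp
        norm_num

theorem heavy_le (hk : 2 ≤ k) {h : ℝ} (hh : 0 ≤ h) {𝒴 : Finset (Cst N k)} {A : Finset (Fin N → Fin k)}
    (D : Finset (Fin N))
    (hcyl : ∀ (E : Finset (Fin N)) (Y : Fin N → Finset (Fin k)), Disjoint E D →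
      (∀ τ ∈ E, (Y τ).card ≤ k - 1) →
        ((A.filter (fun j => ∀ τ ∈ E, j τ ∈ Y τ)).card : ℝ) ≤
          A.card * Real.exp (-(3 * (E.card : ℝ) / (4 * k))))
    (hA : A ⊆ Acc 𝒴)
    (h𝒴 : ∀ Z ∈ 𝒴, Disjoint (Sup Z) D ∧ 1 + 2 * k * (h + Real.log (64 * k)) < ((Sup Z).card : ℝ)) :
    ∑ j ∈ A, (sen 𝒴 j : ℝ) ≤ 𝒴.card * (Real.exp (-h) / 16 * A.card) := by
  have h1 : ∀ j ∈ A, sen 𝒴 j ≤ ∑ Z ∈ 𝒴, ∑ τ ∈ Sup Z,
      (if ∀ τ' ∈ (Sup Z).erase τ, j τ' ∈ Z τ' then 1 else 0) := by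
    intro j hj
    have h2 : sen 𝒴 j ≤ (𝒴.biUnion (fun Z => (Sup Z).filter
        (fun τ => ∀ τ' ∈ (Sup Z).erase τ, j τ' ∈ Z τ'))).card := by
      classical
      unfold sen
      apply Finset.card_le_card
      intro τ hτ
      rw [Finset.mem_filter] at hτ
      obtain ⟨-, Z, hZ, p, hp⟩ := hτ
      obtain ⟨h3, h4⟩ := sen_sup (hA hj) hZ hp
      rw [Finset.mem_biUnion]
      refine ⟨Z, hZ, ?_⟩
      rw [Finset.mem_filter]
      exact ⟨h3, fun τ' hτ' => h4 τ' (Finset.ne_of_mem_erase hτ')⟩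
    refine h2.trans (Finset.card_biUnion_le.trans (le_of_eq ?_))
    refine Finset.sum_congr rfl fun Z _ => ?_
    rw [Finset.card_filter]
  have h2 : ∑ j ∈ A, sen 𝒴 j ≤ ∑ Z ∈ 𝒴, ∑ τ ∈ Sup Z,
      (A.filter (fun j => ∀ τ' ∈ (Sup Z).erase τ, j τ' ∈ Z τ')).card := by
    refine (Finset.sum_le_sum h1).trans (le_of_eq ?_)
    rw [Finset.sum_comm]
    refine Finset.sum_congr rfl fun Z _ => ?_
    rw [Finset.sum_comm]
    refine Finset.sum_congr rfl fun τ _ => ?_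
    rw [Finset.card_filter]
  have h3 : (∑ j ∈ A, (sen 𝒴 j : ℝ)) ≤ ∑ Z ∈ 𝒴, ∑ τ ∈ Sup Z,
      ((A.filter (fun j => ∀ τ' ∈ (Sup Z).erase τ, j τ' ∈ Z τ')).card : ℝ) := by
    exact_mod_cast h2
  refine h3.trans ?_
  rw [← nsmul_eq_mul]
  refine Finset.sum_le_card_nsmul _ _ _ fun Z hZ => ?_
  obtain ⟨hD, hw⟩ := h𝒴 Z hZ
  have h4 : ∀ τ ∈ Sup Z,
      ((A.filter (fun j => ∀ τ' ∈ (Sup Z).erase τ, j τ' ∈ Z τ')).card : ℝ) ≤
        A.card * Real.exp (-(3 * (((Sup Z).card : ℝ) - 1) / (4 * k))) := by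
    intro τ hτ
    have h5 := hcyl ((Sup Z).erase τ) Z
      (Finset.disjoint_of_subset_left (Finset.erase_subset _ _) hD) (by
        intro τ' hτ'
        have h6 := Finset.mem_of_mem_erase hτ'
        rw [Sup, Finset.mem_filter] at h6
        have h7 : (Z τ').card < Fintype.card (Fin k) := by
          rw [Finset.card_lt_iff_ne_univ]
          exact h6.2
        rw [Fintype.card_fin] at h7
        omega)
    have h6 : (((Sup Z).erase τ).card : ℝ) = ((Sup Z).card : ℝ) - 1 := by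
      rw [← Finset.card_erase_add_one hτ]
      push_cast
      ring
    rw [h6] at h5
    exact h5
  refine (Finset.sum_le_card_nsmul _ _ _ h4).trans ?_
  rw [nsmul_eq_mul]
  have h5 := num_heavy hk hh hw
  calc ((Sup Z).card : ℝ) * (A.card * Real.exp (-(3 * (((Sup Z).card : ℝ) - 1) / (4 * k))))
      = (((Sup Z).card : ℝ) * Real.exp (-(3 * (((Sup Z).card : ℝ) - 1) / (4 * k)))) * A.card := by
        ring
    _ ≤ Real.exp (-h) / 16 * A.card := mul_le_mul_of_nonneg_right h5 (Nat.cast_nonneg _)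

end H4.SL
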