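import Pool.Agent.H4.SL.W0

/-!
# Row We: the cylinders of a subcube

PROOF. `pj_update`: `τ ∉ D`: `pj D a (update j τ p) = update (pj D a j) τ p` (coordinates `τ`, in `D`, others).
`vio_rst`: for `Z ∈ 𝒵` with `Vio Z (pj D a j)`: for `τ ∈ D`: `a τ ∈ Z τ`; for `τ ∉ D`: `j τ ∈ Z τ`; so `rst D Z ∈ rs 𝒵 D a` and `Vio (rst D Z) j`; conversely the elements of
`rs 𝒵 D a` come from `Z ∈ 𝒵` with `a τ ∈ Z τ` on `D`, and `Vio (rst D Z) j` gives `Vio Z (pj D a j)`. So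
`(∃ Z ∈ 𝒵, Vio Z (pj D a j)) ↔ (∃ Z' ∈ rs 𝒵 D a, Vio Z' j)`.
`ext_acc`: from `vio_rst`. `sen_pj`: `Sen 𝒵 (pj D a j) τ` for `τ ∉ D`: `∃ Z p, Vio Z (update (pj D a j) τ p) = Vio Z (pj D a (update j τ p))`; apply `vio_rst` to `update j τ p`.
`sen_le`: the sensitive coordinates of `pj D a j` are in `D` or sensitive for `rs 𝒵 D a` at `j`.
`sup_rs`: `Z' = rst D Z` has `Z' τ = univ` for `τ ∈ D`. `card_rs_le`: `Finset.card_image_le`, `Finset.card_filter_le`.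
-/

set_option autoImplicit false

namespace H4.SL

variable {N k : ℕ}

theorem pj_update {D : Finset (Fin N)} {a j : Fin N → Fin k} {τ : Fin N} (hτ : τ ∉ D) (p : Fin k) :
    pj D a (Function.update j τ p) = Function.update (pj D a j) τ p := by
  funext τ'
  by_cases h : τ' = τ
  · subst h
    simp [pj, hτ]
  · simp [pj, Function.update_of_ne h]

theorem vio_pj {Z : Cst N k} {D : Finset (Fin N)} {a j : Fin N → Fin k} :
    Vio Z (pj D a j) ↔ (∀ τ ∈ D, a τ ∈ Z τ) ∧ Vio (rst D Z) j := by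
  constructor
  · intro h
    refine ⟨?_, ?_⟩
    · intro τ hτ
      have h1 := h τ
      simpa [pj, hτ] using h1
    · intro τ
      by_cases hτ : τ ∈ D
      · simp [rst, hτ]
      · have h1 := h τ
        simp only [pj, hτ, if_false] at h1
        simpa [rst, hτ] using h1
  · rintro ⟨h1, h2⟩ τ
    by_cases hτ : τ ∈ D
    · simpa [pj, hτ] using h1 τ hτ
    · have h3 := h2 τ
      simp only [rst, hτ, if_false] at h3
      simpa [pj, hτ] using h3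

theorem vio_rst (𝒵 : Finset (Cst N k)) (D : Finset (Fin N)) (a j : Fin N → Fin k) :
    (∃ Z ∈ 𝒵, Vio Z (pj D a j)) ↔ ∃ Z' ∈ rs 𝒵 D a, Vio Z' j := by
  constructor
  · rintro ⟨Z, hZ, h⟩
    obtain ⟨h1, h2⟩ := vio_pj.1 h
    exact ⟨rst D Z, Finset.mem_image.2 ⟨Z, Finset.mem_filter.2 ⟨hZ, h1⟩, rfl⟩, h2⟩
  · rintro ⟨Z', hZ', h⟩
    obtain ⟨Z, hZ, rfl⟩ := Finset.mem_image.1 hZ'
    obtain ⟨hZ1, hZ2⟩ := Finset.mem_filter.1 hZ
    exact ⟨Z, hZ1, vio_pj.2 ⟨hZ2, h⟩⟩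

theorem mem_Acc (𝒵 : Finset (Cst N k)) (j : Fin N → Fin k) :
    j ∈ Acc 𝒵 ↔ ¬ ∃ Z ∈ 𝒵, Vio Z j := by
  simp only [Acc, Finset.mem_filter, Finset.mem_univ, true_and]
  push Not
  rfl

theorem ext_acc (𝒵 : Finset (Cst N k)) (D : Finset (Fin N)) (a : Fin N → Fin k) :
    ext (Acc 𝒵) D a = Acc (rs 𝒵 D a) := by
  ext j
  rw [mem_Acc, ← vio_rst, ← mem_Acc, ext, Finset.mem_filter]
  exact ⟨fun h => h.2, fun h => ⟨Finset.mem_univ _, h⟩⟩

theorem sen_pj {𝒵 : Finset (Cst N k)} {D : Finset (Fin N)} {a j : Fin N → Fin k} {τ : Fin N} (hτ : τ ∉ D)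
    (h : Sen 𝒵 (pj D a j) τ) : Sen (rs 𝒵 D a) j τ := by
  obtain ⟨Z, hZ, p, hp⟩ := h
  rw [← pj_update hτ] at hp
  obtain ⟨Z', hZ', h'⟩ := (vio_rst 𝒵 D a (Function.update j τ p)).1 ⟨Z, hZ, hp⟩
  exact ⟨Z', hZ', p, h'⟩

theorem sen_le (𝒵 : Finset (Cst N k)) (D : Finset (Fin N)) (a j : Fin N → Fin k) :
    sen 𝒵 (pj D a j) ≤ D.card + sen (rs 𝒵 D a) j := by
  classical
  unfold sen
  refine (Finset.card_le_card ?_).trans (Finset.card_union_le _ _)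
  intro τ hτ
  rw [Finset.mem_filter] at hτ
  rw [Finset.mem_union]
  by_cases h : τ ∈ D
  · exact Or.inl h
  · exact Or.inr (Finset.mem_filter.2 ⟨Finset.mem_univ _, sen_pj h hτ.2⟩)

theorem sup_rs {𝒵 : Finset (Cst N k)} {D : Finset (Fin N)} {a : Fin N → Fin k} {Z : Cst N k}
    (hZ : Z ∈ rs 𝒵 D a) : Disjoint (Sup Z) D := by
  obtain ⟨Z', hZ', rfl⟩ := Finset.mem_image.1 hZ
  rw [Finset.disjoint_left]
  intro τ hτ hD
  rw [Sup, Finset.mem_filter] at hτ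
  exact hτ.2 (by simp [rst, hD])

theorem card_rs_le (𝒵 : Finset (Cst N k)) (D : Finset (Fin N)) (a : Fin N → Fin k) :
    (rs 𝒵 D a).card ≤ 𝒵.card :=
  Finset.card_image_le.trans (Finset.card_filter_le _ _)

end H4.SL
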