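import Pool.Agent.H4.SL.Wc
import Pool.Agent.H4.SL.Wd
import Pool.Agent.H4.SL.We

/-!
# Row Wf: an accepted point with few sensitive coordinates

`w₀ = 1 + 2k (h + log (64k))` (so `w₀ ≥ 20`: `k ≥ 2`, `log 128 ≥ 4.8`; `≥ 16` is enough: `log (64 k) ≥ log 2^7 = 7 log 2 ≥ 4.8`), `Λ = N/(16 k w₀)`.
PROOF. `A = Acc 𝒵` is nonempty (by `hA`, as `k^N > 0`). `subcube`: `D, a`; `A' = ext A D a = Acc 𝒵'`, `𝒵' = rs 𝒵 D a` (`ext_acc`). `card A' ≤ k^N` and the first claim of `subcube` with `hA`: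
`k^N exp (-Λ) exp (card D/(4k)) ≤ card A' ≤ k^N`, so `card D ≤ 4 k Λ = N/(4 w₀) ≤ N/64` and `log (k^N / card A') ≤ Λ` (and `≥ 0`). `A'` is nonempty.
Split `𝒵' = 𝒵₁ ∪ 𝒵₂`: `card (Sup Z) ≤ w₀` or `> w₀`. `Acc 𝒵' ⊆ Acc 𝒵₁, Acc 𝒵₂`, and `sen 𝒵' j ≤ sen 𝒵₁ j + sen 𝒵₂ j`.
Narrow ones: `sum_sen_le` with `w = ⌊w₀⌋₊ ≥ 1` (`card (Sup Z) ≤ w₀` gives `≤ ⌊w₀⌋₊`: `Nat.le_floor`): `∑_(A') sen 𝒵₁ j log 2 ≤ 3 w₀ (k - 1) card A' Λ ≤ (3/16) N card A'`.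
Wide ones: `heavy_le` (`sup_rs`, the second claim of `subcube`): `∑_(A') sen 𝒵₂ j ≤ card 𝒵₂ exp (-h)/16 card A' ≤ N/16 card A'` (`card 𝒵₂ ≤ card 𝒵' ≤ card 𝒵 ≤ N exp h`).
`log 2 ≥ 0.69`: `∑_(A') sen 𝒵' j ≤ (3/(16 * 0.69) + 1/16) N card A' ≤ 0.34 N card A'`. So some `j ∈ A'` has `sen 𝒵' j ≤ 0.34 N` (`Finset.exists_le_of_sum_le`), and
`pj D a j ∈ A` has `sen 𝒵 (pj D a j) ≤ card D + 0.34 N ≤ N/2` (`sen_le`).
-/

set_option autoImplicit false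

namespace H4.SL

variable {N k : ℕ}

private theorem Wf_log {k : ℕ} (hk : 2 ≤ k) : (4.8 : ℝ) ≤ Real.log (64 * k) := by
  have h2 : (2 : ℝ) ≤ k := by exact_mod_cast hk
  have h1 : Real.log ((2 : ℝ) ^ 7) ≤ Real.log (64 * k) :=
    Real.log_le_log (by norm_num) (by norm_num; linarith)
  rw [Real.log_pow] at h1
  have h3 := Real.log_two_gt_d9
  push_cast at h1
  linarith

private theorem Wf_sub {𝒵 𝒴 : Finset (Cst N k)} (h : 𝒴 ⊆ 𝒵) : Acc 𝒵 ⊆ Acc 𝒴 := by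
  classical
  intro j hj
  unfold Acc at hj ⊢
  rw [Finset.mem_filter] at hj ⊢
  exact ⟨hj.1, fun Z hZ => hj.2 Z (h hZ)⟩

private theorem Wf_split {𝒵 𝒴₁ 𝒴₂ : Finset (Cst N k)} (h : ∀ Z ∈ 𝒵, Z ∈ 𝒴₁ ∨ Z ∈ 𝒴₂)
    (j : Fin N → Fin k) : sen 𝒵 j ≤ sen 𝒴₁ j + sen 𝒴₂ j := by
  classical
  unfold sen
  refine le_trans (Finset.card_le_card ?_) (Finset.card_union_le _ _)
  intro τ hτ
  rw [Finset.mem_filter] at hτ
  rw [Finset.mem_union, Finset.mem_filter, Finset.mem_filter]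
  obtain ⟨h1, Z, hZ, p, hp⟩ := hτ
  rcases h Z hZ with h2 | h2
  · exact Or.inl ⟨h1, Z, h2, p, hp⟩
  · exact Or.inr ⟨h1, Z, h2, p, hp⟩

theorem few_sen (hk : 2 ≤ k) (hN : 1 ≤ N) {h : ℝ} (hh : 0 ≤ h) {𝒵 : Finset (Cst N k)}
    (hm : (𝒵.card : ℝ) ≤ N * Real.exp h)
    (hA : (k : ℝ) ^ N ≤ (Acc 𝒵).card *
      Real.exp ((N : ℝ) / (16 * k * (1 + 2 * k * (h + Real.log (64 * k)))))) :
    ∃ j ∈ Acc 𝒵, 2 * sen 𝒵 j ≤ N := by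
  classical
  have hk2 : (2 : ℝ) ≤ k := by exact_mod_cast hk
  have hN1 : (1 : ℝ) ≤ N := by exact_mod_cast hN
  have hlog := Wf_log hk
  obtain ⟨w₀, hw₀⟩ : ∃ w₀ : ℝ, w₀ = 1 + 2 * k * (h + Real.log (64 * k)) := ⟨_, rfl⟩
  have hw16 : 16 ≤ w₀ := by
    rw [hw₀]
    nlinarith
  rw [← hw₀] at hA
  obtain ⟨Λ, hΛ⟩ : ∃ Λ : ℝ, Λ = (N : ℝ) / (16 * k * w₀) := ⟨_, rfl⟩
  rw [← hΛ] at hA
  have hw0 : 0 < w₀ := by linarith
  have hk0 : (0 : ℝ) < k := by linarith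
  have hN0 : (0 : ℝ) < N := by linarith
  have hΛ0 : 0 ≤ Λ := by
    rw [hΛ]
    positivity
  have hkN : (0 : ℝ) < (k : ℝ) ^ N := by positivity
  have hAne : (Acc 𝒵).Nonempty := by
    rw [Finset.nonempty_iff_ne_empty]
    intro h0
    rw [h0, Finset.card_empty, Nat.cast_zero, zero_mul] at hA
    linarith
  have hApos : (0 : ℝ) < (Acc 𝒵).card := by exact_mod_cast hAne.card_pos
  obtain ⟨D, a, h1, h2⟩ := subcube hk hAne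
  have hle : (((ext (Acc 𝒵) D a).card : ℕ) : ℝ) ≤ (k : ℝ) ^ N := by
    have h3 : (ext (Acc 𝒵) D a).card ≤ k ^ N := by
      refine (Finset.card_le_univ _).trans (le_of_eq ?_)
      rw [Fintype.card_fun, Fintype.card_fin, Fintype.card_fin]
    exact_mod_cast h3
  have hexp1 : (1 : ℝ) ≤ Real.exp ((D.card : ℝ) / (4 * k)) := Real.one_le_exp (by positivity)
  have hAA : ((Acc 𝒵).card : ℝ) ≤ (ext (Acc 𝒵) D a).card := by nlinarith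
  have hA'pos : (0 : ℝ) < (ext (Acc 𝒵) D a).card := lt_of_lt_of_le hApos hAA
  have hA'ne : (ext (Acc 𝒵) D a).Nonempty := by
    rw [← Finset.card_pos]
    exact_mod_cast hA'pos
  have hD : (D.card : ℝ) ≤ N / 64 := by
    have h3 : ((Acc 𝒵).card : ℝ) * Real.exp ((D.card : ℝ) / (4 * k)) ≤
        ((Acc 𝒵).card : ℝ) * Real.exp Λ := h1.trans (hle.trans hA)
    have h4 := Real.exp_le_exp.1 (le_of_mul_le_mul_left h3 hApos)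
    rw [div_le_iff₀ (by positivity), hΛ] at h4
    have h5 : (N : ℝ) / (16 * k * w₀) * (4 * k) = N / (4 * w₀) := by
      field_simp
      ring
    rw [h5] at h4
    refine h4.trans ?_
    exact div_le_div_of_nonneg_left hN0.le (by norm_num) (by linarith)
  have hL : Real.log ((k : ℝ) ^ N / (ext (Acc 𝒵) D a).card) ≤ Λ := by
    rw [← Real.log_exp Λ]
    refine Real.log_le_log (by positivity) ?_
    rw [div_le_iff₀ hA'pos, mul_comm]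
    exact hA.trans (mul_le_mul_of_nonneg_right hAA (Real.exp_pos _).le)
  obtain ⟨𝒴₁, h𝒴₁⟩ : ∃ 𝒴, 𝒴 = (rs 𝒵 D a).filter (fun Z => ((Sup Z).card : ℝ) ≤ w₀) := ⟨_, rfl⟩
  obtain ⟨𝒴₂, h𝒴₂⟩ : ∃ 𝒴, 𝒴 = (rs 𝒵 D a).filter (fun Z => ¬ ((Sup Z).card : ℝ) ≤ w₀) := ⟨_, rfl⟩
  have hs1 : ext (Acc 𝒵) D a ⊆ Acc 𝒴₁ := by
    rw [ext_acc, h𝒴₁]
    exact Wf_sub (Finset.filter_subset _ _)
  have hs2 : ext (Acc 𝒵) D a ⊆ Acc 𝒴₂ := by
    rw [ext_acc, h𝒴₂]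
    exact Wf_sub (Finset.filter_subset _ _)
  have hsp : ∀ j, sen (rs 𝒵 D a) j ≤ sen 𝒴₁ j + sen 𝒴₂ j := by
    intro j
    apply Wf_split
    intro Z hZ
    by_cases hc : ((Sup Z).card : ℝ) ≤ w₀
    · left
      rw [h𝒴₁]
      exact Finset.mem_filter.2 ⟨hZ, hc⟩
    · right
      rw [h𝒴₂]
      exact Finset.mem_filter.2 ⟨hZ, hc⟩
  have hn := sum_sen_le hk (w := ⌊w₀⌋₊) (Nat.le_floor (by push_cast; linarith)) (𝒵 := 𝒴₁)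
    (fun Z hZ => by
      rw [h𝒴₁, Finset.mem_filter] at hZ
      exact Nat.le_floor hZ.2) hs1 hA'ne
  have hw := heavy_le hk hh (𝒴 := 𝒴₂) D h2 hs2 (fun Z hZ => by
    rw [h𝒴₂, Finset.mem_filter] at hZ
    refine ⟨sup_rs hZ.1, ?_⟩
    rw [← hw₀]
    exact not_le.1 hZ.2)
  have hn2 : (∑ j ∈ ext (Acc 𝒵) D a, (sen 𝒴₁ j : ℝ)) * Real.log 2 ≤
      3 / 16 * (N * (ext (Acc 𝒵) D a).card) := by
    rw [Finset.sum_mul]
    refine hn.trans ?_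
    have hfl : ((⌊w₀⌋₊ : ℕ) : ℝ) ≤ w₀ := Nat.floor_le hw0.le
    have hfl0 : (0 : ℝ) ≤ ((⌊w₀⌋₊ : ℕ) : ℝ) := Nat.cast_nonneg _
    calc 3 * ((⌊w₀⌋₊ : ℕ) : ℝ) * (((k : ℝ) - 1) * ((ext (Acc 𝒵) D a).card *
          Real.log ((k : ℝ) ^ N / (ext (Acc 𝒵) D a).card))) ≤
          3 * ((⌊w₀⌋₊ : ℕ) : ℝ) * (((k : ℝ) - 1) * ((ext (Acc 𝒵) D a).card * Λ)) := by
          refine mul_le_mul_of_nonneg_left ?_ (by positivity)
          refine mul_le_mul_of_nonneg_left ?_ (by linarith)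
          exact mul_le_mul_of_nonneg_left hL hA'pos.le
      _ ≤ 3 * w₀ * (k * ((ext (Acc 𝒵) D a).card * Λ)) := by
          have h5 : 0 ≤ ((ext (Acc 𝒵) D a).card : ℝ) * Λ := by positivity
          refine mul_le_mul (by linarith) ?_ ?_ (by linarith)
          · exact mul_le_mul_of_nonneg_right (by linarith) h5
          · exact mul_nonneg (by linarith) h5
      _ = 3 / 16 * (N * (ext (Acc 𝒵) D a).card) := by
          rw [hΛ]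
          field_simp
  have hw2 : ∑ j ∈ ext (Acc 𝒵) D a, (sen 𝒴₂ j : ℝ) ≤ 1 / 16 * (N * (ext (Acc 𝒵) D a).card) := by
    refine hw.trans ?_
    have h5 : (𝒴₂.card : ℝ) ≤ N * Real.exp h := by
      refine le_trans ?_ hm
      have h6 : 𝒴₂.card ≤ 𝒵.card := by
        rw [h𝒴₂]
        exact (Finset.card_filter_le _ _).trans (card_rs_le 𝒵 D a)
      exact_mod_cast h6
    calc (𝒴₂.card : ℝ) * (Real.exp (-h) / 16 * (ext (Acc 𝒵) D a).card) ≤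
          N * Real.exp h * (Real.exp (-h) / 16 * (ext (Acc 𝒵) D a).card) :=
          mul_le_mul_of_nonneg_right h5 (by positivity)
      _ = Real.exp h * Real.exp (-h) * (1 / 16 * (N * (ext (Acc 𝒵) D a).card)) := by ring
      _ = 1 / 16 * (N * (ext (Acc 𝒵) D a).card) := by
          rw [← Real.exp_add, add_neg_cancel, Real.exp_zero, one_mul]
  have hsum : ∑ j ∈ ext (Acc 𝒵) D a, (sen (rs 𝒵 D a) j : ℝ) ≤
      ∑ j ∈ ext (Acc 𝒵) D a, (0.34 * N : ℝ) := by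
    have h5 : ∑ j ∈ ext (Acc 𝒵) D a, (sen (rs 𝒵 D a) j : ℝ) ≤
        ∑ j ∈ ext (Acc 𝒵) D a, (sen 𝒴₁ j : ℝ) + ∑ j ∈ ext (Acc 𝒵) D a, (sen 𝒴₂ j : ℝ) := by
      rw [← Finset.sum_add_distrib]
      refine Finset.sum_le_sum fun j _ => ?_
      exact_mod_cast hsp j
    rw [Finset.sum_const, nsmul_eq_mul]
    have h6 : 0 ≤ ∑ j ∈ ext (Acc 𝒵) D a, (sen 𝒴₁ j : ℝ) := Finset.sum_nonneg fun j _ => Nat.cast_nonneg _
    have h7 := Real.log_two_gt_d9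
    have h8 : (∑ j ∈ ext (Acc 𝒵) D a, (sen 𝒴₁ j : ℝ)) * 0.69 ≤
        (∑ j ∈ ext (Acc 𝒵) D a, (sen 𝒴₁ j : ℝ)) * Real.log 2 :=
      mul_le_mul_of_nonneg_left (by linarith) h6
    have h9 : 0 ≤ (N : ℝ) * (ext (Acc 𝒵) D a).card := by positivity
    nlinarith
  obtain ⟨j, hj, hj2⟩ := Finset.exists_le_of_sum_le hA'ne hsum
  have hj3 : pj D a j ∈ Acc 𝒵 := by
    unfold ext at hj
    exact (Finset.mem_filter.1 hj).2
  refine ⟨pj D a j, hj3, ?_⟩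
  have h10 : ((sen 𝒵 (pj D a j) : ℕ) : ℝ) ≤ (D.card : ℝ) + sen (rs 𝒵 D a) j := by
    exact_mod_cast sen_le 𝒵 D a j
  have h11 : (2 * sen 𝒵 (pj D a j) : ℝ) ≤ N := by linarith
  exact_mod_cast h11

end H4.SL
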