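import Pool.Agent.H4.SL.W0
import Pool.Agent.H4.SL.Ec

/-!
# Row Wg: clauses and cylinders

`x = xs v M` (so `x τ q 0 = fv v M τ q`), `inj_xs` (row Eb), `asg_var`, `flip_var` (`Pool/Agent/H40/SP/La.lean`).
PROOF. `viol_iff`: `Viol C (asg x (stt j)) ↔ Alive v M C ∧ Vio (cst v M C) j`. By definition `asg x (stt j) y = true` iff `∃ τ q, q ≠ j τ ∧ y = fv v M τ q`.
→: if `(y, false) ∈ C` then `asg y ≠ false`, so `y = fv v M τ q` for some `τ, q`: alive. For all `τ`, `q`: if `(fv v M τ q, true) ∈ C` then `asg (fv v M τ q) = false`, so not `q ≠ j τ`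
(`asg_var`), `q = j τ`; if `(fv v M τ q, false) ∈ C` then `asg = true`, `q ≠ j τ` (`asg_var`). So `j τ ∈ cst v M C τ`.
←: let `(y, b) ∈ C`. `b = false`: `y = fv v M τ q` (alive), `q ≠ j τ`, so `asg y = true ≠ false`. `b = true`: if `asg y = true` then `y = fv v M τ q` with `q ≠ j τ`, but
`(fv v M τ q, true) ∈ C` gives `q = j τ`.
`acc_iff`: `Sat G a` iff no `C ∈ G` is violated (`Viol` is the negation of the clause condition, push the negation); `viol_iff`.
`sen_or_sv`: `Sat G (asg x (stt j))` by `acc_iff`, i.e. `stt j ∈ good x G`; `H40.SP.exists_crit` (`Pool/Agent/H40/SP/Lc.lean`; `inj_xs`, `hG' a h = sat_hard_of_hf M (hG a h)`): `C ∈ G` with `Viol C (flip x (stt j) τ)`.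
`flip x (stt j) τ` is `Function.update (asg ..) (fv v M τ (j τ)) true`; it is true exactly at the `fv v M τ' q` with `τ' = τ` or `q ≠ j τ'` (`flip_var`, and it is
false at all `y` which are not of the form `fv ..`). So `C` is alive; for `τ' ≠ τ`: `j τ' ∈ cst v M C τ'` as in `viol_iff`; and `(fv v M τ q, true) ∉ C` for all `q`. If some
`(fv v M τ p, false) ∉ C` then `p ∈ cst v M C τ` (no positive literal; `(fv v M τ q, false) ∈ C` implies `q ≠ p`), so `Vio (cst v M C) (update j τ p)`: `Sen`. Otherwise `Honest x G (stt j) τ` and `sv_of_honest` (row Ec).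
`hits_of_sen`: the coordinates not in `Sen` are counted by `hits (sv v G) M`: `B * s ≤ sen + hits`.
-/

/-!
# Row Wg: clauses and cylinders

`x = xs v M` (so `x τ q 0 = fv v M τ q`), `inj_xs` (row Eb), `asg_var`, `flip_var` (`Pool/Agent/H40/SP/La.lean`).
PROOF. `viol_iff`: `Viol C (asg x (stt j)) ↔ Alive v M C ∧ Vio (cst v M C) j`. By definition `asg x (stt j) y = true` iff `∃ τ q, q ≠ j τ ∧ y = fv v M τ q`.
→: if `(y, false) ∈ C` then `asg y ≠ false`, so `y = fv v M τ q` for some `τ, q`: alive. For all `τ`, `q`: if `(fv v M τ q, true) ∈ C` then `asg (fv v M τ q) = false`, so not `q ≠ j τ`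
(`asg_var`), `q = j τ`; if `(fv v M τ q, false) ∈ C` then `asg = true`, `q ≠ j τ` (`asg_var`). So `j τ ∈ cst v M C τ`.
←: let `(y, b) ∈ C`. `b = false`: `y = fv v M τ q` (alive), `q ≠ j τ`, so `asg y = true ≠ false`. `b = true`: if `asg y = true` then `y = fv v M τ q` with `q ≠ j τ`, but
`(fv v M τ q, true) ∈ C` gives `q = j τ`.
`acc_iff`: `Sat G a` iff no `C ∈ G` is violated (`Viol` is the negation of the clause condition, push the negation); `viol_iff`.
`sen_or_sv`: `Sat G (asg x (stt j))` by `acc_iff`, i.e. `stt j ∈ good x G`; `H40.SP.exists_crit` (`Pool/Agent/H40/SP/Lc.lean`; `inj_xs`, `hG' a h = sat_hard_of_hf M (hG a h)`): `C ∈ G` with `Viol C (flip x (stt j) τ)`.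
`flip x (stt j) τ` is `Function.update (asg ..) (fv v M τ (j τ)) true`; it is true exactly at the `fv v M τ' q` with `τ' = τ` or `q ≠ j τ'` (`flip_var`, and it is
false at all `y` which are not of the form `fv ..`). So `C` is alive; for `τ' ≠ τ`: `j τ' ∈ cst v M C τ'` as in `viol_iff`; and `(fv v M τ q, true) ∉ C` for all `q`. If some
`(fv v M τ p, false) ∉ C` then `p ∈ cst v M C τ` (no positive literal; `(fv v M τ q, false) ∈ C` implies `q ≠ p`), so `Vio (cst v M C) (update j τ p)`: `Sen`. Otherwise `Honest x G (stt j) τ` and `sv_of_honest` (row Ec).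
`hits_of_sen`: the coordinates not in `Sen` are counted by `hits (sv v G) M`: `B * s ≤ sen + hits`.
-/

set_option autoImplicit false
set_option linter.unusedVariables false
set_option linter.unusedSectionVars false

namespace H4.SL

open H40.SP

variable {V : Type} [DecidableEq V] {K s r B : ℕ} {v : Fin B → Fin (K + 1) → Ix s r → V} {G : Fml V}

theorem Wg_asg (hK : 1 ≤ K) (hv : InjV v) (M : Fin B → Fr K s r) (j : Fin (B * s) → Fin (K + 1))
    (τ : Fin (B * s)) (q : Fin (K + 1)) :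
    asg (xs v M) (stt j) (fv v M τ q) = true ↔ q ≠ j τ := by
  have h := asg_var (inj_xs hK hv M) (stt j) τ q 0
  constructor
  · intro h1
    exact (h.1 h1).1
  · intro h1
    exact h.2 ⟨h1, rfl⟩

omit [DecidableEq V] in
theorem Wg_mem {M : Fin B → Fr K s r} {j : Fin (B * s) → Fin (K + 1)} {y : V}
    (h : asg (xs v M) (stt j) y = true) : ∃ τ q, q ≠ j τ ∧ y = fv v M τ q := by
  obtain ⟨t, q, h1, h2⟩ := Ec_asg h
  exact ⟨t, q, h1, h2⟩

theorem Wg_flip (hK : 1 ≤ K) (hv : InjV v) (M : Fin B → Fr K s r) (j : Fin (B * s) → Fin (K + 1))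
    (τ τ' : Fin (B * s)) (q : Fin (K + 1)) :
    H40.SP.flip (xs v M) (stt j) τ (fv v M τ' q) = true ↔ q ≠ j τ' ∨ τ' = τ := by
  have h := flip_var (inj_xs hK hv M) (stt j) τ τ' q 0
  constructor
  · intro h1
    rcases h.1 h1 with h2 | h2
    · exact Or.inl h2.1
    · exact Or.inr h2.1
  · intro h1
    refine h.2 ?_
    by_cases h2 : q = j τ'
    · rcases h1 with h1 | h1
      · exact absurd h2 h1
      · exact Or.inr ⟨h1, h2.trans (by rw [h1]; rfl), rfl⟩
    · exact Or.inl ⟨h2, rfl⟩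

omit [DecidableEq V] in
theorem Wg_cst {M : Fin B → Fr K s r} {C : Finset (V × Bool)} {τ : Fin (B * s)}
    {p : Fin (K + 1)} : p ∈ cst v M C τ ↔
      ∀ q, ((fv v M τ q, true) ∈ C → q = p) ∧ ((fv v M τ q, false) ∈ C → q ≠ p) := by
  classical
  unfold cst
  rw [Finset.mem_filter]
  exact ⟨fun h => h.2, fun h => ⟨Finset.mem_univ _, h⟩⟩

omit [DecidableEq V] in
theorem Wg_zf {M : Fin B → Fr K s r} {Z : Cst (B * s) (K + 1)} :
    Z ∈ zf v M G ↔ ∃ C ∈ G, Alive v M C ∧ cst v M C = Z := by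
  classical
  unfold zf
  rw [Finset.mem_image]
  constructor
  · rintro ⟨C, hC, h⟩
    rw [Finset.mem_filter] at hC
    exact ⟨C, hC.1, hC.2, h⟩
  · rintro ⟨C, hC, h1, h2⟩
    exact ⟨C, Finset.mem_filter.2 ⟨hC, h1⟩, h2⟩

theorem viol_iff (hK : 1 ≤ K) (hv : InjV v) (M : Fin B → Fr K s r) (C : Finset (V × Bool))
    (j : Fin (B * s) → Fin (K + 1)) :
    Viol C (asg (xs v M) (stt j)) ↔ Alive v M C ∧ Vio (cst v M C) j := by
  constructor
  · intro hvi
    constructor
    · intro y hy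
      have h1 := hvi _ hy
      rw [ne_eq, Bool.not_eq_false] at h1
      obtain ⟨τ, q, -, h2⟩ := Wg_mem h1
      exact ⟨τ, q, h2⟩
    · intro τ
      rw [Wg_cst]
      intro q
      constructor
      · intro h
        have h1 := hvi _ h
        by_contra h2
        exact h1 ((Wg_asg hK hv M j τ q).2 h2)
      · intro h
        have h1 := hvi _ h
        rw [ne_eq, Bool.not_eq_false] at h1
        exact (Wg_asg hK hv M j τ q).1 h1
  · rintro ⟨hal, hvi⟩ ⟨y, b⟩ hl
    cases b with
    | false =>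
      obtain ⟨τ, q, rfl⟩ := hal y hl
      have h1 := ((Wg_cst.1 (hvi τ)) q).2 hl
      have h2 := (Wg_asg hK hv M j τ q).2 h1
      change asg (xs v M) (stt j) (fv v M τ q) ≠ false
      rw [h2]
      exact Bool.false_ne_true.symm
    | true =>
      intro h
      obtain ⟨τ, q, h1, h2⟩ := Wg_mem h
      subst h2
      exact h1 (((Wg_cst.1 (hvi τ)) q).1 hl)

theorem acc_iff (hK : 1 ≤ K) (hv : InjV v) (M : Fin B → Fr K s r) (j : Fin (B * s) → Fin (K + 1)) :
    j ∈ Acc (zf v M G) ↔ Sat G (asg (xs v M) (stt j)) := by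
  classical
  unfold Acc
  rw [Finset.mem_filter]
  constructor
  · rintro ⟨-, h⟩ C hC
    by_contra hcon
    have h1 : Viol C (asg (xs v M) (stt j)) := fun l hl he => hcon ⟨l, hl, he⟩
    obtain ⟨h2, h3⟩ := (viol_iff hK hv M C j).1 h1
    exact h _ (Wg_zf.2 ⟨C, hC, h2, rfl⟩) h3
  · intro h
    refine ⟨Finset.mem_univ _, fun Z hZ hvi => ?_⟩
    obtain ⟨C, hC, h1, rfl⟩ := Wg_zf.1 hZ
    obtain ⟨l, hl, he⟩ := h C hC
    exact (viol_iff hK hv M C j).2 ⟨h1, hvi⟩ l hl he

theorem card_zf_le (v : Fin B → Fin (K + 1) → Ix s r → V) (M : Fin B → Fr K s r) (G : Fml V) :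
    (zf v M G).card ≤ G.card := by
  classical
  unfold zf
  exact Finset.card_image_le.trans (Finset.card_filter_le _ _)

theorem sen_or_sv (hK : 1 ≤ K) (hv : InjV v) (hG : ∀ a, Sat G a → Sat (hf v) a) (M : Fin B → Fr K s r)
    {j : Fin (B * s) → Fin (K + 1)} (hj : j ∈ Acc (zf v M G)) (τ : Fin (B * s)) :
    Sen (zf v M G) j τ ∨ (bk τ, edge (M (bk τ)) (ps τ)) ∈ sv v G := by
  obtain ⟨C, hC, hvi⟩ := exists_crit (inj_xs hK hv M)
    (fun a h => sat_hard_of_hf M (hG a h)) (stt j) τ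
  by_cases hall : ∀ q, (fv v M τ q, false) ∈ C
  · exact Or.inr (sv_of_honest hv M ⟨C, hC, hvi, fun q => hall q⟩)
  · left
    push Not at hall
    obtain ⟨p, hp⟩ := hall
    have hfl : ∀ y, (y, false) ∈ C → H40.SP.flip (xs v M) (stt j) τ y = true := by
      intro y hy
      have h1 := hvi _ hy
      rwa [ne_eq, Bool.not_eq_false] at h1
    have hal : Alive v M C := by
      intro y hy
      rcases Ec_flip (hfl y hy) with h1 | h1
      · exact ⟨τ, j τ, h1⟩
      · obtain ⟨τ', q, -, h2⟩ := Wg_mem h1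
        exact ⟨τ', q, h2⟩
    refine ⟨cst v M C, Wg_zf.2 ⟨C, hC, hal, rfl⟩, p, fun τ' => ?_⟩
    rw [Wg_cst]
    intro q
    by_cases h : τ' = τ
    · subst h
      rw [Function.update_self]
      constructor
      · intro h1
        exact absurd ((Wg_flip hK hv M j τ' τ' q).2 (Or.inr rfl)) (hvi _ h1)
      · rintro h1 rfl
        exact hp h1
    · rw [Function.update_of_ne h]
      constructor
      · intro h1
        by_contra h2
        exact hvi _ h1 ((Wg_flip hK hv M j τ τ' q).2 (Or.inl h2))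
      · intro h1
        rcases (Wg_flip hK hv M j τ τ' q).1 (hfl _ h1) with h2 | h2
        · exact h2
        · exact absurd h2 h

theorem hits_of_sen (hK : 1 ≤ K) (hv : InjV v) (hG : ∀ a, Sat G a → Sat (hf v) a) (M : Fin B → Fr K s r)
    {j : Fin (B * s) → Fin (K + 1)} (hj : j ∈ Acc (zf v M G)) :
    B * s ≤ sen (zf v M G) j + hits (sv v G) M := by
  classical
  unfold sen hits
  refine le_trans (le_of_eq (Fintype.card_fin (B * s)).symm) ?_
  rw [← Finset.card_univ]
  refine le_trans (Finset.card_le_card ?_) (Finset.card_union_le _ _)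
  intro τ _
  rw [Finset.mem_union, Finset.mem_filter, Finset.mem_filter]
  rcases sen_or_sv hK hv hG M hj τ with h | h
  · exact Or.inl ⟨Finset.mem_univ _, h⟩
  · exact Or.inr ⟨Finset.mem_univ _, h⟩

end H4.SL
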