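import Pool.Agent.H4.SL.Wf
import Pool.Agent.H4.SL.Wg
import Pool.Agent.H4.SL.Ee
import Pool.Agent.H4.SL.Gd
import Pool.Agent.H4.SL.Ha

/-!
# Row Wh: the core for arbitrary clause width

`k = K + 1`, `N = B s`, `NF = card (Fin B → Fr K s r)`, `NS = card (St N k 1)`, `Λ = N/(16 k (1 + 2k (h + log (64k))))`, `P = sv v G`.
PROOF. Let `𝓜` be the set of the `M` with `k^N ≤ card (Acc (zf v M G)) exp Λ`. For `M ∉ 𝓜`: `card (Acc ..) < k^N exp (-Λ)`; for all `M`: `card (Acc ..) ≤ k^N`. So by `hcov`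
`NF k^N ≤ m₀ (card 𝓜 k^N + NF k^N exp (-Λ))`, and `m₀ exp (-Λ) ≤ 1/2` (`hm1`), hence `NF ≤ 2 m₀ card 𝓜` (*), in particular `𝓜` is nonempty (`NF > 0`).
For `M ∈ 𝓜`: `few_sen` (`card (zf v M G) ≤ card G ≤ N exp h`, `card_zf_le`) gives `j` with `2 sen ≤ N`, so `N ≤ 2 hits P M` (`hits_of_sen`).
`sum_hit_fr` (row Ee) with `S M = if M ∈ 𝓜 then univ else ∅`, `a = card 𝓜 * NS > 0`, `E β = log 5 + s (card (pt P β)/tot + 1/20)` (`spread`; elements of `pt P β` are admissible):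
`∑_(M ∈ 𝓜) NS hits P M log 2 ≤ card 𝓜 NS (log (NF NS / (card 𝓜 NS)) + ∑ β, E β)`. Divide by `card 𝓜 NS`; with `hits ≥ N/2` and (*): `(N/2) log 2 ≤ log (2 m₀) + B log 5 + N/20 + s card P/tot`
(`sum_pt`). `B log 5 ≤ N/20` (`log 5 ≤ 2 ≤ s/20`), `log (2 m₀) ≤ N/100`, `log 2 ≥ 0.69`: `s card P / tot ≥ N (0.345 - 0.11) ≥ N/5`, so `card P ≥ (1/5) B tot` and `card P ≤ card G` (`card_sv_le`).
-/

set_option autoImplicit false

namespace H4.SL

open H40.SP

variable {V : Type} [DecidableEq V] {K s r B : ℕ} {v : Fin B → Fin (K + 1) → Ix s r → V} {G : Fml V}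

theorem Wh_log5 : Real.log 5 ≤ 2 := by
  rw [Real.log_le_iff_le_exp (by norm_num)]
  have h := Real.quadratic_le_exp_of_nonneg (x := 2) (by norm_num)
  linarith

theorem Wh_card (M : Fin B → Fr K s r) :
    ((Acc (zf v M G)).card : ℝ) ≤ ((K : ℝ) + 1) ^ (B * s) := by
  have h1 := Finset.card_le_univ (Acc (zf v M G))
  rw [Fintype.card_fun, Fintype.card_fin, Fintype.card_fin] at h1
  exact_mod_cast h1

theorem coreW (hK : 1 ≤ K) (hs : 40 ≤ s) (hr : 400 * s * 2 ^ s * 2 ^ (2 * K + 1) ≤ 2 ^ r) (hB : 1 ≤ B)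
    (hv : InjV v) (hG : ∀ a, Sat G a → Sat (hf v) a) {h m₀ : ℝ} (hh : 0 ≤ h)
    (hm : (G.card : ℝ) ≤ B * s * Real.exp h) (hm0 : 1 ≤ m₀)
    (hm1 : 2 * m₀ ≤ Real.exp ((B : ℝ) * s / (16 * (K + 1) * (1 + 2 * (K + 1) * (h + Real.log (64 * (K + 1)))))))
    (hm2 : Real.log (2 * m₀) ≤ B * s / 100)
    (hcov : (Fintype.card (Fin B → Fr K s r) : ℝ) * ((K : ℝ) + 1) ^ (B * s) ≤
      m₀ * ∑ M : Fin B → Fr K s r, ((Acc (zf v M G)).card : ℝ)) :
    1 / 5 * B * tot K s r ≤ G.card := by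
  classical
  obtain ⟨N, hN⟩ : ∃ N : ℕ, N = B * s := ⟨_, rfl⟩
  have hNR : (N : ℝ) = B * s := by rw [hN]; push_cast; rfl
  have hN1 : 1 ≤ N := by
    rw [hN]
    exact Nat.mul_pos hB (by omega)
  obtain ⟨Λ, hΛ⟩ : ∃ Λ : ℝ, Λ = (B : ℝ) * s / (16 * (K + 1) * (1 + 2 * (K + 1) *
    (h + Real.log (64 * (K + 1))))) := ⟨_, rfl⟩
  rw [← hΛ] at hm1
  have hX : (0 : ℝ) < ((K : ℝ) + 1) ^ (B * s) := by positivity
  obtain ⟨X, hXd⟩ : ∃ X : ℝ, X = ((K : ℝ) + 1) ^ (B * s) := ⟨_, rfl⟩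
  obtain ⟨NF, hNF⟩ : ∃ NF : ℕ, NF = Fintype.card (Fin B → Fr K s r) := ⟨_, rfl⟩
  obtain ⟨NS, hNS⟩ : ∃ NS : ℕ, NS = Fintype.card (St (B * s) (K + 1) 1) := ⟨_, rfl⟩
  have hNF0 : 0 < NF := by
    rw [hNF]
    exact Fintype.card_pos_iff.2 ⟨fun _ => (1, fun _ => 0, fun _ _ => 0)⟩
  have hNS0 : 0 < NS := by
    rw [hNS]
    exact Fintype.card_pos
  have hNFR : (0 : ℝ) < NF := by exact_mod_cast hNF0
  have hNSR : (0 : ℝ) < NS := by exact_mod_cast hNS0
  obtain ⟨Q, hQ⟩ : ∃ Q : Finset (Fin B → Fr K s r), Q = Finset.univ.filter (fun M =>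
    X ≤ ((Acc (zf v M G)).card : ℝ) * Real.exp Λ) := ⟨_, rfl⟩
  have hQm : ∀ M, M ∈ Q ↔ X ≤ ((Acc (zf v M G)).card : ℝ) * Real.exp Λ := by
    intro M
    rw [hQ, Finset.mem_filter]
    simp only [Finset.mem_univ, true_and]
  rw [← hXd] at hX
  -- most of the mass is on `Q`
  have hstar : (NF : ℝ) ≤ 2 * m₀ * Q.card := by
    have h1 : ∀ M : Fin B → Fr K s r, ((Acc (zf v M G)).card : ℝ) ≤
        (if M ∈ Q then X else 0) + X * Real.exp (-Λ) := by
      intro M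
      have he : 0 ≤ X * Real.exp (-Λ) := by positivity
      split_ifs with hM
      · have h2 := Wh_card (v := v) (G := G) M
        rw [← hXd] at h2
        linarith
      · rw [hQm, not_le] at hM
        rw [zero_add, Real.exp_neg, ← div_eq_mul_inv, le_div_iff₀ (Real.exp_pos _)]
        exact hM.le
    have h2 : ∑ M : Fin B → Fr K s r, ((Acc (zf v M G)).card : ℝ) ≤
        Q.card * X + NF * (X * Real.exp (-Λ)) := by
      refine (Finset.sum_le_sum fun M _ => h1 M).trans ?_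
      rw [Finset.sum_add_distrib, Finset.sum_const, Finset.card_univ, ← hNF, nsmul_eq_mul,
        ← Finset.sum_filter, Finset.sum_const, nsmul_eq_mul, Finset.filter_mem_eq_inter,
        Finset.univ_inter]
    rw [← hXd, ← hNF] at hcov
    have hm00 : 0 ≤ m₀ := by linarith
    have h3 : (NF : ℝ) * X ≤ m₀ * (Q.card * X + NF * (X * Real.exp (-Λ))) :=
      hcov.trans (mul_le_mul_of_nonneg_left h2 hm00)
    have h4 : m₀ * Real.exp (-Λ) ≤ 1 / 2 := by
      rw [Real.exp_neg, ← div_eq_mul_inv, div_le_iff₀ (Real.exp_pos _)]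
      linarith
    have h5 : (NF : ℝ) ≤ m₀ * Q.card + NF * (m₀ * Real.exp (-Λ)) := by
      have h6 : (NF : ℝ) * X ≤ (m₀ * Q.card + NF * (m₀ * Real.exp (-Λ))) * X := by
        calc (NF : ℝ) * X ≤ m₀ * (Q.card * X + NF * (X * Real.exp (-Λ))) := h3
          _ = _ := by ring
      exact le_of_mul_le_mul_right h6 hX
    have h7 : (NF : ℝ) * (m₀ * Real.exp (-Λ)) ≤ NF * (1 / 2) :=
      mul_le_mul_of_nonneg_left h4 hNFR.le
    linarith
  have hQ0 : 0 < Q.card := by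
    rcases Nat.eq_zero_or_pos Q.card with h0 | h0
    · rw [h0, Nat.cast_zero, mul_zero] at hstar
      linarith
    · exact h0
  have hQR : (0 : ℝ) < Q.card := by exact_mod_cast hQ0
  -- few sensitive coordinates
  have hhits : ∀ M ∈ Q, (N : ℝ) / 2 ≤ hits (sv v G) M := by
    intro M hM
    rw [hQm] at hM
    obtain ⟨j, hj, hj2⟩ := few_sen (𝒵 := zf v M G) (h := h) (by omega) (by
        rw [← hN]
        exact hN1) hh (by
        have h1 : ((zf v M G).card : ℝ) ≤ G.card := by exact_mod_cast card_zf_le v M G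
        push_cast
        linarith) (by
        push_cast
        rw [← hXd, ← hΛ]
        exact hM)
    have h1 := hits_of_sen hK hv hG M hj
    have h2 : B * s ≤ 2 * hits (sv v G) M := by omega
    have h3 : (B : ℝ) * s ≤ 2 * hits (sv v G) M := by exact_mod_cast h2
    rw [hNR]
    linarith
  obtain ⟨a, ha⟩ : ∃ a : ℕ, a = ∑ M : Fin B → Fr K s r,
    ((if M ∈ Q then Finset.univ else ∅ : Finset (St (B * s) (K + 1) 1))).card := ⟨_, rfl⟩
  have haQ : a = Q.card * NS := by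
    have h1 : ∀ M : Fin B → Fr K s r,
        ((if M ∈ Q then Finset.univ else ∅ : Finset (St (B * s) (K + 1) 1))).card =
        if M ∈ Q then NS else 0 := by
      intro M
      split_ifs
      · rw [Finset.card_univ, hNS]
      · rfl
    rw [ha, Finset.sum_congr rfl fun M _ => h1 M, ← Finset.sum_filter, Finset.sum_const,
      smul_eq_mul, Finset.filter_mem_eq_inter, Finset.univ_inter]
  have ha0 : 0 < a := by
    rw [haQ]
    exact Nat.mul_pos hQ0 hNS0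
  have haR : (0 : ℝ) < a := by exact_mod_cast ha0
  have h2 := sum_hit_fr (sv v G)
    (fun M => (if M ∈ Q then Finset.univ else ∅ : Finset (St (B * s) (K + 1) 1))) ha ha0
    (fun β => Real.log 5 + s * (((pt (sv v G) β).card : ℝ) / tot K s r + 1 / 20))
    (fun β => spread hK (by omega) hr (by
      intro z hz
      rw [mem_pt] at hz
      unfold sv at hz
      rw [Finset.mem_filter] at hz
      exact hz.2.1))
  have h3 : ((sv v G).card : ℝ) ≤ G.card := by exact_mod_cast card_sv_le v G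
  have hlog2 : 0.6931471803 < Real.log 2 := Real.log_two_gt_d9
  have hlog0 : 0 < Real.log 2 := by linarith
  have hE : ∑ β : Fin B, (Real.log 5 + s * (((pt (sv v G) β).card : ℝ) / tot K s r + 1 / 20)) =
      B * Real.log 5 + s * (((sv v G).card : ℝ) / tot K s r + B / 20) := by
    have e1 : ∑ β : Fin B, ((pt (sv v G) β).card : ℝ) = ((sv v G).card : ℝ) := by
      exact_mod_cast sum_pt (sv v G)
    rw [Finset.sum_add_distrib, Finset.sum_const, ← Finset.mul_sum, Finset.sum_add_distrib,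
      Finset.sum_const, ← Finset.sum_div, e1, Finset.card_univ, Fintype.card_fin]
    simp only [nsmul_eq_mul]
    ring
  rw [hE, ← hNF, ← hNS] at h2
  have h5 : (a : ℝ) * ((N : ℝ) / 2 * Real.log 2) ≤ ∑ M : Fin B → Fr K s r,
      ∑ _σ ∈ (if M ∈ Q then Finset.univ else ∅ : Finset (St (B * s) (K + 1) 1)),
        (hits (sv v G) M : ℝ) * Real.log 2 := by
    rw [ha, Nat.cast_sum, Finset.sum_mul]
    refine Finset.sum_le_sum fun M _ => ?_
    rw [Finset.sum_const, nsmul_eq_mul]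
    by_cases hM : M ∈ Q
    · refine mul_le_mul_of_nonneg_left ?_ (Nat.cast_nonneg _)
      exact mul_le_mul_of_nonneg_right (hhits M hM) hlog0.le
    · rw [if_neg hM, Finset.card_empty, Nat.cast_zero, zero_mul, zero_mul]
  have h9 := le_of_mul_le_mul_left (h5.trans h2) haR
  have hratio : (NF : ℝ) * NS / a ≤ 2 * m₀ := by
    rw [div_le_iff₀ haR, haQ]
    push_cast
    calc (NF : ℝ) * NS ≤ 2 * m₀ * Q.card * NS := mul_le_mul_of_nonneg_right hstar hNSR.le
      _ = _ := by ring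
  have hlogr : Real.log ((NF : ℝ) * NS / a) ≤ N / 100 := by
    have h6 := Real.log_le_log (by positivity) hratio
    rw [hNR]
    exact h6.trans hm2
  have hB0 : (0 : ℝ) ≤ (B : ℝ) := Nat.cast_nonneg _
  have hsR : (40 : ℝ) ≤ (s : ℝ) := by exact_mod_cast hs
  have hBs : (0 : ℝ) ≤ (B : ℝ) * s := by positivity
  have h11 : (N : ℝ) * 0.6931471803 ≤ N * Real.log 2 :=
    mul_le_mul_of_nonneg_left hlog2.le (Nat.cast_nonneg _)
  have h12 : (B : ℝ) * Real.log 5 ≤ N * (1 / 20) := by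
    have e1 : Real.log 5 ≤ s * (1 / 20) := by
      have := Wh_log5
      linarith
    rw [hNR]
    calc (B : ℝ) * Real.log 5 ≤ B * (s * (1 / 20)) := mul_le_mul_of_nonneg_left e1 hB0
      _ = B * s * (1 / 20) := by ring
  have h13 : (s : ℝ) * (((sv v G).card : ℝ) / tot K s r + B / 20) =
      s * (((sv v G).card : ℝ) / tot K s r) + N * (1 / 20) := by
    rw [hNR]
    ring
  rw [h13] at h9
  have h14 : (s : ℝ) * (1 / 5 * B) ≤ s * (((sv v G).card : ℝ) / tot K s r) := by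
    have e1 : (s : ℝ) * (1 / 5 * B) = N * (1 / 5) := by
      rw [hNR]
      ring
    have e2 : (0 : ℝ) ≤ N := Nat.cast_nonneg _
    rw [e1]
    linarith
  have h15 : 1 / 5 * (B : ℝ) ≤ ((sv v G).card : ℝ) / tot K s r :=
    le_of_mul_le_mul_left h14 (by linarith)
  rw [le_div_iff₀ tot_pos] at h15
  exact h15.trans h3

theorem not_sparse_any (hK : 1 ≤ K) (hs : 40 ≤ s) (hr : 400 * s * 2 ^ s * 2 ^ (2 * K + 1) ≤ 2 ^ r)
    (hB : 1 ≤ B) (hv : InjV v) {h m L : ℝ} (hh : 0 ≤ h) (hm0 : 1 ≤ m) (hL : L ≤ B * s * Real.exp h)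
    (hm1 : 2 * m ≤ Real.exp ((B : ℝ) * s / (16 * (K + 1) * (1 + 2 * (K + 1) * (h + Real.log (64 * (K + 1)))))))
    (hm2 : Real.log (2 * m) ≤ B * s / 100) (hL2 : L < 1 / 5 * B * tot K s r) (w : ℕ) :
    ¬ Sparse (hf v) w m L := by
  rintro ⟨𝒢, hcard, hG, hiff⟩
  have hFr : 0 < Fintype.card (Fin B → Fr K s r) :=
    Fintype.card_pos_iff.2 ⟨fun _ => (1, fun _ => 0, fun _ _ => 0)⟩
  obtain ⟨NT, hNT⟩ : ∃ NT : ℕ, NT = Fintype.card (Fin B → Fr K s r) * (K + 1) ^ (B * s) :=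
    ⟨_, rfl⟩
  have hcover : ∀ (M : Fin B → Fr K s r) (j : Fin (B * s) → Fin (K + 1)), ∃ G ∈ 𝒢,
      j ∈ Acc (zf v M G) := by
    intro M j
    obtain ⟨G, hG1, hG2⟩ := (hiff (asg (xs v M) (stt j))).1 (sat_hf hv M (stt j))
    exact ⟨G, hG1, (acc_iff hK hv M j).2 hG2⟩
  have h1 : NT ≤ ∑ G ∈ 𝒢, ∑ M : Fin B → Fr K s r, (Acc (zf v M G)).card := by
    rw [Finset.sum_comm, hNT]
    have h2 : ∀ M : Fin B → Fr K s r, (K + 1) ^ (B * s) ≤
        ∑ G ∈ 𝒢, (Acc (zf v M G)).card := by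
      intro M
      have h3 : (Finset.univ : Finset (Fin (B * s) → Fin (K + 1))) ⊆
          𝒢.biUnion (fun G => Acc (zf v M G)) := by
        intro j _
        obtain ⟨G, h3, h4⟩ := hcover M j
        exact Finset.mem_biUnion.2 ⟨G, h3, h4⟩
      have h4 := (Finset.card_le_card h3).trans Finset.card_biUnion_le
      rw [Finset.card_univ, Fintype.card_fun, Fintype.card_fin, Fintype.card_fin] at h4
      exact h4
    calc Fintype.card (Fin B → Fr K s r) * (K + 1) ^ (B * s)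
        = ∑ _M : Fin B → Fr K s r, (K + 1) ^ (B * s) := by
          rw [Finset.sum_const, Finset.card_univ, smul_eq_mul]
      _ ≤ _ := Finset.sum_le_sum fun M _ => h2 M
  have h5 : ∃ G ∈ 𝒢, NT ≤ 𝒢.card * ∑ M : Fin B → Fr K s r, (Acc (zf v M G)).card := by
    by_contra hcon
    push Not at hcon
    have hne : 𝒢.Nonempty := by
      obtain ⟨M⟩ : Nonempty (Fin B → Fr K s r) := Fintype.card_pos_iff.1 hFr
      obtain ⟨G, h3, -⟩ := hcover M (fun _ => 0)
      exact ⟨G, h3⟩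
    have h6 : ∑ G ∈ 𝒢, 𝒢.card * ∑ M : Fin B → Fr K s r, (Acc (zf v M G)).card <
        ∑ _G ∈ 𝒢, NT := Finset.sum_lt_sum_of_nonempty hne hcon
    rw [← Finset.mul_sum, Finset.sum_const, smul_eq_mul] at h6
    exact absurd (Nat.mul_le_mul_left 𝒢.card h1) (not_le.2 h6)
  obtain ⟨G, hG1, hG2⟩ := h5
  have hcov : (Fintype.card (Fin B → Fr K s r) : ℝ) * ((K : ℝ) + 1) ^ (B * s) ≤
      m * ∑ M : Fin B → Fr K s r, ((Acc (zf v M G)).card : ℝ) := by
    have h6 : ((NT : ℕ) : ℝ) ≤ ((𝒢.card * ∑ M : Fin B → Fr K s r, (Acc (zf v M G)).card : ℕ) : ℝ) :=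
      Nat.cast_le.2 hG2
    rw [hNT] at h6
    push_cast at h6
    refine h6.trans (mul_le_mul_of_nonneg_right hcard ?_)
    exact Finset.sum_nonneg fun M _ => Nat.cast_nonneg _
  have hcore := coreW hK hs hr hB hv (fun a ha => (hiff a).2 ⟨G, hG1, ha⟩) hh
    ((hG G hG1).2.trans hL) hm0 hm1 hm2 hcov
  have h8 := (hG G hG1).2
  linarith

end H4.SL
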