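import Pool.Agent.H4.SL.Wh
import Pool.Agent.H4.SL.Hc

/-!
# Row Wi: arbitrary clause width, the choice of the parameters

PROOF. `k = K + 1`, `C = 2^19`, `ε₀ = 1/(1024 k^4 2^(3 (2K+50) + 2K + 10))`. Let `0 < ε ≤ ε₀`. Let `s` be the largest natural number with `1024 k^4 ε 2^(3s+2K+10) ≤ 1`
(the set of these `s` contains `2K + 50` and is bounded; e.g. `Nat.find` of the first failing `s ≥ 2K + 50`, minus one), so `s ≥ 2K + 50`. `r = 2 s + 2 K + 10`, `d = s + r = 3 s + 2 K + 10`, so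
(i) `1024 k^4 ε 2^d ≤ 1`, (ii) `1 < 8192 k^4 ε 2^d`, (iii) `d ≤ 4 s`. `hr` as in `lowerS` (row Hc): `400 ≤ 2^9`, `s ≤ 2^s`.
`n₀` so large that `n ≥ k 2^d` and `3 ε n ≥ 1`. For `n ≥ n₀`: `B = n / (k 2^d) ≥ 1`, `B k 2^d ≤ n ≤ 2 B k 2^d`; `v` from `exists_injV` (row Hc); `F = hf v`, `width_hf` (row Eb).
`m = 2^(ε n) ≥ 1`, `L = (1/(C k^4 ε))^K n`, `h = log (tot K s r)`; `tot = 2^d (2^(d-1))^K ≤ 2^(d k)`, `tot ≥ 1`.
* `h ≤ d k log 2 ≤ 2.8 s k`; `log (64 k) = 6 log 2 + log k ≤ 4.2 + k ≤ s`; so `w₀ = 1 + 2k (h + log (64 k)) ≤ 1 + 5.6 k^2 s + 2 k s ≤ 8 k^2 s`.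
* `B s/(16 k w₀) ≥ B/(128 k^3)`, and `B ≥ n/(2 k 2^d) ≥ 512 k^3 ε n` by (i), so it is `≥ 4 ε n ≥ ε n + 1 ≥ (ε n + 1) log 2 = log (2 m)`: `hm1`. `hm2`: `log (2m) ≤ B/(128 k^3) ≤ B s/100`
  (`ε n + 1 ≤ 4 ε n ≤ B/(128 k^3)`).
* `hL2`: by (ii) `1/(C k^4 ε) < 8192 * 2^d/2^19 = 2^d/64`, so `L ≤ (2^d/64)^K * 2 B k 2^d < (1/5) B 2^d (2^d/2)^K = (1/5) B tot`, since `(2^d/2)^K = 32^K (2^d/64)^K` and `10 (K+1) < 32^K`.
* `hL`: `L < (1/5) B tot ≤ B s tot = B s exp h`.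
-/

set_option autoImplicit false

namespace H4.SL

open H40.SP

private lemma Wi_num {K : ℕ} (hK : 1 ≤ K) : 10 * (K + 1) < 32 ^ K := by
  induction K, hK using Nat.le_induction with
  | base => norm_num
  | succ m _ ih =>
    rw [pow_succ]
    omega

private lemma Wi_s {A : ℝ} (hA : 0 < A) {s0 : ℕ} (h : A * 8 ^ s0 ≤ 1) :
    ∃ s : ℕ, s0 ≤ s ∧ A * 8 ^ s ≤ 1 ∧ 1 < A * 8 ^ (s + 1) := by
  classical
  have hex : ∃ s : ℕ, s0 ≤ s ∧ 1 < A * 8 ^ s := by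
    obtain ⟨m, hm⟩ := pow_unbounded_of_one_lt (1 / A) (by norm_num : (1 : ℝ) < 8)
    refine ⟨max s0 m, le_max_left _ _, ?_⟩
    have h2 : (8 : ℝ) ^ m ≤ 8 ^ (max s0 m) := pow_le_pow_right₀ (by norm_num) (le_max_right _ _)
    rw [div_lt_iff₀ hA] at hm
    calc (1 : ℝ) < 8 ^ m * A := hm
      _ ≤ 8 ^ (max s0 m) * A := mul_le_mul_of_nonneg_right h2 hA.le
      _ = A * 8 ^ (max s0 m) := mul_comm _ _
  have h1 := Nat.find_spec hex
  have h2 : ∀ m < Nat.find hex, ¬ (s0 ≤ m ∧ 1 < A * 8 ^ m) := fun m hm => Nat.find_min hex hm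
  set s1 : ℕ := Nat.find hex with hs1
  have h3 : s1 ≠ s0 := by
    intro h4
    rw [h4] at h1
    linarith [h1.2]
  have h1' := h1.1
  obtain ⟨s, hs⟩ : ∃ s, s1 = s + 1 := ⟨s1 - 1, by omega⟩
  rw [hs] at h1 h1' h2 h3
  refine ⟨s, by omega, ?_, h1.2⟩
  by_contra hcon
  exact h2 s (by omega) ⟨by omega, not_le.1 hcon⟩

private lemma Wi_log {K s : ℕ} (hs : 2 * K + 50 ≤ s) : Real.log (64 * ((K : ℝ) + 1)) ≤ s := by
  have hK0 : (0 : ℝ) ≤ K := Nat.cast_nonneg K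
  have h1 : Real.log (64 * ((K : ℝ) + 1)) = 6 * Real.log 2 + Real.log ((K : ℝ) + 1) := by
    rw [Real.log_mul (by norm_num) (by positivity), show (64 : ℝ) = 2 ^ 6 by norm_num, Real.log_pow]
    norm_num
  have h2 : Real.log ((K : ℝ) + 1) ≤ (K : ℝ) + 1 - 1 := Real.log_le_sub_one_of_pos (by positivity)
  have h3 := Real.log_two_lt_d9
  have h4 : 2 * (K : ℝ) + 50 ≤ s := by exact_mod_cast hs
  rw [h1]
  linarith

private lemma Wi_tot {K s r N : ℕ} (hN : N = 2 ^ (s + r)) (hsr : 1 ≤ s + r) :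
    tot K s r = N * (N / 2) ^ K := by
  have e1 : (N : ℝ) = 2 ^ (s + r) := by
    rw [hN]
    push_cast
    rfl
  have e2 : (N : ℝ) / 2 = 2 ^ (s + r - 1) := by
    have e3 : s + r = (s + r - 1) + 1 := by omega
    rw [e1]
    conv_lhs => rw [e3]
    rw [pow_succ]
    ring
  rw [e2, e1, ← pow_mul]
  rfl

private lemma Wi_h {K s r : ℕ} (hr : r = 2 * s + 2 * K + 10) (hs : 2 * K + 50 ≤ s) :
    0 ≤ Real.log (tot K s r) ∧ Real.log (tot K s r) ≤ 2.8 * s * ((K : ℝ) + 1) := by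
  have e : Real.log (tot K s r) = ((s + r + (s + r - 1) * K : ℕ) : ℝ) * Real.log 2 := by
    unfold tot
    rw [← pow_add, Real.log_pow]
  have h2 : 0 < Real.log 2 := Real.log_pos (by norm_num)
  have h3 := Real.log_two_lt_d9
  have h4 : s + r + (s + r - 1) * K ≤ 4 * s * (K + 1) := by
    have h5 : s + r ≤ 4 * s := by omega
    have h6 : (s + r - 1) * K ≤ 4 * s * K := Nat.mul_le_mul_right _ (by omega)
    calc s + r + (s + r - 1) * K ≤ 4 * s + 4 * s * K := add_le_add h5 h6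
      _ = 4 * s * (K + 1) := by ring
  have h5 : ((s + r + (s + r - 1) * K : ℕ) : ℝ) ≤ 4 * s * ((K : ℝ) + 1) := by exact_mod_cast h4
  have h6 : (0 : ℝ) ≤ 4 * s * ((K : ℝ) + 1) := by positivity
  rw [e]
  constructor
  · positivity
  · calc ((s + r + (s + r - 1) * K : ℕ) : ℝ) * Real.log 2
        ≤ 4 * s * ((K : ℝ) + 1) * Real.log 2 := mul_le_mul_of_nonneg_right h5 h2.le
      _ ≤ 4 * s * ((K : ℝ) + 1) * 0.7 := mul_le_mul_of_nonneg_left (by linarith) h6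
      _ = 2.8 * s * ((K : ℝ) + 1) := by ring

private lemma Wi_w {κ s h l : ℝ} (hκ : 2 ≤ κ) (hs : 50 ≤ s) (hh : h ≤ 2.8 * s * κ) (hl : l ≤ s) :
    1 + 2 * κ * (h + l) ≤ 8 * κ ^ 2 * s := by
  have h1 : 2 * κ * (h + l) ≤ 2 * κ * (2.8 * s * κ + s) :=
    mul_le_mul_of_nonneg_left (by linarith) (by linarith)
  have h2 : 100 ≤ κ * s := by nlinarith
  have h3 : 2 * (κ * s) ≤ κ * (κ * s) := mul_le_mul_of_nonneg_right hκ (by linarith)
  nlinarith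

private lemma Wi_m {κ s w₀ B ε n N m : ℝ} (hκ : 2 ≤ κ) (hs : 50 ≤ s) (hw0 : 0 < w₀)
    (hw : w₀ ≤ 8 * κ ^ 2 * s)
    (hB : 0 < B) (hε : 0 < ε) (hN : 0 < N) (hi : 1024 * κ ^ 4 * ε * N ≤ 1)
    (hn : n ≤ 2 * B * κ * N) (hn1 : 1 ≤ 3 * ε * n) (hm : m = (2 : ℝ) ^ (ε * n)) :
    2 * m ≤ Real.exp (B * s / (16 * κ * w₀)) ∧ Real.log (2 * m) ≤ B * s / 100 := by
  have hm0 : 0 < m := by
    rw [hm]
    positivity
  have hn0 : 0 < n := by
    by_contra h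
    rw [not_lt] at h
    have : ε * n ≤ 0 := mul_nonpos_of_nonneg_of_nonpos hε.le h
    linarith
  have hlog : Real.log (2 * m) = (ε * n + 1) * Real.log 2 := by
    rw [Real.log_mul (by norm_num) hm0.ne', hm, Real.log_rpow (by norm_num)]
    ring
  have h2 : 0 < Real.log 2 := Real.log_pos (by norm_num)
  have h3 := Real.log_two_lt_d9
  have hεn : 0 < ε * n := mul_pos hε hn0
  have h4 : Real.log (2 * m) ≤ 4 * (ε * n) := by
    rw [hlog]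
    nlinarith
  have hκ0 : 0 < κ := by linarith
  have h5 : 4 * (ε * n) ≤ B / (128 * κ ^ 3) := by
    rw [le_div_iff₀ (by positivity)]
    have h6 : ε * n ≤ ε * (2 * B * κ * N) := mul_le_mul_of_nonneg_left hn hε.le
    have h7 : 4 * (ε * n) * (128 * κ ^ 3) ≤ 4 * (ε * (2 * B * κ * N)) * (128 * κ ^ 3) :=
      mul_le_mul_of_nonneg_right (by linarith) (by positivity)
    have h8 : 4 * (ε * (2 * B * κ * N)) * (128 * κ ^ 3) = B * (1024 * κ ^ 4 * ε * N) := by ring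
    have h9 : B * (1024 * κ ^ 4 * ε * N) ≤ B * 1 := mul_le_mul_of_nonneg_left hi hB.le
    linarith
  have hκ3 : 8 ≤ κ ^ 3 := by
    have := pow_le_pow_left₀ (by norm_num) hκ 3
    norm_num at this
    exact this
  constructor
  · have h6 : B / (128 * κ ^ 3) ≤ B * s / (16 * κ * w₀) := by
      rw [div_le_div_iff₀ (by positivity) (by positivity)]
      have h7 : B * (16 * κ * w₀) ≤ B * (16 * κ * (8 * κ ^ 2 * s)) :=
        mul_le_mul_of_nonneg_left (mul_le_mul_of_nonneg_left hw (by positivity)) hB.le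
      calc B * (16 * κ * w₀) ≤ B * (16 * κ * (8 * κ ^ 2 * s)) := h7
        _ = B * s * (128 * κ ^ 3) := by ring
    have h7 : Real.log (2 * m) ≤ B * s / (16 * κ * w₀) := h4.trans (h5.trans h6)
    calc 2 * m = Real.exp (Real.log (2 * m)) := (Real.exp_log (by linarith)).symm
      _ ≤ _ := Real.exp_le_exp.2 h7
  · refine h4.trans (h5.trans ?_)
    rw [div_le_div_iff₀ (by positivity) (by norm_num)]
    have h6 : (100 : ℝ) ≤ s * (128 * κ ^ 3) := by nlinarith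
    calc B * 100 ≤ B * (s * (128 * κ ^ 3)) := mul_le_mul_of_nonneg_left h6 hB.le
      _ = B * s * (128 * κ ^ 3) := by ring

private lemma Wi_L {κ B ε n N : ℝ} {K : ℕ} (hκ : 0 < κ) (hK : 10 * κ < 32 ^ K)
    (hB : 0 < B) (hε : 0 < ε) (hN : 0 < N) (hii : 1 < 8192 * κ ^ 4 * ε * N) (hn0 : 0 ≤ n)
    (hn : n ≤ 2 * B * κ * N) :
    (1 / (2 ^ 19 * κ ^ 4 * ε)) ^ K * n < 1 / 5 * B * (N * (N / 2) ^ K) := by
  have h1 : 1 / (2 ^ 19 * κ ^ 4 * ε) ≤ N / 64 := by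
    rw [div_le_div_iff₀ (by positivity) (by norm_num)]
    have : N * (2 ^ 19 * κ ^ 4 * ε) = 64 * (8192 * κ ^ 4 * ε * N) := by ring
    rw [this]
    linarith
  have h2 : 0 ≤ 1 / (2 ^ 19 * κ ^ 4 * ε) := by positivity
  have e4 : ((N : ℝ) / 2) ^ K = 32 ^ K * (N / 64) ^ K := by
    rw [← mul_pow]
    congr 1
    ring
  rw [e4]
  have h5 : (0 : ℝ) < (N / 64) ^ K := by positivity
  calc (1 / (2 ^ 19 * κ ^ 4 * ε)) ^ K * n
      ≤ (N / 64) ^ K * (2 * B * κ * N) :=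
        mul_le_mul (pow_le_pow_left₀ h2 h1 _) hn hn0 h5.le
    _ = (B * N * (N / 64) ^ K / 5) * (10 * κ) := by ring
    _ < (B * N * (N / 64) ^ K / 5) * 32 ^ K := mul_lt_mul_of_pos_left hK (by positivity)
    _ = 1 / 5 * B * (N * (32 ^ K * (N / 64) ^ K)) := by ring

theorem lowerW : ∃ C : ℝ, 0 < C ∧ ∀ k : ℕ, 2 ≤ k → ∃ ε₀ : ℝ, 0 < ε₀ ∧ ∀ ε : ℝ, 0 < ε → ε ≤ ε₀ →
    ∃ n₀ : ℕ, ∀ n ≥ n₀, ∃ F : Fml (Fin n), Width k F ∧
      ∀ w : ℕ, ¬ Sparse F w ((2 : ℝ) ^ (ε * n)) ((1 / (C * k ^ 4 * ε)) ^ (k - 1) * n) := by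
  refine ⟨2 ^ 19, by norm_num, ?_⟩
  intro k hk
  obtain ⟨K, rfl⟩ : ∃ K, k = K + 1 := ⟨k - 1, by omega⟩
  have hK : 1 ≤ K := by omega
  obtain ⟨κ, hκ⟩ : ∃ κ : ℝ, κ = (K : ℝ) + 1 := ⟨_, rfl⟩
  have hκc : ((K + 1 : ℕ) : ℝ) = κ := by
    rw [hκ]
    push_cast
    rfl
  have hK1 : (1 : ℝ) ≤ K := by exact_mod_cast hK
  have hκ2 : 2 ≤ κ := by
    rw [hκ]
    linarith
  have hκ0 : 0 < κ := by linarith
  rw [hκc]
  refine ⟨1 / (1024 * κ ^ 4 * 2 ^ (2 * K + 10) * 8 ^ (2 * K + 50)), by positivity, ?_⟩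
  intro ε hε hε0
  obtain ⟨A, hA⟩ : ∃ A : ℝ, A = 1024 * κ ^ 4 * ε * 2 ^ (2 * K + 10) := ⟨_, rfl⟩
  have hA0 : 0 < A := by
    rw [hA]
    positivity
  have hA1 : A * 8 ^ (2 * K + 50) ≤ 1 := by
    rw [le_div_iff₀ (by positivity)] at hε0
    rw [hA]
    linarith
  obtain ⟨s, hs, hs1, hs2⟩ := Wi_s hA0 hA1
  obtain ⟨r, hr⟩ : ∃ r : ℕ, r = 2 * s + 2 * K + 10 := ⟨_, rfl⟩
  obtain ⟨N, hN⟩ : ∃ N : ℕ, N = 2 ^ (s + r) := ⟨_, rfl⟩
  have hN0 : 0 < N := by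
    rw [hN]
    positivity
  have hNr : (0 : ℝ) < N := by exact_mod_cast hN0
  have hN8 : (N : ℝ) = 8 ^ s * 2 ^ (2 * K + 10) := by
    rw [hN, hr]
    push_cast
    have e : s + (2 * s + 2 * K + 10) = 3 * s + (2 * K + 10) := by ring
    rw [e, pow_add, pow_mul]
    norm_num
  have hi : 1024 * κ ^ 4 * ε * N ≤ 1 := by
    have e : 1024 * κ ^ 4 * ε * N = A * 8 ^ s := by
      rw [hA, hN8]
      ring
    rw [e]
    exact hs1
  have hii : 1 < 8192 * κ ^ 4 * ε * N := by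
    have e : 8192 * κ ^ 4 * ε * N = A * 8 ^ (s + 1) := by
      rw [hA, hN8, pow_succ]
      ring
    rw [e]
    exact hs2
  have hr' : 400 * s * 2 ^ s * 2 ^ (2 * K + 1) ≤ 2 ^ r := by
    have h1 : s ≤ 2 ^ s := Nat.lt_two_pow_self.le
    have e : 2 ^ r = 2 ^ 9 * 2 ^ s * 2 ^ s * 2 ^ (2 * K + 1) := by
      rw [hr, ← pow_add, ← pow_add, ← pow_add]
      congr 1
      ring
    rw [e]
    refine Nat.mul_le_mul_right _ (Nat.mul_le_mul_right _ ?_)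
    exact Nat.mul_le_mul (by norm_num) h1
  have hkN : 0 < (K + 1) * N := Nat.mul_pos (by omega) hN0
  refine ⟨max ((K + 1) * N) ⌈1 / (3 * ε)⌉₊, fun n hn => ?_⟩
  have hn1 : (K + 1) * N ≤ n := (le_max_left _ _).trans hn
  have hn3 : 1 ≤ 3 * ε * n := by
    have h1 : 1 / (3 * ε) ≤ n := by
      refine (Nat.le_ceil _).trans ?_
      exact_mod_cast (le_max_right _ _).trans hn
    rw [div_le_iff₀ (by positivity)] at h1
    linarith
  obtain ⟨B, hB⟩ : ∃ B : ℕ, B = n / ((K + 1) * N) := ⟨_, rfl⟩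
  have hB1 : 1 ≤ B := by
    rw [hB]
    exact (Nat.one_le_div_iff hkN).2 hn1
  have hBn : B * ((K + 1) * N) ≤ n := by
    rw [hB]
    exact Nat.div_mul_le_self n _
  have hnB : n < (B + 1) * ((K + 1) * N) := by
    rw [hB]
    have := Nat.lt_div_mul_add (a := n) hkN
    calc n < n / ((K + 1) * N) * ((K + 1) * N) + (K + 1) * N := this
      _ = (n / ((K + 1) * N) + 1) * ((K + 1) * N) := by ring
  have hn2 : (n : ℝ) ≤ 2 * B * κ * N := by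
    have h1 : n ≤ 2 * B * (K + 1) * N := by
      have h2 : (B + 1) * ((K + 1) * N) ≤ (2 * B) * ((K + 1) * N) :=
        Nat.mul_le_mul_right _ (by omega)
      calc n ≤ (2 * B) * ((K + 1) * N) := by omega
        _ = 2 * B * (K + 1) * N := by ring
    rw [hκ]
    exact_mod_cast h1
  have hB0 : (0 : ℝ) < B := by exact_mod_cast hB1
  have hBn' : B * ((K + 1) * 2 ^ (s + r)) ≤ n := by
    rw [← hN]
    exact hBn
  obtain ⟨v, hv⟩ := exists_injV hBn'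
  have hs50 : (50 : ℝ) ≤ s := by
    have : 50 ≤ s := by omega
    exact_mod_cast this
  obtain ⟨hh0, hh1⟩ := Wi_h (K := K) hr hs
  have hl := Wi_log hs
  have hl0 : 0 ≤ Real.log (64 * ((K : ℝ) + 1)) := Real.log_nonneg (by linarith)
  have hh1' : Real.log (tot K s r) ≤ 2.8 * s * κ := by
    rw [hκ]
    exact hh1
  have hw := Wi_w hκ2 hs50 hh1' hl
  have hw0 : 0 < 1 + 2 * κ * (Real.log (tot K s r) + Real.log (64 * ((K : ℝ) + 1))) := by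
    have : 0 ≤ 2 * κ * (Real.log (tot K s r) + Real.log (64 * ((K : ℝ) + 1))) := by positivity
    linarith
  obtain ⟨hm1, hm2⟩ := Wi_m hκ2 hs50 hw0 hw hB0 hε hNr hi hn2 hn3 (m := (2 : ℝ) ^ (ε * n)) rfl
  have htot := Wi_tot (K := K) hN (by omega)
  have hK32 : 10 * κ < 32 ^ K := by
    rw [← hκc]
    exact_mod_cast Wi_num hK
  have hL2 := Wi_L hκ0 hK32 hB0 hε hNr hii (Nat.cast_nonneg n) hn2
  rw [← htot] at hL2
  have htot0 : 0 < tot K s r := by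
    unfold tot
    positivity
  have hk2 : K + 1 - 1 = K := by omega
  rw [hk2]
  refine ⟨hf v, width_hf v, fun w => ?_⟩
  refine not_sparse_any hK (by omega) hr' hB1 hv (h := Real.log (tot K s r)) hh0 ?_ ?_ ?_ hm2 hL2 w
  · apply Real.one_le_rpow (by norm_num)
    have : (0 : ℝ) ≤ n := Nat.cast_nonneg n
    positivity
  · rw [Real.exp_log htot0]
    refine hL2.le.trans ?_
    have h1 : (0 : ℝ) ≤ B * tot K s r := by positivity
    nlinarith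
  · rw [hκ] at hm1
    exact hm1

end H4.SL
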